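import Pool.Agent.Lib.MP_4d246d_lc.CR.Def

/-!
# Blind rules from rules that see the objective: polynomial time

As in `EB/RulePoly.lean`: `PolyF.foldl` with a polynomial bound for the states, for ALL histories:
after `k` answers there are at most `k` facts, each of them is `(false, negZ (dirZ n G S T))` or
`(true, dirZ n G S T)` with `sz S ≤ sz x`, `T = meet S _`, so `sz T ≤ 2 * S.length`
(`exists_factBd` gives the bound for the facts), and both names are names of the history.
-/

namespace Pool.Agent.Simplex.EB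

open Pool.Agent.Lib.PolyTime Pool.Agent.Simplex.QP Pool.Agent.Lib.MP_4d246d_lc.EB

variable {α : Type*} [TEnc α]

private theorem polyF_ctarget {κ : CRule} (hκ : PolyF κ) (e : ℕ) {X : α → Mat} {s : α → CSt}
    (hX : PolyF X) (hs : PolyF s) : PolyF (fun a => ctarget κ e (X a) (s a)) :=
  hκ.comp (hX.pair ((polyF_gc e hX hs.fst).pair (hs.snd.fst.pair hs.snd.snd)))

private theorem polyF_cupd {κ : CRule} (hκ : PolyF κ) (e : ℕ) {X : α → Mat} {s : α → CSt}
    {a : α → Answer} (hX : PolyF X) (hs : PolyF s) (ha : PolyF a) :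
    PolyF (fun b => cupd κ e (X b) (s b) (a b)) := by
  have hX1 : PolyF (fun p : α × List Bool => X p.1) := hX.comp PolyF.fst'
  have hs1 : PolyF (fun p : α × List Bool => s p.1) := hs.comp PolyF.fst'
  refine polyF_answer
    (g := fun p : α × List Bool => (((s p.1).1, (s p.1).2.1, p.2) : CSt))
    (h := fun p : α × List Bool => match ctarget κ e (X p.1) (s p.1) with
      | some T => (((s p.1).1 ++ [(false, negZ (dirZ (X p.1).1 (genM (X p.1)) (s p.1).2.2
          (meet (s p.1).2.2 T)))], (s p.1).2.2, (s p.1).2.2) : CSt)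
      | none => (((s p.1).1 ++ [(true, dirZ (X p.1).1 (genM (X p.1)) (s p.1).2.2
          (meet (s p.1).2.2 p.2))], (s p.1).2.2, (s p.1).2.2) : CSt)) ha ?_ ?_ ?_ ?_
  · exact hs1.fst.pair (hs1.snd.fst.pair PolyF.snd')
  · refine PolyF.optionCases
      (g := fun p : α × List Bool => (((s p.1).1 ++ [(true, dirZ (X p.1).1 (genM (X p.1))
          (s p.1).2.2 (meet (s p.1).2.2 p.2))], (s p.1).2.2, (s p.1).2.2) : CSt))
      (h := fun q : (α × List Bool) × List Bool => (((s q.1.1).1 ++ [(false,
          negZ (dirZ (X q.1.1).1 (genM (X q.1.1)) (s q.1.1).2.2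
          (meet (s q.1.1).2.2 q.2)))], (s q.1.1).2.2, (s q.1.1).2.2) : CSt))
      (polyF_ctarget hκ e hX1 hs1) ?_ ?_ ?_ ?_
    · exact (hs1.fst.append (PolyF.singleton
        ((PolyF.const true).pair (PolyF.dirZ hX1.fst (polyF_genM hX1) hs1.snd.snd
          (polyF_meet hs1.snd.snd PolyF.snd'))))).pair (hs1.snd.snd.pair hs1.snd.snd)
    · have hX2 : PolyF (fun q : (α × List Bool) × List Bool => X q.1.1) :=
        hX.comp (PolyF.fst'.comp PolyF.fst')
      have hs2 : PolyF (fun q : (α × List Bool) × List Bool => s q.1.1) :=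
        hs.comp (PolyF.fst'.comp PolyF.fst')
      exact (hs2.fst.append (PolyF.singleton
        ((PolyF.const false).pair (PolyF.negZ (PolyF.dirZ hX2.fst (polyF_genM hX2)
          hs2.snd.snd (polyF_meet hs2.snd.snd PolyF.snd')))))).pair
            (hs2.snd.snd.pair hs2.snd.snd)
    · intro p hp
      rw [hp]
    · intro p T hp
      rw [hp]
  · intro b S hb
    rw [hb]
    rfl
  · intro b S hb
    rw [hb]
    rfl

attribute [local irreducible] gc genM dirZ bits

/-- bounds for the states after `k` answers -/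
private structure CSzInv (x : Mat × List Bool × List Answer) (F k : ℕ) (s : CSt) : Prop where
  lc : s.1.length ≤ k
  fc : ∀ f ∈ s.1, sz f ≤ F
  st : sz s.2.1 ≤ sz x
  nm : sz s.2.2 ≤ sz x

private theorem cszInv_upd {κ : CRule} (e : ℕ) {x : Mat × List Bool × List Answer} {F k : ℕ}
    (hF : FactBd x F) {s : CSt} (hs : CSzInv x F k s) {a : Answer} (ha : a ∈ x.2.2) :
    CSzInv x F (k + 1) (cupd κ e x.1 s a) := by
  have hax : sz a ≤ sz x := by
    have h1 := sz_mem ha
    rw [sz_prod x, sz_prod x.2]; omega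
  cases a with
  | moved S' =>
    have hS' : sz S' ≤ sz x := by
      rw [sz_answer] at hax
      have h2 := sz_prod (Answer.toPair (.moved S'))
      have h3 : (Answer.toPair (.moved S')).2 = S' := rfl
      rw [h3] at h2
      omega
    exact ⟨hs.lc.trans (by omega), hs.fc, hs.st, hS'⟩
  | refused S' =>
    have hadd : ∀ f : Fact, sz f ≤ F → CSzInv x F (k + 1) (s.1 ++ [f], s.2.2, s.2.2) := by
      intro f hf
      refine ⟨?_, ?_, hs.nm, hs.nm⟩
      · show (s.1 ++ [f]).length ≤ k + 1
        rw [List.length_append, List.length_singleton]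
        have := hs.lc
        omega
      · intro f' hf'
        rcases List.mem_append.1 hf' with h | h
        · exact hs.fc f' h
        · rw [List.mem_singleton.1 h]
          exact hf
    have hcur : s.2.2.length ≤ sz x := (length_le_sz _).trans hs.nm
    have hmeet : ∀ T : List Bool, sz (meet s.2.2 T) ≤ 2 * ((genM x.1).length + sz x) := by
      intro T
      refine (sz_bools_le _).trans (Nat.mul_le_mul_left 2 ?_)
      exact (length_meet_le _ _).trans (by omega)
    unfold cupd
    dsimp only
    cases ht : ctarget κ e x.1 s with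
    | some T => exact hadd _ (hF.2 s.2.2 (meet s.2.2 T) hs.nm (hmeet T)).1
    | none => exact hadd _ (hF.2 s.2.2 (meet s.2.2 S') hs.nm (hmeet S')).2

private theorem cszInv_fold {κ : CRule} (e : ℕ) {x : Mat × List Bool × List Answer} {F : ℕ}
    (hF : FactBd x F) {k : ℕ} (hk : k ≤ x.2.2.length) :
    CSzInv x F k ((x.2.2.take k).foldl (cupd κ e x.1) ([], x.2.1, x.2.1)) := by
  induction k with
  | zero =>
    have h1 : sz x.2.1 ≤ sz x := by
      rw [sz_prod x, sz_prod x.2]; omega
    exact ⟨by simp, by simp, h1, h1⟩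
  | succ k ih =>
    have hk' : k < x.2.2.length := hk
    rw [List.take_succ_eq_append_getElem hk', List.foldl_append]
    exact cszInv_upd e hF (ih hk'.le) (List.getElem_mem hk')

private theorem csize_fold (κ : CRule) (e : ℕ) : ∃ P : Polynomial ℕ,
    ∀ x : Mat × List Bool × List Answer, ∀ k ≤ x.2.2.length,
      sz ((x.2.2.take k).foldl (cupd κ e x.1) ([], x.2.1, x.2.1)) ≤ P.eval (sz x) := by
  obtain ⟨F, hFp, hF⟩ := exists_factBd
  have hp : PBd (fun x : Mat × List Bool × List Answer =>
      2 + (F x + 1) * sz x + sz x + sz x) :=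
    (((PBd.const 2).add ((hFp.add (PBd.const 1)).mul PBd.size)).add PBd.size).add PBd.size
  obtain ⟨P, hP⟩ := hp
  refine ⟨P, fun x k hk => le_trans ?_ (hP x)⟩
  show _ ≤ 2 + (F x + 1) * sz x + sz x + sz x
  have hk' : k ≤ sz x := by
    have h1 := length_le_sz x.2.2
    have h2 := sz_prod x
    have h3 := sz_prod x.2
    omega
  obtain ⟨h1, h2, h3, h4⟩ := cszInv_fold (κ := κ) e (hF x) hk
  set s := (x.2.2.take k).foldl (cupd κ e x.1) ([], x.2.1, x.2.1) with hs
  have e1 : sz s.1 ≤ (F x + 1) * sz x :=
    (sz_le_of_forall h2).trans (Nat.mul_le_mul_left _ (by omega))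
  have h5 := sz_prod s
  have h6 := sz_prod s.2
  omega

theorem polyF_crule {κ : CRule} (hκ : PolyF κ) (e : ℕ) : PolyF (crule κ e) := by
  have h1 : PolyF (fun p : (Mat × List Bool × List Answer) × CSt × Answer =>
      cupd κ e p.1.1 p.2.1 p.2.2) :=
    polyF_cupd hκ e PolyF.fst'.fst PolyF.snd'.fst PolyF.snd'.snd
  have h2 : PolyF (fun x : Mat × List Bool × List Answer => (([], x.2.1, x.2.1) : CSt)) :=
    (PolyF.const []).pair (PolyF.snd'.fst.pair PolyF.snd'.fst)
  have h : PolyF (fun x : Mat × List Bool × List Answer =>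
      x.2.2.foldl (cupd κ e x.1) ([], x.2.1, x.2.1)) :=
    PolyF.foldl (l := fun x : Mat × List Bool × List Answer => x.2.2)
      (i := fun x : Mat × List Bool × List Answer => (([], x.2.1, x.2.1) : CSt))
      (f := fun x : Mat × List Bool × List Answer => cupd κ e x.1) PolyF.snd'.snd
      h2 h1 (csize_fold κ e)
  exact polyF_ctarget hκ e PolyF.fst' h

end Pool.Agent.Simplex.EB
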