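import Pool.Agent.Lib.MP_4d246d_lc.CR.Inv
import Pool.Agent.Lib.MP_4d246d_lc.CR.Poly
import Pool.Agent.Lib.MP_4d246d_lc.EB.BFin
import Pool.Agent.Lib.MP_4d246d_lc.EB.Opt3

/-!
# Blind rules from rules that see the objective
-/

namespace Pool.Agent.Simplex.EB

open Pool.Agent.Lib.PolyTime Pool.Agent.Simplex.QP

/-- **A rule that sees `A`, `c` and names, with at most `K` steps on the polyhedron of `D`, gives a
blind rule with about `K` answers on `D`.** -/
theorem blind_of_crule {κ : CRule} (hκ : PolyF κ) : ∃ (ρ : BlindRule) (P : Polynomial ℕ),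
    PolyF ρ ∧ ∀ (m n : ℕ) (D : RLP m n) (K : ℕ), CGood κ D K →
      Solves ρ D (P.eval D.size * (K + 1)) := by
  obtain ⟨e, he⟩ := exists_small
  let F : Polynomial ℕ := (2 * Polynomial.X + (Polynomial.X + 2) ^ e + 2) ^ 55 + 1
  refine ⟨crule κ e, F, polyF_crule hκ e, fun m n D K hK => ?_⟩
  have hsz : sz D.mat ≤ D.size := by
    have : D.size = 2 * sz D.mat + 1 := length_wd _ _ _
    omega
  have h1 : fuel e D.mat ≤ F.eval D.size := (fuel_le e D.mat).trans (peval_mono F hsz)
  have h2 := crule_solves (he D.mat) hK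
  exact h2.mono (Nat.mul_le_mul_right _ h1)

end Pool.Agent.Simplex.EB
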