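import Pool.Agent.Lib.MP_4d246d_lc.EB.BFin
import Pool.Agent.Lib.MP_4d246d_lc.EB.Opt3
import Pool.Agent.Lib.MP_4d246d_lc.EB.OnEngine
import Pool.Agent.Lib.MP_4d246d_lc.EB.OnBlind

/-!
# The optimal blind rule on classes of matrices
-/

namespace Pool.Agent.Simplex.EB

open Pool.Agent.Lib.PolyTime Pool.Agent.Simplex.QP Turing

/-- On the programs with a bounded matrix an optimal rule is at least as good as every version of
the simplex method with polynomial time and memory per pivot on the inputs with this matrix. -/
theorem Optimal.engine_bdd {U : BlindRule} (hU : Optimal U) (W : Engine) : ∃ Q : Polynomial ℕ,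
    ∀ (m n : ℕ) (D : RLP m n) (K : ℕ), Bdd D.A → W.Bound D.mat (Q.eval D.size) K →
      Solves U D (Q.eval (D.size + K)) := by
  obtain ⟨ρ, P, hρ, hP⟩ := blind_of_engine_bdd W
  obtain ⟨Q, hQ⟩ := hU ρ hρ.tm2_word
  refine ⟨P + Q.comp (Polynomial.X + P * (Polynomial.X + 1)), fun m n D K hb hK => ?_⟩
  have h1 : W.BoundAt D (P.eval D.size) K := by
    intro lp v hv hA _ hsz
    refine hK _ ?_ (hsz.trans ?_)
    · rw [ofQ_mat, hA]
      rfl
    · rw [Polynomial.eval_add]
      exact Nat.le_add_right _ _
  refine (hQ m n D _ (hP m n D K hb h1)).mono ?_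
  rw [Polynomial.eval_add, Polynomial.eval_comp]
  refine le_trans (peval_mono Q ?_) (Nat.le_add_left _ _)
  simp only [Polynomial.eval_add, Polynomial.eval_mul, Polynomial.eval_X, Polynomial.eval_one]
  have h2 : P.eval D.size ≤ P.eval (D.size + K) := peval_mono P (Nat.le_add_right _ _)
  have h3 : P.eval D.size * (K + 1) ≤ P.eval (D.size + K) * (D.size + K + 1) :=
    Nat.mul_le_mul h2 (by omega)
  omega

/-- **An optimal rule is at least as good as every version of the simplex method with polynomial
time and memory per pivot**, on the inputs with the same matrix if it is bounded, and with a row of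
ones added in general. -/
theorem Optimal.engine_or {U : BlindRule} (hU : Optimal U) (W : Engine) : ∃ Q : Polynomial ℕ,
    ∀ (m n : ℕ) (D : RLP m n) (K : ℕ),
      Bdd D.A ∧ W.Bound D.mat (Q.eval D.size) K ∨ W.Bound (plusM D.mat) (Q.eval D.size) K →
        Solves U D (Q.eval (D.size + K)) := by
  obtain ⟨Q, hQ⟩ := hU.engine_bdd W
  obtain ⟨R, hR⟩ := hU.engine W
  refine ⟨Q + R, fun m n D K h => ?_⟩
  rcases h with ⟨hb, hK⟩ | hK
  · refine (hQ m n D K hb fun I hI hsz => hK I hI (hsz.trans ?_)).mono ?_
    · rw [Polynomial.eval_add]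
      exact Nat.le_add_right _ _
    · rw [Polynomial.eval_add]
      exact Nat.le_add_right _ _
  · refine (hR m n D K fun I hI hsz => hK I hI (hsz.trans ?_)).mono ?_
    · rw [Polynomial.eval_add]
      exact Nat.le_add_left _ _
    · rw [Polynomial.eval_add]
      exact Nat.le_add_left _ _

/-- **Question 1 for a class of matrices is the question whether the optimal blind rule is
polynomial on it**: the class is recognised in polynomial time, and each matrix of the class is
bounded, or stays in the class if a row of ones is added. -/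
theorem Optimal.class_iff {U : BlindRule} (hU : Optimal U) (hp : U.Poly)
    (d : ℕ × List (List ℚ) → Bool)
    (hd : Nonempty (TM2ComputableInPolyTime (code (α := ℕ × List (List ℚ))) (code (α := Bool)) d))
    (hb : ∀ (m n : ℕ) (D : RLP m n), d D.mat = true → Bdd D.A ∨ d (plusM D.mat) = true) :
    SimplexOn (fun I => d (I.n, List.ofFn fun i => List.ofFn (I.lp.A i)) = true) ↔
      ∃ P : Polynomial ℕ, ∀ (m n : ℕ) (D : RLP m n), d D.mat = true →
        Solves U D (P.eval D.size) := by
  constructor
  · intro h
    have hd' : PolyF d := polyF_of_tm2 hd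
    obtain ⟨E, R, hE⟩ := h.engine (hd'.comp polyF_mat) fun I => Iff.rfl
    obtain ⟨Q, hQ⟩ := hU.engine_or E
    refine ⟨Q.comp (Polynomial.X + R.comp Q), fun m n D hD => ?_⟩
    have h1 : ∀ X, d X = true → E.Bound X (Q.eval D.size) (R.eval (Q.eval D.size)) := by
      intro X hX I hI hsz
      refine (hE I ?_).trans (peval_mono R hsz)
      rw [hI]
      exact hX
    refine (hQ m n D (R.eval (Q.eval D.size)) ?_).mono (le_of_eq ?_)
    · rcases hb m n D hD with h2 | h2
      · exact Or.inl ⟨h2, h1 _ hD⟩
      · exact Or.inr (h1 _ h2)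
    · simp only [Polynomial.eval_comp, Polynomial.eval_add, Polynomial.eval_X]
  · rintro ⟨P, hP⟩
    refine simplexOn_of_blind hp (P := P) fun I hI => ?_
    exact hP I.m I.n (ofQ I.lp) hI

end Pool.Agent.Simplex.EB
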