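import Pool.Agent.Lib.MP_4d246d_lc.EB.RulePoly
import Pool.Agent.Lib.MP_4d246d_lc.EB.RuleSmall
import Pool.Agent.Lib.MP_4d246d_lc.EB.Mis
import Pool.Agent.Lib.MP_4d246d_lc.EB.Plus

/-!
# Blind rules from rules that see the objective but not the right hand side (definitions)

A `CRule` sees the matrix, an integer objective `c`, the name of the vertex where it has been
started and the name of the current vertex; it names an edge. The blind rule `crule κ e` runs it
with a guess for the objective, made by the learner from the facts about the true objective:
* a refused proposal `T` shows that the objective does not increase along the edge `T`;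
* if the guess says that the vertex is optimal and the adversary shows an improving edge, the
  objective increases along this edge.
After each refusal the rule is started again at the current vertex, with a new guess.
-/

namespace Pool.Agent.Simplex.EB

open Pool.Agent.Lib.PolyTime Pool.Agent.Simplex.QP

/-- Rules that see the matrix, an integer objective, the name of the start, and the name of the
current vertex. -/
abbrev CRule : Type := Mat × List ℤ × List Bool × List Bool → Option (List Bool)

/-- `Reach κ D c x₀ t x`: with the objective `c` the rule leads from `x₀` to `x` in `t` steps. -/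
inductive Reach {m n : ℕ} (κ : CRule) (D : RLP m n) (c : List ℤ) (x₀ : Fin n → ℝ) :
    ℕ → (Fin n → ℝ) → Prop
  /-- the beginning -/
  | start : Reach κ D c x₀ 0 x₀
  /-- one step along the edge that the rule names -/
  | step {t : ℕ} {x y : Fin n → ℝ} : Reach κ D c x₀ t x → D.Edge x y →
      κ (D.mat, c, D.name x₀, D.name x) = some (D.edgeName x (y - x)) →
      Reach κ D c x₀ (t + 1) y

/-- The rule makes at most `K` steps on the polyhedron of `D`, for each integer objective `c` and
each start; it names directions of edges along which `c` increases, and it names none only if there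
is none. -/
def CGood (κ : CRule) {m n : ℕ} (D : RLP m n) (K : ℕ) : Prop :=
  ∀ c : List ℤ, c.length = n → ∀ x₀, D.Vertex x₀ → ∀ t x, Reach κ D c x₀ t x → t ≤ K ∧
    (∀ T, κ (D.mat, c, D.name x₀, D.name x) = some T →
      ∃ z, D.sys.Dir (m + n) x z ∧ D.edgeName x z = T ∧ 0 < rdot n c z) ∧
    (κ (D.mat, c, D.name x₀, D.name x) = none → ∀ z, D.sys.Dir (m + n) x z → rdot n c z ≤ 0)

theorem Reach.vertex {m n : ℕ} {κ : CRule} {D : RLP m n} {c : List ℤ} {x₀ : Fin n → ℝ}
    (h0 : D.Vertex x₀) {t : ℕ} {x : Fin n → ℝ} (h : Reach κ D c x₀ t x) : D.Vertex x := by
  cases h with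
  | start => exact h0
  | step _ h2 _ => exact h2.2.1

/-- states: facts about the objective, name of the start, name of the current vertex -/
abbrev CSt : Type := List Fact × List Bool × List Bool

/-- the proposal -/
def ctarget (κ : CRule) (e : ℕ) (X : Mat) (s : CSt) : Option (List Bool) :=
  κ (X, gc e X s.1, s.2.1, s.2.2)

/-- reaction to an answer (the names of edges are cut with the name of the vertex, to keep them
small in illegal histories) -/
def cupd (κ : CRule) (e : ℕ) (X : Mat) (s : CSt) (a : Answer) : CSt :=
  match a with
  | .moved S' => (s.1, s.2.1, S')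
  | .refused S' =>
    match ctarget κ e X s with
    | some T => (s.1 ++ [(false, negZ (dirZ X.1 (genM X) s.2.2 (meet s.2.2 T)))], s.2.2, s.2.2)
    | none => (s.1 ++ [(true, dirZ X.1 (genM X) s.2.2 (meet s.2.2 S'))], s.2.2, s.2.2)

/-- the blind rule of a rule that sees the objective -/
def crule (κ : CRule) (e : ℕ) : BlindRule := fun x =>
  ctarget κ e x.1 (x.2.2.foldl (cupd κ e x.1) ([], x.2.1, x.2.1))

end Pool.Agent.Simplex.EB
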