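import Pool.Agent.Lib.MP_4d246d_lc.EB.Statement

/-!
# Two classes of programs
-/

namespace Pool.Agent.Simplex.EB

variable {m n : ℕ}

/-- The feasible polyhedron is a 0/1 polytope: it is contained in the cube, and all its vertices
are 0/1 vectors. -/
def RLP.ZeroOne (D : RLP m n) : Prop :=
  (∀ x ∈ D.feasible, ∀ j, x j ≤ 1) ∧ ∀ x, D.Vertex x → ∀ j, x j = 0 ∨ x j = 1

/-- The feasible polyhedron is bounded, and there is a number `g > 0` such that each coordinate
and each slack of each vertex is `0` or between `g` and `k g`. -/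
def RLP.Ratio (D : RLP m n) (k : ℕ) : Prop :=
  (∃ R : ℝ, ∀ x ∈ D.feasible, ∀ j, x j ≤ R) ∧ ∃ g : ℝ, 0 < g ∧ ∀ x, D.Vertex x →
    (∀ j, x j = 0 ∨ g ≤ x j ∧ x j ≤ k * g) ∧
    ∀ i, D.b i - ∑ j, (D.A i j : ℝ) * x j = 0 ∨
      g ≤ D.b i - ∑ j, (D.A i j : ℝ) * x j ∧ D.b i - ∑ j, (D.A i j : ℝ) * x j ≤ k * g

/-- The two programs have the same matrix, and their vertices have the same names (for polytopes:
the polytopes have the same normal fan, the only difference being that the values of the right hand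
side are not the same). -/
def RLP.SameNames (D D' : RLP m n) : Prop :=
  D.A = D'.A ∧ ∀ S, (∃ x, D.Vertex x ∧ D.name x = S) ↔ ∃ x, D'.Vertex x ∧ D'.name x = S

end Pool.Agent.Simplex.EB
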