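import Pool.Agent.Lib.MP_4d246d_lc.EB.Mis
import Pool.Agent.Lib.MP_4d246d_lc.EB.Plus
import Pool.Agent.Lib.MP_4d246d_lc.CR.StatementC

/-!
# The plays depend only on the matrix, the objective and the names of the vertices
-/

namespace Pool.Agent.Simplex.EB

open Pool.Agent.Lib.PolyTime Pool.Agent.Simplex.QP

variable {m n : ℕ} {D D' : RLP m n}

theorem RLP.SameNames.symm (h : D.SameNames D') : D'.SameNames D :=
  ⟨h.1.symm, fun S => (h.2 S).symm⟩

/-- An edge `x y` of `D`, and the vertices with the same names of `D'`. -/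
theorem edge_transfer (hA : D.A = D'.A) {x y x' w : Fin n → ℝ} (hxy : D.Edge x y)
    (hx' : D'.Vertex x') (hn : D.name x = D'.name x') (hw : D'.Vertex w)
    (hnw : D.name y = D'.name w) :
    D'.Edge x' w ∧ D'.edgeName x' (w - x') = D.edgeName x (y - x) ∧
      ∃ t : ℝ, 0 < t ∧ w - x' = t • (y - x) := by
  have hd := (D.edge_iff.1 hxy).2.2.2
  have hd' := (RLP.dir_congr hA hn _).1 hd
  have hwx : w ≠ x' := by
    rintro rfl
    exact hxy.2.2.1 (RLP.Vertex.eq_of_name hxy.1 (by rw [hn, hnw]))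
  obtain ⟨t, ht, h1⟩ := D'.sys.dir_pos hx'.vx hd' (q := w - x') (fun i hi => by
      obtain ⟨h1, h2, h3⟩ := D'.sys.mem_T.1 hi
      have h4 := (RLP.name_congr.1 hn i h1).2 h2
      rw [RLP.ln_congr hA i, D.sys.ln_sub, h4, sub_zero] at h3
      have h6 := (RLP.name_congr.1 hnw i h1).1 h3
      rw [D'.sys.ln_sub, h6, h2, sub_zero]) (sub_ne_zero.2 hwx) (fun i hi h0 => by
      rw [D'.sys.ln_sub, h0, sub_zero]
      exact (Sys.mem_P _).1 hw.mem i hi)
  refine ⟨D'.edge_iff.2 ⟨hx', hw, hwx.symm, ?_⟩, ?_, t, ht, h1⟩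
  · rw [h1, RLP.dir_smul ht]
    exact hd'
  · rw [h1, RLP.edgeName_smul ht.ne', RLP.edgeName_of_name hA hn]

theorem improving_transfer (h : D.SameNames D') (hc : D.c = D'.c) {x y x' : Fin n → ℝ}
    (hxy : D.Improving x y) (hx' : D'.Vertex x') (hn : D.name x = D'.name x') :
    ∃ w, D'.Improving x' w ∧ D'.edgeName x' (w - x') = D.edgeName x (y - x) ∧
      D.name y = D'.name w := by
  obtain ⟨w, hw, hnw⟩ := (h.2 (D.name y)).1 ⟨y, hxy.1.2.1, rfl⟩
  obtain ⟨h1, h2, t, ht, h3⟩ := edge_transfer h.1 hxy.1 hx' hn hw hnw.symm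
  refine ⟨w, ⟨h1, ?_⟩, h2, hnw.symm⟩
  have h4 : D'.obj (w - x') = t * D.obj (y - x) := by
    rw [h3, RLP.obj_smul]
    unfold RLP.obj
    rw [hc]
  rw [RLP.obj_sub, RLP.obj_sub] at h4
  have h5 := mul_pos ht (sub_pos.2 hxy.2)
  linarith

theorem ray_transfer (hA : D.A = D'.A) {x z x' : Fin n → ℝ} (hz : z ≠ 0) (hr : D.Ray x z)
    (hx' : D'.Vertex x') (hn : D.name x = D'.name x') : D'.Ray x' z := by
  obtain ⟨-, h1, h2⟩ := (D.ray_iff hz).1 hr
  refine (D'.ray_iff hz).2 ⟨hx', (RLP.dir_congr hA hn z).1 h1, fun i hi => ?_⟩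
  rw [RLP.ln_congr hA]
  exact h2 i hi

/-- **The plays depend only on the matrix, the objective and the names of the vertices.** -/
theorem play_transfer (h : D.SameNames D') (hc : D.c = D'.c) {ρ : BlindRule}
    {x₀ x₀' : Fin n → ℝ} (hx₀ : D.Vertex x₀) (hx₀' : D'.Vertex x₀') (hn : D.name x₀ = D'.name x₀')
    {k : List Answer} {x : Fin n → ℝ} (hp : Play ρ D x₀ k x) :
    ∃ x', Play ρ D' x₀' k x' ∧ D.name x = D'.name x' := by
  have hM : D.mat = D'.mat := by
    unfold RLP.mat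
    rw [h.1]
  induction hp with
  | start => exact ⟨x₀', Play.start, hn⟩
  | @moved k x y hp hxy hr ih =>
    obtain ⟨x', hp', hn'⟩ := ih
    obtain ⟨w, hw, he, hnw⟩ := improving_transfer h hc hxy (hp'.vertex hx₀') hn'
    refine ⟨w, ?_, hnw⟩
    rw [hnw]
    refine Play.moved hp' hw ?_
    rw [← hM, ← hn, he]
    exact hr
  | @refused k x y hp hxy h1 h2 ih =>
    obtain ⟨x', hp', hn'⟩ := ih
    obtain ⟨w, hw, he, hnw⟩ := improving_transfer h hc hxy (hp'.vertex hx₀') hn'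
    refine ⟨x', ?_, hn'⟩
    rw [hnw]
    refine Play.refused hp' hw (fun v hv => ?_) (fun z hz hr => ?_)
    · obtain ⟨u, hu, heu, -⟩ := improving_transfer h.symm hc.symm hv (hp.vertex hx₀) hn'.symm
      rw [← hM, ← hn, ← heu]
      exact h1 u hu
    · have hz0 : z ≠ 0 := by
        rintro rfl
        simp [RLP.obj] at hz
      have hz' : 0 < D.obj z := by
        unfold RLP.obj at hz ⊢
        rw [hc]
        exact hz
      have := h2 z hz' (ray_transfer h.1.symm hz0 hr (hp.vertex hx₀) hn'.symm)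
      rw [← hM, ← hn, ← RLP.edgeName_of_name h.1 hn']
      exact this

/-- The number of answers depends only on the matrix, the objective and the names of the
vertices. -/
theorem solves_transfer (h : D.SameNames D') (hc : D.c = D'.c) {ρ : BlindRule} {B : ℕ}
    (hS : Solves ρ D' B) : Solves ρ D B := by
  refine solves_iff.2 fun x₀ hx₀ k x hp => ?_
  obtain ⟨x₀', hx₀', hn⟩ := (h.2 (D.name x₀)).1 ⟨x₀, hx₀, rfl⟩
  obtain ⟨x', hp', -⟩ := play_transfer h hc hx₀ hx₀' hn.symm hp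
  exact (hS x₀' hx₀' k x' hp').1

end Pool.Agent.Simplex.EB
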