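import Mathlib

/-!
# Counting the steps (pure real analysis)

`M` constraints, slacks `σ t i ≥ 0` of the `t`-th vertex, `t ≤ N`, gaps `γ t`, multipliers `μ i ≥ 0`
with `γ t = ∑ μ_i σ t i`. Each positive slack is between `g` and `k g`. Each step has
`γ (t + 1) ≤ (1 - 1 / q) γ t`, `q = M k + 1`, and `γ t > 0` for `t < N`. Then `N ≤ M q²`.

Proof. Suppose `N > M q²`. For `t < N` there is `i` with `μ_i σ_(t,i) ≥ γ t / M > 0`; as
`0 < σ_(t,i) ≤ k g`, `μ_i g q ≥ γ t`. If `t' ≥ t + q²`, `t' ≤ N` and `σ_(t',i) > 0`, then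
`γ t' ≥ μ_i σ_(t',i) ≥ μ_i g ≥ γ t / q`, but `γ t' ≤ (1 - 1 / q) ^ (q²) γ t < γ t / q`
(`(1 - 1/q)^(q²) ≤ exp (- q) < 1 / q`). So `σ_(t',i) = 0` for all `t' ≥ t + q²`. For `j ≤ M` put
`t = j q²`; `B_j` = the set of all `i < M` with `σ_(t',i) = 0` for all `j q² ≤ t' ≤ N`; then
`B_j ⊂ B_(j+1)` strictly, for `j = 0, …, M`; so `|B_(M+1)| ≥ M + 1`: contradiction.
-/

open Finset

namespace Pool.Agent.Simplex.EB

theorem km_count {M k N : ℕ} {σ : ℕ → ℕ → ℝ} {γ μ : ℕ → ℝ} {g : ℝ} (hg : 0 < g)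
    (hσ : ∀ t ≤ N, ∀ i < M, σ t i = 0 ∨ g ≤ σ t i ∧ σ t i ≤ k * g)
    (hμ : ∀ i, 0 ≤ μ i) (hγ : ∀ t ≤ N, γ t = ∑ i ∈ range M, μ i * σ t i)
    (hstep : ∀ t < N, γ (t + 1) ≤ (1 - 1 / ((M * k + 1 : ℕ) : ℝ)) * γ t)
    (hpos : ∀ t < N, 0 < γ t) : N ≤ M * (M * k + 1) ^ 2 := by
  by_contra hN
  push Not at hN
  set q : ℕ := M * k + 1 with hq
  have hq1 : 1 ≤ q := by omega
  have hqR : (1 : ℝ) ≤ (q : ℝ) := by exact_mod_cast hq1
  have hqpos : (0 : ℝ) < (q : ℝ) := by linarith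
  have hr0 : 0 ≤ 1 - 1 / (q : ℝ) := by
    have : 1 / (q : ℝ) ≤ 1 := by
      rw [div_le_one hqpos]; exact hqR
    linarith
  have hr1 : 1 - 1 / (q : ℝ) ≤ 1 := by
    have : 0 ≤ 1 / (q : ℝ) := by positivity
    linarith
  -- decay
  have hdec : ∀ t s : ℕ, t + s ≤ N → γ (t + s) ≤ (1 - 1 / (q : ℝ)) ^ s * γ t := by
    intro t s
    induction s with
    | zero => intro _; simp
    | succ s ih =>
      intro h
      have h1 := ih (by omega)
      have h2 := hstep (t + s) (by omega)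
      calc γ (t + (s + 1)) = γ (t + s + 1) := by rw [← add_assoc]
        _ ≤ (1 - 1 / (q : ℝ)) * γ (t + s) := h2
        _ ≤ (1 - 1 / (q : ℝ)) * ((1 - 1 / (q : ℝ)) ^ s * γ t) :=
            mul_le_mul_of_nonneg_left h1 hr0
        _ = (1 - 1 / (q : ℝ)) ^ (s + 1) * γ t := by ring
  -- the power is small
  have hpow : (1 - 1 / (q : ℝ)) ^ (q ^ 2) < 1 / (q : ℝ) := by
    have h1 : 1 - 1 / (q : ℝ) ≤ Real.exp (-(1 / (q : ℝ))) := by
      have := Real.add_one_le_exp (-(1 / (q : ℝ)))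
      linarith
    have h2 : (1 - 1 / (q : ℝ)) ^ (q ^ 2) ≤ Real.exp (-(q : ℝ)) := by
      calc (1 - 1 / (q : ℝ)) ^ (q ^ 2) ≤ (Real.exp (-(1 / (q : ℝ)))) ^ (q ^ 2) :=
            pow_le_pow_left₀ hr0 h1 _
        _ = Real.exp ((q ^ 2 : ℕ) * (-(1 / (q : ℝ)))) := by rw [Real.exp_nat_mul]
        _ = Real.exp (-(q : ℝ)) := by
            congr 1
            push_cast
            field_simp
    have h3 : Real.exp (-(q : ℝ)) < 1 / (q : ℝ) := by
      rw [Real.exp_neg, ← one_div]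
      apply one_div_lt_one_div_of_lt hqpos
      have := Real.add_one_le_exp (q : ℝ)
      linarith
    linarith
  -- the vanishing index
  have key : ∀ t < N, ∃ i < M, 0 < σ t i ∧ ∀ t' ≤ N, t + q ^ 2 ≤ t' → σ t' i = 0 := by
    intro t ht
    have hMpos : 0 < M := by
      rcases Nat.eq_zero_or_pos M with h | h
      · exfalso
        have h1 := hγ t ht.le
        have h2 := hpos t ht
        rw [h] at h1
        simp at h1
        linarith
      · exact h
    obtain ⟨i, hi, hile⟩ : ∃ i ∈ range M, γ t / M ≤ μ i * σ t i := by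
      by_contra hcon
      push Not at hcon
      have h1 : ∑ i ∈ range M, μ i * σ t i < ∑ i ∈ range M, γ t / M :=
        Finset.sum_lt_sum_of_nonempty (Finset.nonempty_range_iff.mpr (by omega)) hcon
      rw [← hγ t ht.le, Finset.sum_const, card_range, nsmul_eq_mul] at h1
      have hM' : (M : ℝ) ≠ 0 := by positivity
      have h2 : (M : ℝ) * (γ t / M) = γ t := by field_simp
      rw [h2] at h1
      exact lt_irrefl _ h1
    have hiM : i < M := mem_range.mp hi
    have hMR : (0 : ℝ) < (M : ℝ) := by exact_mod_cast hMpos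
    have hγt := hpos t ht
    have hp : 0 < μ i * σ t i := lt_of_lt_of_le (by positivity) hile
    have hσt : g ≤ σ t i ∧ σ t i ≤ k * g := by
      rcases hσ t ht.le i hiM with h | h
      · rw [h] at hp; simp at hp
      · exact h
    refine ⟨i, hiM, lt_of_lt_of_le hg hσt.1, ?_⟩
    intro t' ht' htt
    rcases hσ t' ht' i hiM with h | h
    · exact h
    · exfalso
      have hμi := hμ i
      have h1 : γ t ≤ μ i * g * (q : ℝ) := by
        have h2 : γ t ≤ M * (μ i * σ t i) := by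
          rw [div_le_iff₀ hMR] at hile
          linarith
        have h3 : μ i * σ t i ≤ μ i * (k * g) := mul_le_mul_of_nonneg_left hσt.2 hμi
        have h4 : (M : ℝ) * (μ i * σ t i) ≤ M * (μ i * (k * g)) :=
          mul_le_mul_of_nonneg_left h3 hMR.le
        have h5 : (q : ℝ) = M * k + 1 := by rw [hq]; push_cast; ring
        rw [h5]
        have h6 : 0 ≤ μ i * g := mul_nonneg hμi hg.le
        nlinarith
      have h2 : μ i * g ≤ γ t' := by
        have h3 : μ i * σ t' i ≤ γ t' := by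
          rw [hγ t' ht']
          apply Finset.single_le_sum (f := fun i => μ i * σ t' i) _ hi
          intro j hj
          have hj' := mem_range.mp hj
          apply mul_nonneg (hμ j)
          rcases hσ t' ht' j hj' with h | h
          · rw [h]
          · linarith [h.1]
        have h4 : μ i * g ≤ μ i * σ t' i := mul_le_mul_of_nonneg_left h.1 hμi
        linarith
      obtain ⟨s, rfl⟩ : ∃ s, t' = t + s := ⟨t' - t, by omega⟩
      have h3 := hdec t s ht'
      have h4 : (1 - 1 / (q : ℝ)) ^ s ≤ (1 - 1 / (q : ℝ)) ^ (q ^ 2) :=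
        pow_le_pow_of_le_one hr0 hr1 (by omega)
      have h5 : γ (t + s) < 1 / (q : ℝ) * γ t := by
        calc γ (t + s) ≤ (1 - 1 / (q : ℝ)) ^ s * γ t := h3
          _ ≤ (1 - 1 / (q : ℝ)) ^ (q ^ 2) * γ t := mul_le_mul_of_nonneg_right h4 hγt.le
          _ < 1 / (q : ℝ) * γ t := mul_lt_mul_of_pos_right hpow hγt
      have h6 : γ t / q ≤ μ i * g := by
        rw [div_le_iff₀ hqpos]; exact h1
      have h7 : 1 / (q : ℝ) * γ t = γ t / q := by ring
      linarith
  -- pigeonhole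
  have hj : ∀ j : Fin (M + 1), ∃ i < M, 0 < σ (j * q ^ 2) i ∧
      ∀ t' ≤ N, (j : ℕ) * q ^ 2 + q ^ 2 ≤ t' → σ t' i = 0 := by
    intro j
    apply key
    have : (j : ℕ) * q ^ 2 ≤ M * q ^ 2 := Nat.mul_le_mul_right _ (by omega)
    omega
  choose φ hφM hφpos hφ0 using hj
  obtain ⟨a, b, hab, hφab⟩ := Fintype.exists_ne_map_eq_of_card_lt
    (fun j : Fin (M + 1) => (⟨φ j, hφM j⟩ : Fin M)) (by simp)
  have hφab' : φ a = φ b := by simpa using hφab
  have hlt : ∀ a b : Fin (M + 1), a < b → φ a = φ b → False := by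
    intro a b h1 h2
    have h3 := hφ0 a (b * q ^ 2) (by
      have : (b : ℕ) * q ^ 2 ≤ M * q ^ 2 := Nat.mul_le_mul_right _ (by omega)
      omega) (by
      have h4 : (a : ℕ) + 1 ≤ b := h1
      calc (a : ℕ) * q ^ 2 + q ^ 2 = (a + 1) * q ^ 2 := by ring
        _ ≤ b * q ^ 2 := Nat.mul_le_mul_right _ h4)
    have h5 := hφpos b
    rw [← h2, h3] at h5
    exact lt_irrefl _ h5
  rcases lt_or_gt_of_ne hab with h | h
  · exact hlt a b h hφab'
  · exact hlt b a h hφab'.symm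

end Pool.Agent.Simplex.EB
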