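import Pool.Agent.Lib.MP_4d246d_lc.EB.Bridge
import Pool.Agent.Lib.MP_4d246d_lc.QP.Duality

/-!
# Optimal vertices and multipliers
-/

open Finset

namespace Pool.Agent.Simplex.EB

open Pool.Agent.Lib.PolyTime Pool.Agent.Simplex.QP

variable {m n : ℕ} {D : RLP m n}

/-- A linear function has a maximum at a vertex of a bounded nonempty polyhedron (compactness, the
face of the maxima has an extreme point: `IsCompact.extremePoints_nonempty`; or follow edges). -/
theorem exists_max_vertex (hB : ∃ R : ℝ, ∀ x ∈ D.feasible, ∀ j, x j ≤ R)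
    (hne : D.feasible.Nonempty) (c : Fin n → ℝ) :
    ∃ w, D.Vertex w ∧ ∀ y ∈ D.feasible, ∑ j, c j * y j ≤ ∑ j, c j * w j := by
  obtain ⟨R, hR⟩ := hB
  have hclosed : IsClosed D.feasible := by
    have h : D.feasible = (⋂ i, {x : Fin n → ℝ | ∑ j, (D.A i j : ℝ) * x j ≤ D.b i}) ∩
        ⋂ j, {x : Fin n → ℝ | 0 ≤ x j} := by
      ext x
      rw [Set.mem_inter_iff, Set.mem_iInter, Set.mem_iInter]
      exact Iff.rfl
    rw [h]
    refine IsClosed.inter (isClosed_iInter fun i => ?_) (isClosed_iInter fun j => ?_)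
    · exact isClosed_le (by fun_prop) continuous_const
    · exact isClosed_le continuous_const (continuous_apply j)
  have hcomp : IsCompact D.feasible := by
    refine IsCompact.of_isClosed_subset
      (isCompact_Icc (a := fun _ : Fin n => (0 : ℝ)) (b := fun _ : Fin n => R)) hclosed ?_
    intro x hx
    exact ⟨fun j => hx.2 j, fun j => hR x hx j⟩
  set l : (Fin n → ℝ) →L[ℝ] ℝ := ∑ j, c j • ContinuousLinearMap.proj (R := ℝ) j with hl
  have hlx : ∀ x, l x = ∑ j, c j * x j := by
    intro x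
    simp [hl]
  have hexp : IsExposed ℝ D.feasible (l.toExposed D.feasible) :=
    ContinuousLinearMap.toExposed.isExposed
  have hcompF : IsCompact (l.toExposed D.feasible) := hexp.isCompact hcomp
  have hneF : (l.toExposed D.feasible).Nonempty := by
    obtain ⟨x, hx1, hx2⟩ := hcomp.exists_isMaxOn hne l.continuous.continuousOn
    exact ⟨x, hx1, fun y hy => hx2 hy⟩
  obtain ⟨w, hw⟩ := hcompF.extremePoints_nonempty hneF
  refine ⟨w, hexp.isExtreme.extremePoints_subset_extremePoints hw, fun y hy => ?_⟩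
  have h1 := (extremePoints_subset hw).2 y hy
  rw [hlx, hlx] at h1
  exact h1

/-- Multipliers: if `w` is a maximum of `c` on the polyhedron, then
`c w - c x = ∑ μ_i sl_i x` for all `x`, with `μ_i ≥ 0` (`μ_i = 0` if `sl_i w ≠ 0`). This is Farkas'
lemma for the tight constraints at `w` (or `lp_duality`). -/
theorem exists_multipliers {w : Fin n → ℝ} (hw : w ∈ D.feasible) (c : Fin n → ℝ)
    (hmax : ∀ y ∈ D.feasible, ∑ j, c j * y j ≤ ∑ j, c j * w j) :
    ∃ μ : ℕ → ℝ, (∀ i, 0 ≤ μ i) ∧ ∀ x : Fin n → ℝ,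
      ∑ j, c j * w j - ∑ j, c j * x j = ∑ i ∈ range (m + n), μ i * D.sys.sl i x := by
  classical
  let Ai : Fin m ⊕ Fin n → Fin n → ℝ :=
    Sum.elim (fun i j => (D.A i j : ℝ)) (fun k j => if j = k then -1 else 0)
  let bi : Fin m ⊕ Fin n → ℝ := Sum.elim D.b (fun _ => 0)
  have hAr : ∀ (i : Fin m) (x : Fin n → ℝ), ∑ j, Ai (Sum.inl i) j * x j = ∑ j, (D.A i j : ℝ) * x j :=
    fun i x => rfl
  have hAv : ∀ (k : Fin n) (x : Fin n → ℝ), ∑ j, Ai (Sum.inr k) j * x j = -x k := by
    intro k x
    show ∑ j, (if j = k then (-1 : ℝ) else 0) * x j = -x k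
    simp [ite_mul]
  have hfeas : ∀ x : Fin n → ℝ, (∀ i, ∑ j, Ai i j * x j ≤ bi i) ↔ x ∈ D.feasible := by
    intro x
    constructor
    · intro h
      refine ⟨fun i => ?_, fun k => ?_⟩
      · have h1 := h (Sum.inl i)
        rw [hAr] at h1
        exact h1
      · have h1 := h (Sum.inr k)
        rw [hAv] at h1
        have h2 : bi (Sum.inr k) = 0 := rfl
        rw [h2] at h1
        linarith
    · rintro ⟨h1, h2⟩ i
      rcases i with i | k
      · rw [hAr]
        exact h1 i
      · rw [hAv]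
        have h3 : bi (Sum.inr k) = 0 := rfl
        rw [h3]
        have := h2 k
        linarith
  obtain ⟨x, lam, mu, -, h2, h3, h4, h5⟩ := lp_duality (κ := Empty) (fun k => k.elim)
    (fun k => k.elim) Ai bi c w (fun k => k.elim) ((hfeas w).2 hw) (∑ j, c j * w j)
    (fun x _ hx => hmax x ((hfeas x).1 hx))
  have h4' : ∀ j, ∑ i, mu i * Ai i j = c j := by
    intro j
    have := h4 j
    simpa using this
  have h5' : ∑ j, c j * x j = ∑ i, mu i * bi i := by
    simpa using h5
  have hc : ∀ z : Fin n → ℝ, ∑ j, c j * z j = ∑ i, mu i * ∑ j, Ai i j * z j := by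
    intro z
    have e1 : ∑ j, c j * z j = ∑ j, ∑ i, mu i * Ai i j * z j := by
      refine Finset.sum_congr rfl fun j _ => ?_
      rw [← h4' j, Finset.sum_mul]
    rw [e1, Finset.sum_comm]
    refine Finset.sum_congr rfl fun i _ => ?_
    rw [Finset.mul_sum]
    exact Finset.sum_congr rfl fun j _ => by ring
  have hle1 : ∑ j, c j * x j ≤ ∑ j, c j * w j := hmax x ((hfeas x).1 h2)
  have hle2 : ∑ j, c j * w j ≤ ∑ i, mu i * bi i := by
    rw [hc w]
    exact Finset.sum_le_sum fun i _ => mul_le_mul_of_nonneg_left ((hfeas w).2 hw i) (h3 i)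
  have hcw : ∑ j, c j * w j = ∑ i, mu i * bi i := le_antisymm hle2 (h5' ▸ hle1)
  refine ⟨fun i => if h : i < m then mu (Sum.inl ⟨i, h⟩) else
    if h' : i - m < n then mu (Sum.inr ⟨i - m, h'⟩) else 0, fun i => ?_, fun z => ?_⟩
  · dsimp only
    split_ifs
    · exact h3 _
    · exact h3 _
    · exact le_rfl
  · rw [hcw, hc z, ← Finset.sum_sub_distrib, Fintype.sum_sum_type, Finset.sum_range_add,
      Finset.sum_range, Finset.sum_range]
    congr 1
    · refine Finset.sum_congr rfl fun i _ => ?_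
      beta_reduce
      rw [dif_pos i.2, D.sl_row i z, hAr]
      show mu (Sum.inl i) * D.b i - mu (Sum.inl i) * _ = _
      ring
    · refine Finset.sum_congr rfl fun k _ => ?_
      have e1 : ¬ (m + (k : ℕ) < m) := by omega
      have e2 : m + (k : ℕ) - m = k := by omega
      have e3 : m + (k : ℕ) - m < n := by
        rw [e2]
        exact k.2
      beta_reduce
      rw [dif_neg e1, dif_pos e3, D.sl_var k z, hAv]
      have e4 : (⟨m + (k : ℕ) - m, e3⟩ : Fin n) = k := Fin.ext e2
      rw [e4]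
      show mu (Sum.inr k) * 0 - mu (Sum.inr k) * -z k = _
      ring

end Pool.Agent.Simplex.EB
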