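import Pool.Agent.Lib.MP_4d246d_lc.CR.KmDef
import Pool.Agent.Lib.MP_4d246d_lc.CR.KmDual
import Pool.Agent.Lib.MP_4d246d_lc.CR.KmCount

/-!
# The rule of the largest ratio on programs with bounded ratio of slacks

For `Reach kmRule D c x₀ t x` there are vertices `x₀, x₁, …, x_t = x`; at each of them
`pickZ_spec` applies (`cone_pointed`, `km_bdd`). Let `w` be a vertex that maximises `c`
(`exists_max_vertex`), `γ t = c w - c x_t`, `σ t i = sl_i x_t`. One step from `x` to `y` with picked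
direction `z`, `β = c z > 0`, `s = kmW`: `c (w - x) ≤ β s (w - x) = β L ∑_(i tight at x) sl_i w ≤
β L M k g`, and `c (y - x) = β s (y - x) = β L ∑_(i tight at x) sl_i y ≥ β L g`, because some
constraint that is tight at `x` is not tight at `y`. So `γ (t+1) ≤ γ t - β L g ≤ (1 - 1/q) γ t` and
`γ t > 0` as `c` increases. `km_count` gives `t ≤ M q²`.
-/

open Finset

namespace Pool.Agent.Simplex.EB

open Pool.Agent.Lib.PolyTime Pool.Agent.Simplex.QP

private theorem km_rdot_sub (n : ℕ) (c : List ℤ) (x y : Fin n → ℝ) :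
    rdot n c (x - y) = rdot n c x - rdot n c y := by
  unfold rdot
  rw [← Finset.sum_sub_distrib]
  refine Finset.sum_congr rfl fun j _ => ?_
  rw [Pi.sub_apply]
  ring

private theorem km_rdot_smul (n : ℕ) (c : List ℤ) (t : ℝ) (x : Fin n → ℝ) :
    rdot n c (t • x) = t * rdot n c x := by
  unfold rdot
  rw [Finset.mul_sum]
  refine Finset.sum_congr rfl fun j _ => ?_
  rw [Pi.smul_apply, smul_eq_mul]
  ring

/-- the vertices of a run -/
private theorem km_seq {m n : ℕ} {κ : CRule} {D : RLP m n} {c : List ℤ} {x₀ : Fin n → ℝ}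
    (h0 : D.Vertex x₀) {t : ℕ} {x : Fin n → ℝ} (h : Reach κ D c x₀ t x) :
    ∃ X : ℕ → Fin n → ℝ, X t = x ∧ (∀ s ≤ t, D.Vertex (X s)) ∧ ∀ s < t, D.Edge (X s) (X (s + 1)) ∧
      κ (D.mat, c, D.name x₀, D.name (X s)) = some (D.edgeName (X s) (X (s + 1) - X s)) := by
  induction h with
  | start => exact ⟨fun _ => x₀, rfl, fun _ _ => h0, fun s hs => absurd hs (Nat.not_lt_zero s)⟩
  | @step t x y h1 h2 h3 ih =>
    obtain ⟨X, hX, hV, hE⟩ := ih
    have e1 : ∀ s ≤ t, (fun r => if r = t + 1 then y else X r) s = X s := by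
      intro s hs
      exact if_neg (by omega)
    have e2 : (fun r => if r = t + 1 then y else X r) (t + 1) = y := if_pos rfl
    refine ⟨fun r => if r = t + 1 then y else X r, e2, fun s hs => ?_, fun s hs => ?_⟩
    · rcases Nat.lt_or_ge t s with h4 | h4
      · have h5 : s = t + 1 := by omega
        subst h5
        rw [e2]
        exact h2.2.1
      · rw [e1 s h4]
        exact hV s h4
    · rw [e1 s (by omega)]
      rcases Nat.lt_or_ge s t with h4 | h4
      · rw [e1 (s + 1) (by omega)]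
        exact hE s h4
      · have h5 : s = t := by omega
        subst h5
        rw [e2, hX]
        exact ⟨h2, h3⟩

open Classical in
/-- one step -/
private theorem km_step {m n : ℕ} {D : RLP m n} {k : ℕ} {g : ℝ} (hg : 0 < g)
    (hV : ∀ x, D.Vertex x → ∀ i < m + n, D.sys.sl i x = 0 ∨ g ≤ D.sys.sl i x ∧ D.sys.sl i x ≤ k * g)
    {c : List ℤ} {x y w : Fin n → ℝ} {T : List Bool} {z : Fin n → ℝ} (hw : D.Vertex w)
    (hmax : ∀ y ∈ D.feasible, rdot n c y ≤ rdot n c w) (hxy : D.Edge x y)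
    (h : Picked n D.gen (D.name x) (kmW D.mat (D.name x)) c T z) (hT : D.edgeName x (y - x) = T) :
    rdot n c w - rdot n c y ≤ (1 - 1 / (((m + n) * k + 1 : ℕ) : ℝ)) * (rdot n c w - rdot n c x) ∧
      0 < rdot n c w - rdot n c x := by
  have hx : D.Vertex x := hxy.1
  have hy : D.Vertex y := hxy.2.1
  obtain ⟨τ, hτ, hyx⟩ := h.eq_smul hx hxy hT
  have hL : (0 : ℝ) < (kmL D.mat : ℝ) := by exact_mod_cast kmL_pos D.mat
  have hβ := h.pos
  have hsl : ∀ v : Fin n → ℝ, rdot n (kmW D.mat (D.name x)) (v - x) =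
      (kmL D.mat : ℝ) * ∑ i ∈ range (m + n), if D.sys.sl i x = 0 then D.sys.sl i v else 0 := by
    intro v
    rw [rdot_kmW]
    congr 1
    refine Finset.sum_congr rfl fun i _ => ?_
    split_ifs with h0
    · rw [D.sys.ln_sub, h0, sub_zero]
    · rfl
  -- the upper bound for `w`
  have h1 : rdot n c (w - x) ≤ rdot n c z * ((kmL D.mat : ℝ) * ((m + n : ℕ) * (k * g))) := by
    refine (h.max _ (sub_mem_cone (D.mem_P.1 hw.mem))).trans ?_
    refine mul_le_mul_of_nonneg_left ?_ hβ.le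
    rw [hsl]
    refine mul_le_mul_of_nonneg_left ?_ hL.le
    have h2 : ∑ i ∈ range (m + n), (if D.sys.sl i x = 0 then D.sys.sl i w else 0) ≤
        ∑ _i ∈ range (m + n), (k : ℝ) * g := by
      refine Finset.sum_le_sum fun i hi => ?_
      have h3 : (0 : ℝ) ≤ k * g := by positivity
      split_ifs
      · rcases hV w hw i (Finset.mem_range.1 hi) with h4 | h4
        · rw [h4]
          exact h3
        · exact h4.2
      · exact h3
    rw [Finset.sum_const, Finset.card_range, nsmul_eq_mul] at h2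
    exact h2
  -- the lower bound for `y`
  have h5 : rdot n c (y - x) = rdot n c z * rdot n (kmW D.mat (D.name x)) (y - x) := by
    rw [hyx, km_rdot_smul, km_rdot_smul, h.one]
    ring
  have h6 : (kmL D.mat : ℝ) * g ≤ rdot n (kmW D.mat (D.name x)) (y - x) := by
    rw [hsl]
    refine mul_le_mul_of_nonneg_left ?_ hL.le
    have h7 : ∃ i < m + n, D.sys.sl i x = 0 ∧ D.sys.sl i y ≠ 0 := by
      by_contra hno
      push Not at hno
      refine hxy.2.2.1 ?_
      have h8 : y - x = 0 := hx.vx _ fun i hi h0 => by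
        rw [D.sys.ln_sub, h0, hno i hi h0, sub_zero]
      exact (sub_eq_zero.1 h8).symm
    obtain ⟨i, hi, hi0, hi1⟩ := h7
    have h9 : g ≤ D.sys.sl i y := by
      rcases hV y hy i hi with h10 | h10
      · exact absurd h10 hi1
      · exact h10.1
    have h11 : (if D.sys.sl i x = 0 then D.sys.sl i y else 0) ≤
        ∑ i ∈ range (m + n), (if D.sys.sl i x = 0 then D.sys.sl i y else 0) := by
      refine Finset.single_le_sum (f := fun i => if D.sys.sl i x = 0 then D.sys.sl i y else 0)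
        (fun j hj => ?_) (Finset.mem_range.2 hi)
      show 0 ≤ if D.sys.sl j x = 0 then D.sys.sl j y else 0
      split_ifs
      · exact (D.sys.mem_P.1 hy.mem) j (Finset.mem_range.1 hj)
      · exact le_rfl
    rw [if_pos hi0] at h11
    exact h9.trans h11
  rw [km_rdot_sub] at h1
  rw [km_rdot_sub] at h5
  have h12 : 0 ≤ rdot n c w - rdot n c y := sub_nonneg.2 (hmax y (D.mem_P.1 hy.mem))
  have hLg : 0 < rdot n c z * ((kmL D.mat : ℝ) * g) := mul_pos hβ (mul_pos hL hg)
  have h13 : rdot n c z * ((kmL D.mat : ℝ) * g) ≤ rdot n c y - rdot n c x := by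
    rw [h5]
    exact mul_le_mul_of_nonneg_left h6 hβ.le
  have hq : (0 : ℝ) < (((m + n) * k + 1 : ℕ) : ℝ) := by positivity
  refine ⟨?_, by linarith⟩
  have h14 : (rdot n c w - rdot n c x) / (((m + n) * k + 1 : ℕ) : ℝ) ≤ rdot n c z * ((kmL D.mat : ℝ) * g) := by
    rw [div_le_iff₀ hq]
    have e : rdot n c z * ((kmL D.mat : ℝ) * ((m + n : ℕ) * (k * g))) =
        rdot n c z * ((kmL D.mat : ℝ) * g) * (((m + n) * k : ℕ) : ℝ) := by
      push_cast
      ring
    rw [e] at h1
    have e2 : rdot n c z * ((kmL D.mat : ℝ) * g) * (((m + n) * k + 1 : ℕ) : ℝ) =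
        rdot n c z * ((kmL D.mat : ℝ) * g) * (((m + n) * k : ℕ) : ℝ) + rdot n c z * ((kmL D.mat : ℝ) * g) := by
      push_cast
      ring
    rw [e2]
    linarith
  have e3 : (1 - 1 / (((m + n) * k + 1 : ℕ) : ℝ)) * (rdot n c w - rdot n c x) =
      (rdot n c w - rdot n c x) - (rdot n c w - rdot n c x) / (((m + n) * k + 1 : ℕ) : ℝ) := by
    ring
  rw [e3]
  linarith

theorem km_good {m n : ℕ} {D : RLP m n} {k : ℕ} (hD : D.Ratio k) :
    CGood kmRule D ((m + n) * ((m + n) * k + 1) ^ 2) := by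
  obtain ⟨hB, g, hg, hV⟩ := hD
  have hV' : ∀ x, D.Vertex x → ∀ i < m + n,
      D.sys.sl i x = 0 ∨ g ≤ D.sys.sl i x ∧ D.sys.sl i x ≤ k * g := by
    intro x hx
    rw [RLP.forall_lt]
    refine ⟨fun i => ?_, fun j => ?_⟩
    · rw [D.sl_row]
      exact (hV x hx).2 i
    · rw [D.sl_var]
      exact (hV x hx).1 j
  intro c hc x₀ hx₀ t x hR
  have hx : D.Vertex x := hR.vertex hx₀
  have hspec : ∀ x, D.Vertex x →
      (kmRule (D.mat, c, D.name x₀, D.name x) = none → ∀ z ∈ Cone n D.gen (D.name x), rdot n c z ≤ 0) ∧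
      ∀ T, kmRule (D.mat, c, D.name x₀, D.name x) = some T →
        ∃ z, Picked n D.gen (D.name x) (kmW D.mat (D.name x)) c T z :=
    fun x hx => pickZ_spec (cone_pointed hx) (km_bdd hx c)
  refine ⟨?_, fun T hT => ?_, fun hnone z hz => ?_⟩
  · obtain ⟨X, hXt, hXV, hXE⟩ := km_seq hx₀ hR
    obtain ⟨w, hw, hmax⟩ := exists_max_vertex hB ⟨x, D.mem_P.1 hx.mem⟩ fun j => ((c.getD j 0 : ℤ) : ℝ)
    have hmax' : ∀ y ∈ D.feasible, rdot n c y ≤ rdot n c w := hmax
    obtain ⟨μ, hμ0, hμ⟩ := exists_multipliers (D.mem_P.1 hw.mem) _ hmax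
    refine km_count (M := m + n) (k := k) (σ := fun s i => D.sys.sl i (X s))
      (γ := fun s => rdot n c w - rdot n c (X s)) (μ := μ) hg (fun s hs i hi => hV' _ (hXV s hs) i hi) hμ0
      (fun s _ => hμ (X s)) (fun s hs => ?_) (fun s hs => ?_)
    · obtain ⟨z, hz⟩ := (hspec _ (hXV s hs.le)).2 _ (hXE s hs).2
      exact (km_step hg hV' hw hmax' (hXE s hs).1 hz rfl).1
    · obtain ⟨z, hz⟩ := (hspec _ (hXV s hs.le)).2 _ (hXE s hs).2
      exact (km_step hg hV' hw hmax' (hXE s hs).1 hz rfl).2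
  · obtain ⟨z, hz⟩ := (hspec x hx).2 T hT
    obtain ⟨h1, h2⟩ := hz.dir hx
    exact ⟨z, h1, h2, hz.pos⟩
  · exact (hspec x hx).1 hnone z (mem_cone.2 hz.1)

end Pool.Agent.Simplex.EB
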