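import Pool.Agent.Lib.MP_4d246d_lc.CR.Pick
import Pool.Agent.Lib.MP_4d246d_lc.EB.Bridge

/-!
# The best edge at a vertex of a program

The cone of the name of a vertex `x` consists of the directions `z` with `ln_i z ≥ 0` for the tight
constraints `i`; `Picked` directions are directions of edges.
-/

namespace Pool.Agent.Simplex.EB

open Pool.Agent.Lib.PolyTime Pool.Agent.Simplex.QP

variable {m n : ℕ} {D : RLP m n} {x y z : Fin n → ℝ} {s c : List ℤ} {T : List Bool}

private theorem stp_rdot_add (n : ℕ) (a : List ℤ) (x y : Fin n → ℝ) :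
    rdot n a (x + y) = rdot n a x + rdot n a y := by
  unfold rdot
  rw [← Finset.sum_add_distrib]
  exact Finset.sum_congr rfl fun j _ => by rw [Pi.add_apply, mul_add]

private theorem stp_rdot_smul (n : ℕ) (a : List ℤ) (t : ℝ) (x : Fin n → ℝ) :
    rdot n a (t • x) = t * rdot n a x := by
  unfold rdot
  rw [Finset.mul_sum]
  exact Finset.sum_congr rfl fun j _ => by rw [Pi.smul_apply, smul_eq_mul]; ring

/-- the cone of a vertex (`D.rdot_gen`, `sc_pos`, `D.getD_name`) -/
theorem mem_cone : z ∈ Cone n D.gen (D.name x) ↔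
    ∀ i < m + n, D.sys.sl i x = 0 → 0 ≤ D.sys.ln i z := by
  unfold Cone
  rw [Set.mem_ofPred_eq, D.gen_len]
  refine forall_congr' fun i => forall_congr' fun hi => ?_
  rw [D.getD_name x hi, D.rdot_gen hi, mul_nonneg_iff_of_pos_left (sc_pos D.A i)]

/-- the cone of a vertex is pointed -/
theorem cone_pointed (hx : D.Vertex x) (q : Fin n → ℝ)
    (h : ∀ i < D.gen.length, (D.name x).getD i false = true →
      rdot n (D.gen.getD i []) q = 0) : q = 0 := by
  refine hx.vx q fun i hi h0 => ?_
  have h1 := h i (by rw [D.gen_len]; exact hi) ((D.getD_name x hi).2 h0)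
  rw [D.rdot_gen hi] at h1
  exact (mul_eq_zero.1 h1).resolve_left (sc_pos D.A i).ne'

/-- the polyhedron is contained in the translated cone -/
theorem sub_mem_cone (hy : y ∈ D.feasible) : y - x ∈ Cone n D.gen (D.name x) := by
  rw [mem_cone]
  intro i hi h0
  rw [D.sys.ln_sub, h0, sub_zero]
  exact (Sys.mem_P _).1 (D.mem_P.2 hy) i hi

/-- a picked direction is the direction of an edge -/
theorem Picked.dir (hx : D.Vertex x) (h : Picked n D.gen (D.name x) s c T z) :
    D.sys.Dir (m + n) x z ∧ D.edgeName x z = T := by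
  have htight : ∀ i < m + n, T.getD i false = true ↔ D.sys.sl i x = 0 ∧ D.sys.ln i z = 0 := by
    intro i hi
    rw [h.tight i (by rw [D.gen_len]; exact hi), D.getD_name x hi, D.rdot_gen hi,
      mul_eq_zero, or_iff_right (sc_pos D.A i).ne']
  refine ⟨⟨mem_cone.1 h.cone, ?_, fun i hi => (D.sys.mem_T.1 hi).2.2, fun q hq => ?_⟩, ?_⟩
  · rintro rfl
    have h1 := h.one
    unfold rdot at h1
    simp at h1
  · refine h.line q fun i hi hT => ?_
    rw [D.gen_len] at hi
    obtain ⟨h1, h2⟩ := (htight i hi).1 hT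
    rw [D.rdot_gen hi, hq i (D.sys.mem_T.2 ⟨hi, h1, h2⟩), mul_zero]
  · have hlen : T.length = m + n := by rw [h.len, D.gen_len]
    apply List.ext_getElem
    · rw [D.length_edgeName, hlen]
    · intro i h1 h2
      have hi : i < m + n := by rw [← hlen]; exact h2
      rw [← List.getD_eq_getElem _ false h1, ← List.getD_eq_getElem _ false h2, Bool.eq_iff_iff,
        D.getD_edgeName x z hi, htight i hi]

/-- an edge with the name of a picked direction has this direction -/
theorem Picked.eq_smul (hx : D.Vertex x) (h : Picked n D.gen (D.name x) s c T z)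
    (hxy : D.Edge x y) (hT : D.edgeName x (y - x) = T) : ∃ t : ℝ, 0 < t ∧ y - x = t • z := by
  obtain ⟨h1, h2⟩ := h.dir hx
  exact hx.dir_inj h1 (D.edge_iff.1 hxy).2.2.2 (h2.trans hT.symm)

/-- At the other end of a picked edge the ratio is bounded by the same number: `y` is optimal for
`c - β s`, `β = c z`. For `z'` in the cone of `y`, the point `y + ε z'` is feasible for some
`ε > 0` (`D.sys.pert_P`), so `(y + ε z') - x` is in the cone of `x`. -/
theorem Picked.next (hx : D.Vertex x) (h : Picked n D.gen (D.name x) s c T z)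
    (hxy : D.Edge x y) (hT : D.edgeName x (y - x) = T) :
    ∀ z' ∈ Cone n D.gen (D.name y), rdot n c z' ≤ rdot n c z * rdot n s z' := by
  intro z' hz'
  obtain ⟨t, ht, h1⟩ := h.eq_smul hx hxy hT
  have hy : D.Vertex y := (D.edge_iff.1 hxy).2.1
  obtain ⟨e, he, h2⟩ := D.sys.pert_P hy.mem (mem_cone.1 hz')
  have h3 : y + e • z' - x ∈ Cone n D.gen (D.name x) :=
    sub_mem_cone (D.mem_P.1 (h2 e he.le le_rfl))
  have h4 : y + e • z' - x = t • z + e • z' := by rw [← h1]; abel
  rw [h4] at h3
  have h5 := h.max _ h3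
  rw [stp_rdot_add, stp_rdot_add, stp_rdot_smul, stp_rdot_smul, stp_rdot_smul, stp_rdot_smul,
    h.one] at h5
  have h6 : e * rdot n c z' ≤ e * (rdot n c z * rdot n s z') := by
    have e1 : rdot n c z * (t * 1 + e * rdot n s z') =
        t * rdot n c z + e * (rdot n c z * rdot n s z') := by ring
    rw [e1] at h5
    linarith
  exact le_of_mul_le_mul_left h6 he

end Pool.Agent.Simplex.EB
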