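import Pool.Agent.Lib.MP_4d246d_lc.CR.Def
import Pool.Agent.Lib.MP_4d246d_lc.CR.Step
import Pool.Agent.Lib.MP_4d246d_lc.CR.StatementC

/-!
# The rule of the largest ratio: weights

The weights at a vertex `x` are `s z = L ∑ ln_i z`, summed over the tight constraints `i`; `L > 0`
is the common denominator of the matrix.
-/

open Finset

namespace Pool.Agent.Simplex.EB

open Pool.Agent.Lib.PolyTime Pool.Agent.Simplex.QP

/-- the common denominator of the matrix -/
def kmL (X : Mat) : ℤ := denZ X.2.flatten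

/-- the weights -/
def kmW (X : Mat) (S : List Bool) : List ℤ :=
  (List.range X.1).map fun j =>
    ((List.range X.2.length).map fun i =>
      if S.getD i false then - (clr (kmL X) (X.2.getD i [])).getD j 0 else 0).sum +
    if S.getD (X.2.length + j) false then kmL X else 0

/-- the rule of the largest ratio -/
def kmRule : CRule := fun x => pickZ x.1.1 (genM x.1) x.2.2.2 (kmW x.1 x.2.2.2) x.2.1

variable {m n : ℕ} {D : RLP m n} {x : Fin n → ℝ}

theorem kmL_pos (X : Mat) : 0 < kmL X := denZ_pos _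

private theorem kmd_sum_range {R : Type} [AddCommMonoid R] (f : ℕ → R) (k : ℕ) :
    ((List.range k).map f).sum = ∑ i ∈ range k, f i := by
  induction k with
  | zero => simp
  | succ k ih =>
    rw [List.range_succ, List.map_append, List.sum_append, ih, Finset.sum_range_succ]
    simp

private theorem kmd_row {i : ℕ} (hi : i < m) : D.mat.2.getD i [] = List.ofFn (D.A ⟨i, hi⟩) := by
  unfold RLP.mat
  rw [List.getD_eq_getElem _ _ (by simpa using hi)]
  simp

private theorem kmd_len : D.mat.2.length = m := by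
  simp [RLP.mat]

private theorem kmd_dvd (i : Fin m) (j : Fin n) : ((D.A i j).den : ℤ) ∣ kmL D.mat := by
  apply den_dvd
  rw [List.mem_flatten]
  exact ⟨List.ofFn (D.A i), List.mem_ofFn.2 ⟨i, rfl⟩, List.mem_ofFn.2 ⟨j, rfl⟩⟩

open Classical in
private theorem kmd_coeff (j : Fin n) : (((kmW D.mat (D.name x)).getD j 0 : ℤ) : ℝ) =
    (∑ i : Fin m, if D.sys.sl i x = 0 then -((kmL D.mat : ℝ) * (D.A i j : ℝ)) else 0) +
      if D.sys.sl (m + j) x = 0 then (kmL D.mat : ℝ) else 0 := by
  have h0 : D.mat.1 = n := rfl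
  unfold kmW
  rw [h0, getD_map_range, if_pos j.2, kmd_sum_range, kmd_len]
  push_cast
  congr 1
  · rw [Finset.sum_range]
    refine Finset.sum_congr rfl fun i _ => ?_
    have h1 : ((D.name x).getD (i : ℕ) false = true) ↔ D.sys.sl i x = 0 :=
      D.getD_name x (by omega)
    by_cases h : D.sys.sl i x = 0
    · rw [if_pos (h1.2 h), if_pos h, kmd_row i.2, ← getD_clr (D.A i) (kmd_dvd i) j]
    · rw [if_neg (fun h' => h (h1.1 h')), if_neg h]
  · have h1 : ((D.name x).getD (m + j) false = true) ↔ D.sys.sl (m + j) x = 0 :=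
      D.getD_name x (by omega)
    by_cases h : D.sys.sl (m + j) x = 0
    · rw [if_pos (h1.2 h), if_pos h]
    · rw [if_neg (fun h' => h (h1.1 h')), if_neg h]

open Classical in
/-- the weights of the name of `x` (`clr_val`, `den_dvd`, `rdot_clr`, `lnA_row`, `lnA_var`) -/
theorem rdot_kmW (z : Fin n → ℝ) : rdot n (kmW D.mat (D.name x)) z =
    (kmL D.mat : ℝ) * ∑ i ∈ range (m + n), if D.sys.sl i x = 0 then D.sys.ln i z else 0 := by
  unfold rdot
  simp_rw [kmd_coeff, add_mul, Finset.sum_add_distrib, Finset.sum_mul]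
  rw [Finset.sum_comm, Finset.sum_range_add, mul_add, Finset.mul_sum, Finset.mul_sum,
    Finset.sum_range, Finset.sum_range]
  congr 1
  · refine Finset.sum_congr rfl fun i _ => ?_
    by_cases h : D.sys.sl i x = 0
    · simp only [if_pos h]
      rw [D.sys_ln, lnA_row, mul_neg, Finset.mul_sum, ← Finset.sum_neg_distrib]
      refine Finset.sum_congr rfl fun j _ => ?_
      ring
    · simp only [if_neg h, zero_mul, Finset.sum_const_zero, mul_zero]
  · refine Finset.sum_congr rfl fun j _ => ?_
    by_cases h : D.sys.sl (m + j) x = 0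
    · simp only [if_pos h]
      rw [D.sys_ln, lnA_var]
    · simp only [if_neg h, zero_mul, mul_zero]

/-- At a vertex the ratio is bounded: `c` is a linear combination `∑ μ_i ln_i` over the tight
constraints, because these have no common kernel; so `c z ≤ (max |μ_i|) ∑ ln_i z` on the cone. -/
theorem km_bdd (hx : D.Vertex x) (c : List ℤ) : ∃ lam : ℝ, 0 ≤ lam ∧
    ∀ z ∈ Cone n D.gen (D.name x), rdot n c z ≤ lam * rdot n (kmW D.mat (D.name x)) z := by
  classical
  set K : (Fin n → ℝ) →ₗ[ℝ] ℝ := ∑ j : Fin n, ((c.getD j 0 : ℤ) : ℝ) • LinearMap.proj j with hK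
  have hKz : ∀ z, K z = rdot n c z := by
    intro z
    rw [hK]
    simp [LinearMap.sum_apply, rdot]
  set L : Fin (m + n) → ((Fin n → ℝ) →ₗ[ℝ] ℝ) := fun i =>
    if D.sys.sl i x = 0 then D.sys.ln i else 0 with hL
  have hLz : ∀ i z, L i z = if D.sys.sl i x = 0 then D.sys.ln i z else 0 := by
    intro i z
    rw [hL]
    dsimp only
    split_ifs <;> simp
  have hmem : K ∈ Submodule.span ℝ (Set.range L) := by
    apply mem_span_of_iInf_ker_le_ker
    intro q hq
    rw [Submodule.mem_iInf] at hq
    have h0 : q = 0 := by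
      apply hx.vx
      intro i hi h1
      have h2 := hq ⟨i, hi⟩
      rw [LinearMap.mem_ker, hLz] at h2
      dsimp only at h2
      rwa [if_pos h1] at h2
    rw [h0]
    exact Submodule.zero_mem _
  rw [Submodule.mem_span_range_iff_exists_fun] at hmem
  obtain ⟨μ, hμ⟩ := hmem
  have hLp : (0 : ℝ) < kmL D.mat := by exact_mod_cast kmL_pos _
  refine ⟨(∑ i, |μ i|) / kmL D.mat, by positivity, fun z hz => ?_⟩
  have hz' := mem_cone.1 hz
  have hnn : ∀ i : Fin (m + n), 0 ≤ (if D.sys.sl i x = 0 then D.sys.ln i z else 0) := by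
    intro i
    by_cases h : D.sys.sl i x = 0
    · rw [if_pos h]
      exact hz' i i.2 h
    · rw [if_neg h]
  rw [rdot_kmW, ← hKz, ← hμ, Finset.sum_range]
  have e1 : (∑ i, μ i • L i) z = ∑ i, μ i * (if D.sys.sl i x = 0 then D.sys.ln i z else 0) := by
    rw [LinearMap.sum_apply]
    refine Finset.sum_congr rfl fun i _ => ?_
    rw [LinearMap.smul_apply, smul_eq_mul, hLz]
  rw [e1, ← mul_assoc, div_mul_cancel₀ _ hLp.ne', Finset.mul_sum]
  refine Finset.sum_le_sum fun i _ => mul_le_mul_of_nonneg_right ?_ (hnn i)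
  exact (le_abs_self _).trans (Finset.single_le_sum (f := fun i => |μ i|)
    (fun i _ => abs_nonneg _) (Finset.mem_univ i))

end Pool.Agent.Simplex.EB
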