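import Pool.Agent.Lib.MP_4d246d_lc.CR.Def
import Pool.Agent.Lib.MP_4d246d_lc.CR.Step
import Pool.Agent.Lib.MP_4d246d_lc.CR.StatementC

/-!
# The shadow rule on 0/1 polytopes

The weights are `s_j = 1` if the start has `x₀_j = 0`, and `s_j = -1` otherwise; on the cube
`s (x - x₀) = ∑ |x_j - x₀_j|`. The rule picks the edge with the largest ratio `c z / s z`.

Invariant of `Reach zoRule D c x₀ t x`: `x` is a vertex, `t ≤ s (x - x₀)`, and there is `lam ≥ 0` with
`c z ≤ lam (s z)` for all `z` in the cone of `x`. At the start: `z_j ≥ 0` if `x₀_j = 0`; if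
`x₀_j = 1` then `z_j ≤ 0`, because `x₀ + ε z` is feasible for some `ε > 0` and `x_j ≤ 1` on the
polytope; so `s z = ∑ |z_j|`, `lam = ∑ |c_j|`. Step: `Picked.next`, `Picked.eq_smul`: `y - x = τ z`,
`s (y - x) = τ > 0`, and `s (y - x₀)`, `s (x - x₀)` are integers. As `s (x - x₀) ≤ n`, `t ≤ n`.
-/

namespace Pool.Agent.Simplex.EB

open Pool.Agent.Lib.PolyTime Pool.Agent.Simplex.QP

/-- the weights -/
def zoW (X : Mat) (S : List Bool) : List ℤ :=
  (List.range X.1).map fun j => if S.getD (X.2.length + j) false then 1 else -1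

/-- the shadow rule -/
def zoRule : CRule := fun x => pickZ x.1.1 (genM x.1) x.2.2.2 (zoW x.1 x.2.2.1) x.2.1

/-- the coefficients of the weights -/
private noncomputable def zoc {n : ℕ} (x₀ : Fin n → ℝ) (j : Fin n) : ℝ :=
  open Classical in if x₀ j = 0 then 1 else -1

private theorem rdot_zoW {m n : ℕ} {D : RLP m n} (x₀ z : Fin n → ℝ) :
    rdot n (zoW D.mat (D.name x₀)) z = ∑ j, zoc x₀ j * z j := by
  classical
  unfold rdot
  refine Finset.sum_congr rfl fun j _ => ?_
  congr 1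
  have h0 : D.mat.1 = n := rfl
  have h1 : D.mat.2.length = m := by simp [RLP.mat]
  unfold zoW zoc
  rw [h0, List.getD_eq_getElem _ _ (by simp), List.getElem_map, List.getElem_range, h1]
  have h2 : ((D.name x₀).getD (m + j) false = true) ↔ x₀ j = 0 := by
    rw [D.getD_name x₀ (by omega), D.sl_var]
  by_cases h : x₀ j = 0
  · rw [if_pos (h2.2 h), if_pos h]; norm_num
  · rw [if_neg (fun h' => h (h2.1 h')), if_neg h]; norm_num

/-- the invariant -/
private theorem zo_inv {m n : ℕ} {D : RLP m n} (hD : D.ZeroOne) {c : List ℤ} {x₀ : Fin n → ℝ}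
    (hx₀ : D.Vertex x₀) {t : ℕ} {x : Fin n → ℝ} (hr : Reach zoRule D c x₀ t x) :
    (∃ lam : ℝ, 0 ≤ lam ∧ ∀ z ∈ Cone n D.gen (D.name x),
      rdot n c z ≤ lam * rdot n (zoW D.mat (D.name x₀)) z) ∧
    (t : ℝ) ≤ ∑ j, zoc x₀ j * (x j - x₀ j) := by
  classical
  induction hr with
  | start =>
    refine ⟨⟨∑ j : Fin n, |((c.getD j 0 : ℤ) : ℝ)|, Finset.sum_nonneg fun j _ => abs_nonneg _,
      fun z hz => ?_⟩, by simp⟩
    rw [mem_cone] at hz
    obtain ⟨ε, hε, h1⟩ := D.sys.pert_P hx₀.mem hz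
    have h2 : x₀ + ε • z ∈ D.feasible := D.mem_P.1 (h1 ε hε.le le_rfl)
    have h3 : ∀ j, zoc x₀ j * z j = |z j| := by
      intro j
      have h4 := hD.1 _ h2 j
      have h5 := h2.2 j
      simp only [Pi.add_apply, Pi.smul_apply, smul_eq_mul] at h4 h5
      unfold zoc
      rcases hD.2 _ hx₀ j with h | h
      · rw [if_pos h, one_mul]
        rw [h, zero_add] at h5
        rw [abs_of_nonneg (nonneg_of_mul_nonneg_right h5 hε)]
      · rw [if_neg (by rw [h]; norm_num)]
        rw [h] at h4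
        have h6 : ε * z j ≤ 0 := by linarith
        have h7 : z j ≤ 0 := by
          by_contra h8
          have := mul_pos hε (not_le.1 h8)
          linarith
        rw [abs_of_nonpos h7]
        ring
    rw [rdot_zoW, Finset.sum_congr rfl fun j _ => h3 j]
    unfold rdot
    rw [Finset.sum_mul]
    refine Finset.sum_le_sum fun j hj => ?_
    calc ((c.getD j 0 : ℤ) : ℝ) * z j ≤ |((c.getD j 0 : ℤ) : ℝ) * z j| := le_abs_self _
      _ = |((c.getD j 0 : ℤ) : ℝ)| * |z j| := abs_mul _ _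
      _ ≤ |((c.getD j 0 : ℤ) : ℝ)| * ∑ k, |z k| :=
        mul_le_mul_of_nonneg_left
          (Finset.single_le_sum (f := fun k => |z k|) (fun k _ => abs_nonneg _) hj)
          (abs_nonneg _)
  | @step t x y hr hxy hk ih =>
    obtain ⟨hb, ht⟩ := ih
    have hx : D.Vertex x := hr.vertex hx₀
    have hk' : pickZ n D.gen (D.name x) (zoW D.mat (D.name x₀)) c =
        some (D.edgeName x (y - x)) := hk
    obtain ⟨z, hz⟩ := (pickZ_spec (cone_pointed hx) hb).2 _ hk'
    refine ⟨⟨rdot n c z, hz.pos.le, hz.next hx hxy rfl⟩, ?_⟩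
    obtain ⟨τ, hτ, h1⟩ := hz.eq_smul hx hxy rfl
    have h2 : ∑ j, zoc x₀ j * z j = 1 := by
      rw [← rdot_zoW (D := D)]
      exact hz.one
    have h3 : ∑ j, zoc x₀ j * (y j - x₀ j) = ∑ j, zoc x₀ j * (x j - x₀ j) + τ := by
      have h4 : ∀ j, zoc x₀ j * (y j - x₀ j) = zoc x₀ j * (x j - x₀ j) + τ * (zoc x₀ j * z j) := by
        intro j
        have h5 : y j - x j = τ * z j := by
          have := congrFun h1 j
          simpa using this
        have h6 : y j = x j + τ * z j := by linarith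
        rw [h6]
        ring
      rw [Finset.sum_congr rfl fun j _ => h4 j, Finset.sum_add_distrib, ← Finset.mul_sum, h2,
        mul_one]
    have hint : ∀ w : Fin n → ℝ, D.Vertex w → ∃ k : ℤ, ∑ j, zoc x₀ j * (w j - x₀ j) = k := by
      intro w hw
      have h4 : ∀ j, ∃ k : ℤ, zoc x₀ j * (w j - x₀ j) = k := by
        intro j
        unfold zoc
        rcases hD.2 _ hw j with h | h <;> rcases hD.2 _ hx₀ j with h' | h'
        · exact ⟨0, by rw [h, h']; simp⟩
        · exact ⟨1, by rw [h, h']; simp⟩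
        · exact ⟨1, by rw [h, h']; simp⟩
        · exact ⟨0, by rw [h, h']; simp⟩
      choose k hk using h4
      exact ⟨∑ j, k j, by push_cast; exact Finset.sum_congr rfl fun j _ => hk j⟩
    obtain ⟨a, ha⟩ := hint x hx
    obtain ⟨b, hb'⟩ := hint y hxy.2.1
    rw [h3, ha] at hb'
    rw [ha] at ht
    rw [h3, ha, hb']
    have h4 : (a : ℝ) < b := by linarith
    have h5 : a + 1 ≤ b := by
      have : a < b := by exact_mod_cast h4
      omega
    have h6 : (a : ℝ) + 1 ≤ b := by exact_mod_cast h5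
    push_cast
    linarith

theorem zo_good {m n : ℕ} {D : RLP m n} (hD : D.ZeroOne) : CGood zoRule D n := by
  classical
  intro c _ x₀ hx₀ t x hr
  have hx : D.Vertex x := hr.vertex hx₀
  obtain ⟨hb, ht⟩ := zo_inv hD hx₀ hr
  have hspec := pickZ_spec (cone_pointed hx) hb
  refine ⟨?_, ?_, ?_⟩
  · have h1 : ∑ j, zoc x₀ j * (x j - x₀ j) ≤ ∑ j : Fin n, (1 : ℝ) := by
      refine Finset.sum_le_sum fun j _ => ?_
      unfold zoc
      rcases hD.2 _ hx j with h | h <;> rcases hD.2 _ hx₀ j with h' | h' <;>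
        rw [h, h'] <;> simp
    have h2 : (t : ℝ) ≤ n := by
      refine ht.trans (h1.trans (le_of_eq ?_))
      simp
    exact_mod_cast h2
  · intro T hT
    obtain ⟨z, hz⟩ := hspec.2 T hT
    obtain ⟨h1, h2⟩ := hz.dir hx
    exact ⟨z, h1, h2, hz.pos⟩
  · intro hT z hz
    exact hspec.1 hT z (mem_cone.2 hz.1)

end Pool.Agent.Simplex.EB
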