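import Pool.Agent.Lib.MP_4d246d_lc.CR.PickPoly
import Pool.Agent.Lib.MP_4d246d_lc.CR.Zo
import Pool.Agent.Lib.MP_4d246d_lc.CR.KmDef

/-!
# The two rules are computed in polynomial time
-/

namespace Pool.Agent.Simplex.EB

open Pool.Agent.Lib.PolyTime Pool.Agent.Simplex.QP

section Weights

variable {α : Type*} [TEnc α] {X : α → Mat} {S : α → List Bool}

theorem polyF_zoW (hX : PolyF X) (hS : PolyF S) : PolyF (fun a => zoW (X a) (S a)) := by
  refine hX.fst.range.map
    (h := fun a j => if (S a).getD ((X a).2.length + j) false then (1 : ℤ) else -1) ?_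
  have hX1 : PolyF (fun p : α × ℕ => X p.1) := hX.comp PolyF.fst'
  have hS1 : PolyF (fun p : α × ℕ => S p.1) := hS.comp PolyF.fst'
  exact PolyF.iteBool
    (hS1.getDL (hX1.snd.length.natAdd PolyF.snd') (PolyF.const false)) (PolyF.const 1)
    (PolyF.const (-1))

theorem polyF_kmL (hX : PolyF X) : PolyF (fun a => kmL (X a)) :=
  PolyF.denZ hX.snd.flatten

theorem polyF_kmW (hX : PolyF X) (hS : PolyF S) : PolyF (fun a => kmW (X a) (S a)) := by
  refine hX.fst.range.map
    (h := fun a j => ((List.range (X a).2.length).map fun i =>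
        if (S a).getD i false then - (clr (kmL (X a)) ((X a).2.getD i [])).getD j 0 else 0).sum +
      if (S a).getD ((X a).2.length + j) false then kmL (X a) else 0) ?_
  have hX1 : PolyF (fun p : α × ℕ => X p.1) := hX.comp PolyF.fst'
  have hS1 : PolyF (fun p : α × ℕ => S p.1) := hS.comp PolyF.fst'
  have hX2 : PolyF (fun q : (α × ℕ) × ℕ => X q.1.1) := hX1.comp PolyF.fst'
  have hS2 : PolyF (fun q : (α × ℕ) × ℕ => S q.1.1) := hS1.comp PolyF.fst'
  refine PolyF.intAdd (PolyF.intSum (hX1.snd.length.range.map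
    (h := fun (p : α × ℕ) (i : ℕ) => if (S p.1).getD i false then
      - (clr (kmL (X p.1)) ((X p.1).2.getD i [])).getD p.2 0 else 0) ?_)) ?_
  · exact PolyF.iteBool (hS2.getDL PolyF.snd' (PolyF.const false))
      (((PolyF.clr (polyF_kmL hX2) (hX2.snd.getDL PolyF.snd' (PolyF.const []))).getDL
        PolyF.fst'.snd (PolyF.const 0)).intNeg) (PolyF.const 0)
  · exact PolyF.iteBool
      (hS1.getDL (hX1.snd.length.natAdd PolyF.snd') (PolyF.const false)) (polyF_kmL hX1)
      (PolyF.const 0)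

end Weights

theorem polyF_zoRule : PolyF zoRule :=
  polyF_pickZ PolyF.fst'.fst (polyF_genM PolyF.fst') PolyF.snd'.snd.snd
    (polyF_zoW PolyF.fst' PolyF.snd'.snd.fst) PolyF.snd'.fst

theorem polyF_kmRule : PolyF kmRule :=
  polyF_pickZ PolyF.fst'.fst (polyF_genM PolyF.fst') PolyF.snd'.snd.snd
    (polyF_kmW PolyF.fst' PolyF.snd'.snd.snd) PolyF.snd'.fst

end Pool.Agent.Simplex.EB
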