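import Pool.Agent.Lib.MP_4d246d_lc.CR.Blind
import Pool.Agent.Lib.MP_4d246d_lc.CR.RulesPoly
import Pool.Agent.Lib.MP_4d246d_lc.CR.Km
import Pool.Agent.Lib.MP_4d246d_lc.EB.Opt3

/-!
# The optimal blind rule on 0/1 polytopes and on programs with bounded ratio of slacks
-/

namespace Pool.Agent.Simplex.EB

open Pool.Agent.Lib.PolyTime Pool.Agent.Simplex.QP

/-- the number of constraints is bounded by the size of the matrix -/
theorem dims_le_size {m n : ℕ} (D : RLP m n) : m + n ≤ D.size := by
  have h1 := dims_le D.mat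
  have h2 : D.size = 2 * sz D.mat + 1 := length_wd _ _ _
  have h3 : D.mat.2.length = m := by simp [RLP.mat]
  have h4 : D.mat.1 = n := rfl
  omega

/-- **The optimal blind rule is polynomial on 0/1 polytopes.** -/
theorem Optimal.zeroOne {U : BlindRule} (hU : Optimal U) : ∃ P : Polynomial ℕ,
    ∀ (m n : ℕ) (D : RLP m n), D.ZeroOne → Solves U D (P.eval D.size) := by
  obtain ⟨ρ, P, hρ, hP⟩ := blind_of_crule polyF_zoRule
  obtain ⟨Q, hQ⟩ := hU ρ hρ.tm2_word
  refine ⟨Q.comp (Polynomial.X + P * (Polynomial.X + 1)), fun m n D hD => ?_⟩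
  refine (hQ _ _ _ _ (hP m n D n (zo_good hD))).mono ?_
  rw [Polynomial.eval_comp]
  refine peval_mono Q ?_
  simp only [Polynomial.eval_add, Polynomial.eval_mul, Polynomial.eval_X, Polynomial.eval_one]
  have h1 := dims_le_size D
  exact Nat.add_le_add_left (Nat.mul_le_mul_left _ (by omega)) _

/-- **The optimal blind rule is polynomial in the size of the matrix and the ratio of the slacks
of the vertices.** -/
theorem Optimal.ratio {U : BlindRule} (hU : Optimal U) : ∃ P : Polynomial ℕ,
    ∀ (m n : ℕ) (D : RLP m n) (k : ℕ), D.Ratio k → Solves U D (P.eval (D.size + k)) := by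
  obtain ⟨ρ, P, hρ, hP⟩ := blind_of_crule polyF_kmRule
  obtain ⟨Q, hQ⟩ := hU ρ hρ.tm2_word
  refine ⟨Q.comp (Polynomial.X + P * (Polynomial.X * (Polynomial.X ^ 2 + 1) ^ 2 + 1)),
    fun m n D k hD => ?_⟩
  refine (hQ _ _ _ _ (hP m n D _ (km_good hD))).mono ?_
  rw [Polynomial.eval_comp]
  refine peval_mono Q ?_
  simp only [Polynomial.eval_add, Polynomial.eval_mul, Polynomial.eval_X, Polynomial.eval_one,
    Polynomial.eval_pow]
  have h1 := dims_le_size D
  have h2 : (m + n) * k ≤ (D.size + k) ^ 2 := by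
    rw [pow_two]
    exact Nat.mul_le_mul (by omega) (by omega)
  have h3 : P.eval D.size ≤ P.eval (D.size + k) := peval_mono P (by omega)
  refine Nat.add_le_add (by omega) (Nat.mul_le_mul h3 ?_)
  refine Nat.add_le_add_right (Nat.mul_le_mul (by omega) ?_) _
  exact Nat.pow_le_pow_left (by omega) 2

end Pool.Agent.Simplex.EB
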