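import Pool.Agent.Lib.MP_4d246d_lc.CR.Def

/-!
# Blind rules from rules that see the objective: the number of answers

Invariant of a play with answers `h` at the vertex `x`, state `s`: the name in `s.2.2` is the name
of `x`; all facts are good (`GoodF n (bits e D.mat) f`) and hold for `D.c`; they form an `MChain`;
there are a vertex `x₁` with the name `s.2.1` and a number `t` with
`Reach κ D (gc e D.mat s.1) x₁ t x` and `h.length ≤ s.1.length * (K + 1) + t`.

* moved: one more step of `Reach`.
* refused, proposal `T`: `CGood` gives `z` with `Dir x z`, `edgeName x z = T`, `0 < rdot n c z`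
  (`meet (name x) T = T`). If `0 < D.obj z`, then `hx.dir_cases` gives a ray or a neighbour
  `x + t • z`, and the proposal would not have been refused. So `D.obj z ≤ 0`, and the fact
  `(false, negZ (dirZ ..))` holds for `D.c` and is violated by the guess
  (`RLP.obj_nonpos_iff`, for `D` and for `{D with c := realZ n (gc ..)}`).
* refused, no proposal: the edge `x y` shown by the adversary increases the objective, and
  `rdot n c (y - x) ≤ 0` by `CGood` (`RLP.obj_pos_iff`, `D.edgeName_sub`).
The number of facts is smaller than `fuel e D.mat` (`chain_lt_fuel`, as in `EB/BSim.lean`).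
-/

namespace Pool.Agent.Simplex.EB

open Pool.Agent.Lib.PolyTime Pool.Agent.Simplex.QP Pool.Agent.Lib.MP_4d246d_lc.EB

private theorem cinv_meet {m n : ℕ} (D : RLP m n) (x z : Fin n → ℝ) :
    meet (D.name x) (D.edgeName x z) = D.edgeName x z := by
  classical
  unfold meet
  rw [D.edgeName_eq, D.name_eq, List.zipWith_map, List.zipWith_self]
  refine List.map_congr_left fun i _ => ?_
  by_cases h1 : D.sys.sl i x = 0 <;> by_cases h2 : D.sys.ln i z = 0 <;> simp [h1, h2]

/-- the program with a guessed objective -/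
private noncomputable def cg {m n : ℕ} (D : RLP m n) (c : List ℤ) : RLP m n :=
  { D with c := realZ n c }

private theorem cg_obj {m n : ℕ} (D : RLP m n) (c : List ℤ) (z : Fin n → ℝ) :
    (cg D c).obj z = rdot n c z := by
  unfold RLP.obj cg rdot realZ
  rfl

private theorem cinv_viol {m n : ℕ} {D : RLP m n} {c : List ℤ} {f : Fact}
    (hf : f.2.length = n) (h : ¬ Holds n (cg D c).c f) : viol f c = true := by
  rw [← Bool.not_eq_false]
  exact fun h1 => h ((viol_iff hf c).1 h1)

/-- the invariant -/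
private structure CInv (κ : CRule) (e : ℕ) {m n : ℕ} (D : RLP m n) (K : ℕ) (h : List Answer)
    (x : Fin n → ℝ) (s : CSt) : Prop where
  vert : D.Vertex x
  name : s.2.2 = D.name x
  good : ∀ f ∈ s.1, GoodF n (bits e D.mat) f ∧ Holds n D.c f
  chain : MChain (gc e D.mat) s.1
  run : ∃ (x₁ : Fin n → ℝ) (t : ℕ), D.Vertex x₁ ∧ s.2.1 = D.name x₁ ∧
    Reach κ D (gc e D.mat s.1) x₁ t x ∧ h.length ≤ s.1.length * (K + 1) + t

private theorem cinv_gc_len {e m n : ℕ} {D : RLP m n} (H : List Fact) :
    (gc e D.mat H).length = n := by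
  unfold gc
  rw [length_learnerGuess]
  rfl

private theorem cinv_moved {κ : CRule} {e : ℕ} {m n : ℕ} {D : RLP m n} {K : ℕ}
    {h : List Answer} {x y : Fin n → ℝ} {s : CSt} (hI : CInv κ e D K h x s)
    (hxy : D.Improving x y) (hr : ctarget κ e D.mat s = some (D.edgeName x (y - x))) :
    CInv κ e D K (h ++ [.moved (D.name y)]) y (cupd κ e D.mat s (.moved (D.name y))) := by
  obtain ⟨x₁, t, h1, h2, h3, h4⟩ := hI.run
  refine ⟨hxy.1.2.1, rfl, hI.good, hI.chain, x₁, t + 1, h1, h2, ?_, ?_⟩
  · refine Reach.step h3 hxy.1 ?_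
    unfold ctarget at hr
    rw [← h2, ← hI.name]
    exact hr
  · rw [List.length_append, List.length_singleton]
    show _ ≤ s.1.length * (K + 1) + (t + 1)
    omega

private theorem cinv_restart {κ : CRule} {e : ℕ} {m n : ℕ} {D : RLP m n} {K : ℕ}
    (hg : CGood κ D K)
    {h : List Answer} {x : Fin n → ℝ} {s : CSt} (hI : CInv κ e D K h x s) (a : Answer) (f : Fact)
    (h1 : GoodF n (bits e D.mat) f) (h2 : Holds n D.c f)
    (h3 : ¬ Holds n (cg D (gc e D.mat s.1)).c f) :
    CInv κ e D K (h ++ [a]) x (s.1 ++ [f], s.2.2, s.2.2) := by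
  obtain ⟨x₁, t, g1, g2, g3, g4⟩ := hI.run
  have ht := (hg (gc e D.mat s.1) (cinv_gc_len _) x₁ g1 t x g3).1
  refine ⟨hI.vert, hI.name, fun f' hf' => ?_, mchain_append hI.chain (cinv_viol h1.1 h3),
    x, 0, hI.vert, hI.name, Reach.start, ?_⟩
  · rcases List.mem_append.1 hf' with h5 | h5
    · exact hI.good f' h5
    · rw [List.mem_singleton.1 h5]
      exact ⟨h1, h2⟩
  · show (h ++ [a]).length ≤ (s.1 ++ [f]).length * (K + 1) + 0
    rw [List.length_append, List.length_singleton, List.length_append, List.length_singleton]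
    have h8 : (s.1.length + 1) * (K + 1) = s.1.length * (K + 1) + (K + 1) := by ring
    omega

private theorem cinv_refused {κ : CRule} {e : ℕ} {m n : ℕ} {D : RLP m n} {K : ℕ}
    (hS : Small e D.mat) (hg : CGood κ D K)
    {h : List Answer} {x y : Fin n → ℝ} {s : CSt} (hI : CInv κ e D K h x s)
    (hxy : D.Improving x y)
    (h1 : ∀ w, D.Improving x w → ctarget κ e D.mat s ≠ some (D.edgeName x (w - x)))
    (h2 : ∀ z, 0 < D.obj z → D.Ray x z → ctarget κ e D.mat s ≠ some (D.edgeName x z)) :
    CInv κ e D K (h ++ [.refused (D.name y)]) x (cupd κ e D.mat s (.refused (D.name y))) := by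
  have hx := hI.vert
  obtain ⟨x₁, t, g1, g2, g3, g4⟩ := hI.run
  obtain ⟨-, c1, c2⟩ := hg (gc e D.mat s.1) (cinv_gc_len _) x₁ g1 t x g3
  have hlenx : (D.name x).length = (genM D.mat).length := by
    rw [RLP.length_name]; exact (D.gen_len).symm
  have hlene : ∀ z, (D.edgeName x z).length = (genM D.mat).length := by
    intro z
    rw [RLP.length_edgeName]; exact (D.gen_len).symm
  have hct : ctarget κ e D.mat s = κ (D.mat, gc e D.mat s.1, D.name x₁, D.name x) := by
    unfold ctarget
    rw [g2, hI.name]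
  rcases hT : ctarget κ e D.mat s with _ | T
  · have hu : cupd κ e D.mat s (.refused (D.name y)) =
        (s.1 ++ [(true, dirZ n D.gen (D.name x) (D.edgeName x (y - x)))], s.2.2, s.2.2) := by
      unfold cupd
      simp only [hT, hI.name]
      rw [D.edgeName_sub]
      rfl
    rw [hu]
    have hd := (D.edge_iff.1 hxy.1).2.2.2
    have h5 := c2 (by rw [← hct, hT]) (y - x) hd
    refine cinv_restart hg hI _ _ (hS.2 _ _ hlenx (hlene _) true).1 ?_ ?_
    · rw [RLP.obj_pos_iff (D' := D) hx hd, RLP.obj_sub]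
      linarith [hxy.2]
    · rw [RLP.obj_pos_iff (D' := cg D (gc e D.mat s.1)) hx hd, cg_obj]
      exact not_lt.2 h5
  · obtain ⟨z, hz, hzT, hpos⟩ := c1 T (by rw [← hct, hT])
    have hu : cupd κ e D.mat s (.refused (D.name y)) =
        (s.1 ++ [(false, negZ (dirZ n D.gen (D.name x) (D.edgeName x z)))], s.2.2, s.2.2) := by
      unfold cupd
      simp only [hT, hI.name]
      rw [← hzT, cinv_meet]
      rfl
    rw [hu]
    refine cinv_restart hg hI _ _ (hS.2 _ _ hlenx (hlene _) false).2 ?_ ?_
    · rw [RLP.obj_nonpos_iff (D' := D) hx hz]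
      by_contra hc
      push Not at hc
      rcases hx.dir_cases hz with h6 | ⟨r, hr, h6⟩
      · exact h2 z hc h6 (by rw [hT, hzT])
      · refine h1 (x + r • z) ⟨h6, ?_⟩ ?_
        · rw [RLP.obj_add, RLP.obj_smul]
          have := mul_pos hr hc
          linarith
        · rw [hT, add_sub_cancel_left, RLP.edgeName_smul hr.ne', hzT]
    · rw [RLP.obj_nonpos_iff (D' := cg D (gc e D.mat s.1)) hx hz, cg_obj]
      exact not_le.2 hpos

private theorem cinv_play {κ : CRule} {e : ℕ} {m n : ℕ} {D : RLP m n} {K : ℕ}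
    (hS : Small e D.mat) (hg : CGood κ D K) {x₀ : Fin n → ℝ} (hx₀ : D.Vertex x₀)
    {h : List Answer} {x : Fin n → ℝ} (hp : Play (crule κ e) D x₀ h x) :
    CInv κ e D K h x (h.foldl (cupd κ e D.mat) ([], D.name x₀, D.name x₀)) := by
  induction hp with
  | start =>
    exact ⟨hx₀, rfl, by simp, fun t ht => by simp at ht, x₀, 0, hx₀, rfl, Reach.start, by simp⟩
  | moved _ h1 h2 ih =>
    rw [List.foldl_append]
    exact cinv_moved ih h1 h2
  | refused _ h1 h2 h3 ih =>
    rw [List.foldl_append]
    exact cinv_refused hS hg ih h1 h2 h3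

theorem crule_solves {κ : CRule} {e : ℕ} {m n : ℕ} {D : RLP m n} {K : ℕ}
    (hS : Small e D.mat) (hg : CGood κ D K) :
    Solves (crule κ e) D (fuel e D.mat * (K + 1)) := by
  rw [solves_iff]
  intro x₀ hx₀ h x hp
  have hI := cinv_play hS hg hx₀ hp
  obtain ⟨x₁, t, g1, -, g3, g4⟩ := hI.run
  have ht := (hg _ (cinv_gc_len _) x₁ g1 t x g3).1
  have hch := hI.chain
  have hl : (h.foldl (cupd κ e D.mat) ([], D.name x₀, D.name x₀)).1.length < fuel e D.mat :=
    chain_lt_fuel (by show n ≤ _ + n; omega) (fun f hf => (hI.good f hf).1)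
      (fun f hf => (hI.good f hf).2) hch
  generalize (h.foldl (cupd κ e D.mat) ([], D.name x₀, D.name x₀)).1.length = a at g4 hl
  have h4 : (a + 1) * (K + 1) ≤ fuel e D.mat * (K + 1) := Nat.mul_le_mul_right _ (by omega)
  have h5 : (a + 1) * (K + 1) = a * (K + 1) + (K + 1) := by ring
  omega

end Pool.Agent.Simplex.EB
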