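import Pool.Agent.Lib.MP_4d246d_lc.CR.LeoLin

/-!
# The support of an extreme ray has at most one collision

Let `R` be the set of the rows `i` with a column `j` in the support of `u` with `0 < a i j`; choose
such columns `ρ i` (`ρ` is injective). For rows `i` outside of `R` all entries `a i j`, `j` in the
support of `u`, are `0`, because they are `≤ 0` and `∑ a i j u j ≥ 0`. If there are two columns of
the support outside of `ρ R`, then these `|R| + 2` columns are in a space of dimension `|R|`, so the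
vectors of the kernel with support in the support of `u` have dimension at least `2`.
-/

namespace Pool.Agent.Simplex.EB.Leo

open Finset

variable {M n : ℕ} {a : Fin M → Fin n → ℝ} {b v : Fin M → ℝ} {x y u w z : Fin n → ℝ}

/-- Let `u ≥ 0`, `a u ≥ 0`, and let all vectors `q` of the kernel with support in the support of
`u` be multiples of `u`. Then the support of `u` has at most one collision: there is `e` such that
the other columns of the support have different rows. -/
theorem exists_coll (hA : LR a) (hu : ∀ j, 0 ≤ u j) (hu' : ∀ i, 0 ≤ ap a u i)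
    (hl : ∀ q : Fin n → ℝ, (∀ i, ap a q i = 0) → (∀ j, u j = 0 → q j = 0) →
      ∃ t : ℝ, q = t • u) :
    ∃ e : ℕ, ∀ i j j', 0 < a i j → 0 < a i j' → u j ≠ 0 → u j' ≠ 0 → (j : ℕ) ≠ e →
      (j' : ℕ) ≠ e → j = j' := by
  classical
  obtain ⟨S, hS⟩ : ∃ S : Finset (Fin n), S = univ.filter (fun j => u j ≠ 0) := ⟨_, rfl⟩
  obtain ⟨R, hR⟩ : ∃ R : Finset (Fin M), R = univ.filter (fun i => ∃ j, 0 < a i j ∧ u j ≠ 0) :=
    ⟨_, rfl⟩
  have mS : ∀ j, j ∈ S ↔ u j ≠ 0 := fun j => by rw [hS, mem_filter]; simp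
  have mR : ∀ i, i ∈ R ↔ ∃ j, 0 < a i j ∧ u j ≠ 0 := fun i => by rw [hR, mem_filter]; simp
  have hz : ∀ i, i ∉ R → ∀ j, u j ≠ 0 → a i j = 0 := by
    intro i hi
    have h1 : ∀ j ∈ (univ : Finset (Fin n)), a i j * u j ≤ 0 := by
      intro j _
      by_cases hj : u j = 0
      · rw [hj, mul_zero]
      · refine mul_nonpos_of_nonpos_of_nonneg ?_ (hu j)
        by_contra hc
        exact hi ((mR i).2 ⟨j, not_le.1 hc, hj⟩)
    have h2 : ∑ j, a i j * u j = 0 := le_antisymm (Finset.sum_nonpos h1) (hu' i)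
    have h3 := (Finset.sum_eq_zero_iff_of_nonpos h1).1 h2
    intro j hj
    rcases mul_eq_zero.1 (h3 j (mem_univ j)) with h4 | h4
    · exact h4
    · exact absurd h4 hj
  -- the linear map
  obtain ⟨A, hA'⟩ : ∃ A : Matrix R S ℝ, A = Matrix.of (fun (i : R) (j : S) => a i j) := ⟨_, rfl⟩
  have hap : ∀ (q : S → ℝ) (i : Fin M),
      ap a (fun j => if h : j ∈ S then q ⟨j, h⟩ else 0) i = ∑ j : S, a i j * q j := by
    intro q i
    unfold ap
    have e1 : ∑ j, a i j * (if h : j ∈ S then q ⟨j, h⟩ else 0) =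
        ∑ j ∈ S, a i j * (if h : j ∈ S then q ⟨j, h⟩ else 0) := by
      refine (Finset.sum_subset (subset_univ S) fun j _ hj => ?_).symm
      rw [dif_neg hj, mul_zero]
    rw [e1, ← Finset.sum_coe_sort S]
    refine Finset.sum_congr rfl fun j _ => ?_
    rw [dif_pos j.2]
  have hker : LinearMap.ker A.mulVecLin ≤ Submodule.span ℝ {(fun j : S => u j)} := by
    intro q hq
    rw [LinearMap.mem_ker] at hq
    have h1 : ∀ i, ap a (fun j => if h : j ∈ S then q ⟨j, h⟩ else 0) i = 0 := by
      intro i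
      rw [hap q i]
      by_cases hi : i ∈ R
      · have h2 := congrFun hq ⟨i, hi⟩
        rw [hA'] at h2
        simpa [Matrix.mulVecLin, Matrix.mulVec, dotProduct] using h2
      · refine Finset.sum_eq_zero fun j _ => ?_
        rw [hz i hi j ((mS j).1 j.2), zero_mul]
    obtain ⟨t, ht⟩ := hl _ h1 (fun j hj => dif_neg (fun h => (mS j).1 h hj))
    rw [Submodule.mem_span_singleton]
    refine ⟨t, ?_⟩
    funext j
    have h2 := congrFun ht j
    simp only [dif_pos j.2] at h2
    simpa using h2.symm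
  have hcard : S.card ≤ R.card + 1 := by
    have h1 := LinearMap.finrank_range_add_finrank_ker A.mulVecLin
    have h2 : Module.finrank ℝ (LinearMap.range A.mulVecLin) ≤ R.card := by
      refine (Submodule.finrank_le _).trans ?_
      rw [Module.finrank_pi, Fintype.card_coe]
    have h3 : Module.finrank ℝ (LinearMap.ker A.mulVecLin) ≤ 1 := by
      refine (Submodule.finrank_mono hker).trans ?_
      refine (finrank_span_le_card _).trans ?_
      simp
    rw [Module.finrank_pi, Fintype.card_coe] at h1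
    omega
  obtain ⟨P, hP⟩ : ∃ P : Finset (Fin n), P = R.attach.image
      (fun i => Classical.choose ((mR i.1).1 i.2)) := ⟨_, rfl⟩
  have hch : ∀ i : R, 0 < a i.1 (Classical.choose ((mR i.1).1 i.2)) ∧
      u (Classical.choose ((mR i.1).1 i.2)) ≠ 0 := fun i => Classical.choose_spec ((mR i.1).1 i.2)
  have hPS : P ⊆ S := by
    intro j hj
    rw [hP, mem_image] at hj
    obtain ⟨i, _, hi⟩ := hj
    rw [mS, ← hi]
    exact (hch i).2
  have hPc : P.card = R.card := by
    rw [hP, Finset.card_image_of_injective, Finset.card_attach]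
    intro i i' hii
    have h1 := (hch i).1
    have h2 := (hch i').1
    simp only at hii
    rw [← hii] at h2
    exact Subtype.ext (hA _ _ _ h1 h2)
  have hd : (S \ P).card ≤ 1 := by
    rw [Finset.card_sdiff_of_subset hPS]
    omega
  have key : ∀ i j, 0 < a i j → j ∈ P → ∃ h : i ∈ R, j = Classical.choose ((mR i).1 h) := by
    intro i j h1 h2
    rw [hP, mem_image] at h2
    obtain ⟨i', _, hi'⟩ := h2
    have h3 := (hch i').1
    rw [hi'] at h3
    have h4 : i = i'.1 := hA _ _ _ h1 h3
    subst h4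
    exact ⟨i'.2, hi'.symm⟩
  have fin : ∀ e : ℕ, (∀ j : Fin n, j ∈ S → (j : ℕ) ≠ e → j ∈ P) →
      ∀ i j j', 0 < a i j → 0 < a i j' → u j ≠ 0 → u j' ≠ 0 → (j : ℕ) ≠ e →
      (j' : ℕ) ≠ e → j = j' := by
    intro e he i j j' h1 h2 h3 h4 h5 h6
    obtain ⟨g1, g2⟩ := key i j h1 (he j ((mS j).2 h3) h5)
    obtain ⟨g3, g4⟩ := key i j' h2 (he j' ((mS j').2 h4) h6)
    rw [g2, g4]
  by_cases hne : (S \ P).Nonempty
  · obtain ⟨j0, hj0⟩ := hne
    refine ⟨j0, fin _ fun j hj hje => ?_⟩
    by_contra hc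
    have h1 := Finset.card_le_one.1 hd j (mem_sdiff.2 ⟨hj, hc⟩) j0 hj0
    exact hje (by rw [h1])
  · refine ⟨n, fin _ fun j hj _ => ?_⟩
    by_contra hc
    exact hne ⟨j, mem_sdiff.2 ⟨hj, hc⟩⟩

end Pool.Agent.Simplex.EB.Leo
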