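import Pool.Agent.Lib.MP_4d246d_lc.CR.LeoTgt
import Pool.Agent.Lib.MP_4d246d_lc.CR.LeoCol

/-!
# The rule for Leontief programs makes at most `2 M + 1` steps

Let `u` be the target, `e` the column of `exists_coll`, `π` the policy of the vertex `x` reached
after `t` steps, `Φ` the number of rows `i` with `u (π i) = 0`. Invariant: `t + 2 Φ ≤ 2 M`, or
`t + 2 Φ ≤ 2 M + 1` and no column `j` of the support of `u`, with `x j = 0`, with `0 < a i j` for a
row `i` with `u (π i) ≠ 0`, has positive reduced cost.
-/

namespace Pool.Agent.Simplex.EB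

open Leo Finset Pool.Agent.Lib.PolyTime Pool.Agent.Simplex.QP

variable {M n : ℕ} {A : Fin M → Fin n → ℚ} {c' : Fin n → ℝ} {c : List ℤ} {T : List Bool}
  {u x y z : Fin n → ℝ} {τ : ℝ}

/-- `rdot` as a linear map -/
private def leoL (n : ℕ) (a : List ℤ) : (Fin n → ℝ) →ₗ[ℝ] ℝ where
  toFun := rdot n a
  map_add' x y := by
    unfold rdot
    rw [← Finset.sum_add_distrib]
    exact Finset.sum_congr rfl fun j _ => by rw [Pi.add_apply]; ring
  map_smul' t x := by
    unfold rdot
    rw [RingHom.id_apply, smul_eq_mul, Finset.mul_sum]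
    exact Finset.sum_congr rfl fun j _ => by rw [Pi.smul_apply, smul_eq_mul]; ring

private theorem leoL_apply (n : ℕ) (a : List ℤ) (x : Fin n → ℝ) : leoL n a x = rdot n a x := rfl

/-- the sign of the reduced cost -/
private theorem dot_dir_iff (hc : c.length = n) (hx : Bas (reA A) (fun _ => 1) x) {j : Fin n}
    (hj : x j = 0) (hz : EDir (reA A) x j z) :
    0 < dotZ c (dirZ n (genM (eqProg A (fun _ => 1) c').mat) ((eqProg A (fun _ => 1) c').name x)
      (((eqProg A (fun _ => 1) c').name x).set (M + M + j) false)) ↔ 0 < rdot n c z := by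
  obtain ⟨h1, h2⟩ := eqProg_dir (c := c') hx hj hz
  obtain ⟨t, ht, h3⟩ := RLP.dir_spec (eqProg_vertex.2 hx) h1
  rw [h2] at h3
  set v := dirZ n (genM (eqProg A (fun _ => 1) c').mat) ((eqProg A (fun _ => 1) c').name x)
      (((eqProg A (fun _ => 1) c').name x).set (M + M + j) false) with hv
  have h4 : ((dotZ c v : ℤ) : ℝ) = t * rdot n c z := by
    have h5 : rdot n c (realZ n v) = t * rdot n c z := by
      have : realZ n v = t • z := h3
      rw [this]
      exact (leoL n c).map_smul t z
    rw [← h5, dotZ_eq_fin _ _ n (Or.inl hc.le)]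
    unfold rdot realZ
    push_cast
    rfl
  have h6 : (0 < dotZ c v) ↔ (0 : ℝ) < ((dotZ c v : ℤ) : ℝ) := by
    rw [Int.cast_pos]
  rw [h6, h4]
  exact mul_pos_iff_of_pos_left ht

private theorem leo_mat_len : (eqProg A (fun _ => 1) c').mat.2.length = M + M := by
  simp [RLP.mat]

/-- the columns that may enter -/
private theorem leoB_iff (hA : Leontief A) (hc : c.length = n)
    (hT : ∀ j : Fin n, T.getD (M + M + j) false = true ↔ u j = 0)
    (hx : Bas (reA A) (fun _ => 1) x) (j : Fin n) :
    leoB (eqProg A (fun _ => 1) c').mat c T ((eqProg A (fun _ => 1) c').name x) j = true ↔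
      x j = 0 ∧ u j ≠ 0 ∧ ∃ z, EDir (reA A) x j z ∧ 0 < rdot n c z := by
  unfold leoB leoE
  rw [leo_mat_len, Bool.and_eq_true, Bool.and_eq_true, Bool.not_eq_true', decide_eq_true_iff,
    eqProg_getD, ← Bool.not_eq_true, hT]
  constructor
  · rintro ⟨h1, h2, h3⟩
    obtain ⟨z, hz⟩ := hx.exists_dir hA.lr (fun _ => one_pos) h1
    exact ⟨h1, h2, z, hz, (dot_dir_iff hc hx h1 hz).1 h3⟩
  · rintro ⟨h1, h2, z, hz, h3⟩
    exact ⟨h1, h2, (dot_dir_iff hc hx h1 hz).2 h3⟩

/-- what the rule does -/
private theorem leoRule_some (hA : Leontief A) (hc : c.length = n)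
    (hT : ∀ j : Fin n, T.getD (M + M + j) false = true ↔ u j = 0)
    (hx : Bas (reA A) (fun _ => 1) x) {E : List Bool}
    (hE : ((List.range (eqProg A (fun _ => 1) c').mat.1).find?
      (leoB (eqProg A (fun _ => 1) c').mat c T ((eqProg A (fun _ => 1) c').name x))).map
      (leoE (eqProg A (fun _ => 1) c').mat ((eqProg A (fun _ => 1) c').name x)) = some E) :
    ∃ j z, x j = 0 ∧ u j ≠ 0 ∧ EDir (reA A) x j z ∧ 0 < rdot n c z ∧
      (eqProg A (fun _ => 1) c').sys.Dir (M + M + n) x z ∧
      (eqProg A (fun _ => 1) c').edgeName x z = E := by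
  rw [Option.map_eq_some_iff] at hE
  obtain ⟨j, hj, rfl⟩ := hE
  have h1 : j < n := List.mem_range.1 (List.mem_of_find?_eq_some hj)
  have h2 := List.find?_some hj
  obtain ⟨h3, h4, z, hz, h5⟩ := (leoB_iff hA hc hT hx ⟨j, h1⟩).1 h2
  obtain ⟨h6, h7⟩ := eqProg_dir (c := c') hx h3 hz
  refine ⟨⟨j, h1⟩, z, h3, h4, hz, h5, h6, ?_⟩
  rw [h7]
  unfold leoE
  rw [leo_mat_len]

private theorem leoRule_none (hA : Leontief A) (hc : c.length = n) (hT : Tgt A c T u τ)
    (hx : Bas (reA A) (fun _ => 1) x)
    (hE : ((List.range (eqProg A (fun _ => 1) c').mat.1).find?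
      (leoB (eqProg A (fun _ => 1) c').mat c T ((eqProg A (fun _ => 1) c').name x))).map
      (leoE (eqProg A (fun _ => 1) c').mat ((eqProg A (fun _ => 1) c').name x)) = none) :
    ∀ z : Fin n → ℝ, (∀ i, ap (reA A) z i = 0) → (∀ j, x j = 0 → 0 ≤ z j) → rdot n c z ≤ 0 := by
  rw [Option.map_eq_none_iff, List.find?_eq_none] at hE
  refine hT.best x hx ?_
  by_contra hpos
  obtain ⟨j, z, h1, h2, h3, h4⟩ := hx.exists_improving hA.lr (fun _ => one_pos)
    (q := u - τ • x) (fun i => by
      rw [ap_sub, ap_smul, hT.eq, hx.eq]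
      ring) (fun j hj => by
      rw [Pi.sub_apply, Pi.smul_apply, hj, smul_zero, sub_zero]
      exact hT.nn j) (leoL n c) (not_le.1 hpos)
  refine hE j (List.mem_range.2 j.2) ((leoB_iff hA hc hT.name hx j).2 ⟨h1, ?_, z, h3, h4⟩)
  rw [Pi.sub_apply, Pi.smul_apply, h1, smul_zero, sub_zero] at h2
  exact h2.ne'

/-- directions of the cone -/
private theorem dir_cone (hx : Bas (reA A) (fun _ => 1) x)
    (hz : (eqProg A (fun _ => 1) c').sys.Dir (M + M + n) x z) :
    (∀ i, ap (reA A) z i = 0) ∧ ∀ j, x j = 0 → 0 ≤ z j := by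
  exact (eqProg_cone hx.eq).1 (mem_cone.2 hz.1)

/-- the invariant -/
private theorem leo_inv (hA : Leontief A) (hc : c.length = n) (hT : Tgt A c T u τ)
    {x₀ : Fin n → ℝ} (hx₀ : Bas (reA A) (fun _ => 1) x₀)
    (hTe : leoT (eqProg A (fun _ => 1) c').mat c ((eqProg A (fun _ => 1) c').name x₀) = some T)
    {t : ℕ} {x : Fin n → ℝ} (hr : Reach leoRule (eqProg A (fun _ => 1) c') c x₀ t x) :
    ∃ (π : Fin M → Fin n) (k : ℕ), Pol (reA A) x π ∧ k ≤ 1 ∧
      t + 2 * (univ.filter fun i => u (π i) = 0).card ≤ 2 * M + k ∧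
      (k = 1 → ∀ j i z, u j ≠ 0 → x j = 0 → 0 < reA A i j → u (π i) ≠ 0 →
        EDir (reA A) x j z → rdot n c z ≤ 0) := by
  classical
  obtain ⟨e, he⟩ := exists_coll hA.lr hT.nn (fun i => by rw [hT.eq]; exact hT.tau) hT.line
  induction hr with
  | start =>
    obtain ⟨π, hπ⟩ := hx₀.exists_pol hA.lr fun _ => one_pos
    refine ⟨π, 0, hπ, by omega, ?_, fun h => absurd h (by omega)⟩
    have h1 : (univ.filter fun i => u (π i) = 0).card ≤ (univ : Finset (Fin M)).card :=
      Finset.card_filter_le _ _
    rw [Finset.card_univ, Fintype.card_fin] at h1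
    omega
  | @step t x y hr hxy hk ih =>
    obtain ⟨π, k, hπ, hk1, hk2, hk3⟩ := ih
    have hvx := hr.vertex (eqProg_vertex.2 hx₀)
    have hx := eqProg_vertex.1 hvx
    have hy := eqProg_vertex.1 (RLP.edge_iff _ |>.1 hxy).2.1
    obtain ⟨π', hπ'⟩ := hy.exists_pol hA.lr fun _ => one_pos
    have hk' : ((List.range (eqProg A (fun _ => 1) c').mat.1).find?
      (leoB (eqProg A (fun _ => 1) c').mat c T ((eqProg A (fun _ => 1) c').name x))).map
      (leoE (eqProg A (fun _ => 1) c').mat ((eqProg A (fun _ => 1) c').name x)) =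
        some ((eqProg A (fun _ => 1) c').edgeName x (y - x)) := by
      have : leoRule ((eqProg A (fun _ => 1) c').mat, c, (eqProg A (fun _ => 1) c').name x₀,
        (eqProg A (fun _ => 1) c').name x) = _ := hk
      unfold leoRule at this
      simp only [hTe] at this
      exact this
    obtain ⟨j, z, hxj, huj, hz, hcz, hdir, hname⟩ := leoRule_some hA hc hT.name hx hk'
    obtain ⟨s, hs, hyx⟩ := RLP.Vertex.dir_inj hvx hdir (RLP.edge_iff _ |>.1 hxy).2.2.2 hname
    have hyk : ∀ l, y l = x l + s * z l := by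
      intro l
      have := congrFun hyx l
      simp only [Pi.sub_apply, Pi.smul_apply, smul_eq_mul] at this
      linarith
    have hyj : y j ≠ 0 := by
      rw [hyk, hxj, hz.one, zero_add, mul_one]
      exact hs.ne'
    have hy0 : ∀ l, x l = 0 → l ≠ j → y l = 0 := by
      intro l hl hlj
      rw [hyk, hl, hz.zero l hl hlj]
      ring
    obtain ⟨i, hij, hπ'i, hπ'k⟩ := hπ.step hA.lr hπ' hxj hyj hy0
    by_cases hui : u (π i) = 0
    · -- the row becomes good
      refine ⟨π', 0, hπ', by omega, ?_, fun h => absurd h (by omega)⟩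
      have h1 : (univ.filter fun l => u (π' l) = 0) ⊆
          (univ.filter fun l => u (π l) = 0).erase i := by
        intro l hl
        rw [Finset.mem_filter] at hl
        rw [Finset.mem_erase, Finset.mem_filter]
        have hli : l ≠ i := by
          rintro rfl
          rw [hπ'i] at hl
          exact huj hl.2
        refine ⟨hli, Finset.mem_univ _, ?_⟩
        rw [← hπ'k l hli]
        exact hl.2
      have h2 := Finset.card_le_card h1
      have h3 : i ∈ univ.filter fun l => u (π l) = 0 :=
        Finset.mem_filter.2 ⟨Finset.mem_univ _, hui⟩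
      rw [Finset.card_erase_of_mem h3] at h2
      have h4 : 0 < (univ.filter fun l => u (π l) = 0).card := Finset.card_pos.2 ⟨i, h3⟩
      omega
    · -- a swap in the row of `e`
      have hk0 : k = 0 := by
        by_contra hk0
        exact absurd hcz (not_lt.2 (hk3 (by omega) j i z huj hxj hij hui hz))
      refine ⟨π', 1, hπ', le_refl _, ?_, fun _ => ?_⟩
      · have h1 : (univ.filter fun l => u (π' l) = 0) ⊆ (univ.filter fun l => u (π l) = 0) := by
          intro l hl
          rw [Finset.mem_filter] at hl ⊢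
          have hli : l ≠ i := by
            rintro rfl
            rw [hπ'i] at hl
            exact huj hl.2
          refine ⟨Finset.mem_univ _, ?_⟩
          rw [← hπ'k l hli]
          exact hl.2
        have h2 := Finset.card_le_card h1
        omega
      · intro j' i' z' huj' hyj' hij' hui' hz'
        have hne1 : j ≠ π i := fun h => hπ.ne i (by rw [← h]; exact hxj)
        have hne2 : j' ≠ π' i' := fun h => hπ'.ne i' (by rw [← h]; exact hyj')
        have hcol1 : (j : ℕ) = e ∨ (π i : ℕ) = e := by
          by_contra h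
          push Not at h
          exact hne1 (he i j (π i) hij (hπ.pos i) huj hui h.1 h.2)
        have hcol2 : (j' : ℕ) = e ∨ (π' i' : ℕ) = e := by
          by_contra h
          push Not at h
          exact hne2 (he i' j' (π' i') hij' (hπ'.pos i') huj' hui' h.1 h.2)
        have hii : i = i' := by
          rcases hcol1 with h1 | h1 <;> rcases hcol2 with h2 | h2
          · have : j = j' := Fin.ext (by omega)
            exact hA.lr j i i' hij (by rw [this]; exact hij')
          · have : j = π' i' := Fin.ext (by omega)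
            exact hA.lr j i i' hij (by rw [this]; exact hπ'.pos i')
          · have : π i = j' := Fin.ext (by omega)
            exact hA.lr (π i) i i' (hπ.pos i) (by rw [this]; exact hij')
          · have : π i = π' i' := Fin.ext (by omega)
            exact hA.lr (π i) i i' (hπ.pos i) (by rw [this]; exact hπ'.pos i')
        subst hii
        rw [hπ'i] at hne2 hcol2
        have hj'π : j' = π i := by
          by_cases hje : (j : ℕ) = e
          · have h1 : (j' : ℕ) ≠ e := fun h => hne2 (Fin.ext (by omega))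
            have h2 : (π i : ℕ) ≠ e := fun h => hne1 (Fin.ext (by omega))
            exact he i j' (π i) hij' (hπ.pos i) huj' hui h1 h2
          · exact Fin.ext (by omega)
        subst hj'π
        have hxpos : 0 < x (π i) := lt_of_le_of_ne (hx.nn _) (Ne.symm (hπ.ne i))
        have h1 := hz'.line hy.ind (q := x - y) (fun l => by
          rw [ap_sub, hx.eq, hy.eq, sub_self]) (fun l hl hli => by
          rw [Pi.sub_apply, hl, sub_zero]
          by_contra hxl
          obtain ⟨r, rfl⟩ := hπ.surj l hxl
          have hri : r ≠ i := fun h => hli (by rw [h])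
          rw [← hπ'k r hri] at hl
          exact hπ'.ne r hl)
        have h2 : rdot n c (x - y) = -(s * rdot n c z) := by
          have h3 : x - y = (-s) • z := by
            rw [neg_smul, ← hyx, neg_sub]
          rw [h3]
          have := (leoL n c).map_smul (-s) z
          rw [leoL_apply, leoL_apply, smul_eq_mul] at this
          rw [this]
          ring
        have h4 : rdot n c (x - y) = x (π i) * rdot n c z' := by
          have h5 := congrArg (leoL n c) h1
          rw [map_smul, leoL_apply, leoL_apply, smul_eq_mul, Pi.sub_apply, hyj', sub_zero] at h5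
          exact h5
        have h5 := mul_pos hs hcz
        by_contra h6
        have := mul_pos hxpos (not_le.1 h6)
        linarith

theorem leo_good (hA : Leontief A) (c' : Fin n → ℝ) :
    CGood leoRule (eqProg A (fun _ => 1) c') (2 * M + 1) := by
  intro c hc x₀ hx₀ t x hr
  have hbx₀ := eqProg_vertex.1 hx₀
  have hvx := hr.vertex hx₀
  have hx := eqProg_vertex.1 hvx
  obtain ⟨hs1, hs2⟩ := leoT_spec (A := A) (c' := c') hc hbx₀
  cases hTe : leoT (eqProg A (fun _ => 1) c').mat c ((eqProg A (fun _ => 1) c').name x₀) with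
  | none =>
    have hnone : ∀ S, leoRule ((eqProg A (fun _ => 1) c').mat, c,
        (eqProg A (fun _ => 1) c').name x₀, S) = none := by
      intro S
      unfold leoRule
      simp only [hTe]
    cases hr with
    | start =>
      refine ⟨by omega, fun T hT => ?_, fun _ z hz => ?_⟩
      · rw [hnone] at hT
        exact absurd hT (by simp)
      · obtain ⟨h1, h2⟩ := dir_cone hx hz
        exact hs2 hTe z h1 h2
    | step h1 h2 h3 =>
      rw [hnone] at h3
      exact absurd h3 (by simp)
  | some T =>
    obtain ⟨u, τ, hT⟩ := hs1 T hTe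
    have hrule : leoRule ((eqProg A (fun _ => 1) c').mat, c,
        (eqProg A (fun _ => 1) c').name x₀, (eqProg A (fun _ => 1) c').name x) =
        ((List.range (eqProg A (fun _ => 1) c').mat.1).find?
      (leoB (eqProg A (fun _ => 1) c').mat c T ((eqProg A (fun _ => 1) c').name x))).map
      (leoE (eqProg A (fun _ => 1) c').mat ((eqProg A (fun _ => 1) c').name x)) := by
      unfold leoRule
      simp only [hTe]
    refine ⟨?_, fun E hE => ?_, fun hE z hz => ?_⟩
    · obtain ⟨π, k, -, hk1, hk2, -⟩ := leo_inv hA hc hT hbx₀ hTe hr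
      omega
    · rw [hrule] at hE
      obtain ⟨j, z, -, -, -, h1, h2, h3⟩ := leoRule_some hA hc hT.name hx hE
      exact ⟨z, h2, h3, h1⟩
    · rw [hrule] at hE
      obtain ⟨h1, h2⟩ := dir_cone hx hz
      exact leoRule_none hA hc hT hx hE z h1 h2

end Pool.Agent.Simplex.EB
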