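import Pool.Agent.Lib.MP_4d246d_lc.EB.Facts
import Pool.Agent.Lib.MP_4d246d_lc.QP.Solver

/-!
# The best edge of a cone

`Cone n G S` is the cone of the vectors `z` with `G_i z ≥ 0` for all `i` in `S`. For weights `s` and
an objective `c`, `pickZ` finds an extreme ray of the cone with maximal ratio `c z / s z`: it solves
the linear program `max c z`, `z` in the cone, `s z ≤ 1`, with value `a / d`, and then it makes
as many constraints of `S` tight as possible, keeping the value `a / d`.
-/

namespace Pool.Agent.Simplex.EB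

open Pool.Agent.Lib.PolyTime Pool.Agent.Simplex.QP

/-- the cone of the constraints in `S` -/
def Cone (n : ℕ) (G : List (List ℤ)) (S : List Bool) : Set (Fin n → ℝ) :=
  {z | ∀ i < G.length, S.getD i false = true → 0 ≤ rdot n (G.getD i []) z}

/-- the constraints in `S` -/
def selI (G : List (List ℤ)) (S : List Bool) : List ℕ :=
  (List.range G.length).filter fun i => S.getD i false

/-- the inequalities: `s z ≤ 1`, `- G_i z ≤ 0` for the constraints in `S` -/
def pickI (G : List (List ℤ)) (S : List Bool) (s : List ℤ) : List (List ℤ × ℤ) :=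
  (s, 1) :: (selI G S).map fun i => (negZ (G.getD i []), 0)

/-- the equations: `d c z = a`, `G_i z = 0` for the constraints in `K` -/
def pickE (G : List (List ℤ)) (c : List ℤ) (a d : ℤ) (K : List ℕ) : List (List ℤ × ℤ) :=
  (c.map fun x => d * x, a) :: K.map fun i => (G.getD i [], 0)

/-- is the program feasible? -/
def feasB (r : Res) : Bool := match r with
  | .infeas => false
  | .unb => true
  | .opt _ _ => true

/-- try to make the constraint `i` tight -/
def pickStep (n : ℕ) (G : List (List ℤ)) (S : List Bool) (s c : List ℤ) (a d : ℤ) (K : List ℕ)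
    (i : ℕ) : List ℕ :=
  if feasB (lpsolve n (pickE G c a d (i :: K)) (pickI G S s) []) = true then i :: K else K

/-- the constraints that are tight along the edge -/
def pickK (n : ℕ) (G : List (List ℤ)) (S : List Bool) (s c : List ℤ) (a d : ℤ) : List ℕ :=
  (selI G S).foldl (pickStep n G S s c a d) []

/-- the name of the edge for given value `a / d` -/
def pickT (n : ℕ) (G : List (List ℤ)) (S : List Bool) (s c : List ℤ) (a d : ℤ) :
    Option (List Bool) :=
  if a ≤ 0 then none
  else some ((List.range G.length).map fun i => decide (i ∈ pickK n G S s c a d))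

/-- the name of an extreme ray of the cone with maximal ratio `c z / s z > 0`, if there is one -/
def pickZ (n : ℕ) (G : List (List ℤ)) (S : List Bool) (s c : List ℤ) : Option (List Bool) :=
  match lpsolve n [] (pickI G S s) c with
  | .opt x d => pickT n G S s c (dotZ (padZ n c) x) d
  | .unb => none
  | .infeas => none

/-- what `pickZ` finds -/
structure Picked (n : ℕ) (G : List (List ℤ)) (S : List Bool) (s c : List ℤ) (T : List Bool)
    (z : Fin n → ℝ) : Prop where
  len : T.length = G.length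
  cone : z ∈ Cone n G S
  one : rdot n s z = 1
  pos : 0 < rdot n c z
  max : ∀ z' ∈ Cone n G S, rdot n c z' ≤ rdot n c z * rdot n s z'
  tight : ∀ i < G.length, T.getD i false = true ↔
    S.getD i false = true ∧ rdot n (G.getD i []) z = 0
  line : ∀ q : Fin n → ℝ, (∀ i < G.length, T.getD i false = true → rdot n (G.getD i []) q = 0) →
    ∃ t : ℝ, q = t • z

/-! ### Auxiliary facts for the specification -/

/-- `rdot` as a linear map -/
private def prl (n : ℕ) (a : List ℤ) : (Fin n → ℝ) →ₗ[ℝ] ℝ where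
  toFun := rdot n a
  map_add' x y := by
    unfold rdot
    rw [← Finset.sum_add_distrib]
    exact Finset.sum_congr rfl fun j _ => by rw [Pi.add_apply]; ring
  map_smul' t x := by
    unfold rdot
    rw [RingHom.id_apply, smul_eq_mul, Finset.mul_sum]
    exact Finset.sum_congr rfl fun j _ => by rw [Pi.smul_apply, smul_eq_mul]; ring

private theorem prl_apply (n : ℕ) (a : List ℤ) (x : Fin n → ℝ) : prl n a x = rdot n a x := rfl

private theorem pick_step {V : Type*} [AddCommGroup V] [Module ℝ V] (I : Finset ℕ)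
    (g : ℕ → V →ₗ[ℝ] ℝ) (z q : V) (hz : ∀ i ∈ I, 0 ≤ g i z)
    (hpos : ∀ i ∈ I, g i q < 0 → 0 < g i z) :
    ∃ t : ℝ, 0 < t ∧ (∀ i ∈ I, 0 ≤ g i (z + t • q)) ∧
      ((∃ j ∈ I, g j q < 0) → ∃ j ∈ I, g j q < 0 ∧ g j (z + t • q) = 0) := by
  by_cases h : ∃ j ∈ I, g j q < 0
  · have hne : (I.filter fun j => g j q < 0).Nonempty := by
      obtain ⟨j, hj, hj'⟩ := h
      exact ⟨j, Finset.mem_filter.2 ⟨hj, hj'⟩⟩
    obtain ⟨j, hj, hmin⟩ := Finset.exists_min_image _ (fun j => g j z / (-(g j q))) hne
    rw [Finset.mem_filter] at hj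
    have hjp : 0 < -(g j q) := by linarith [hj.2]
    refine ⟨g j z / (-(g j q)), div_pos (hpos j hj.1 hj.2) hjp, ?_, ?_⟩
    · intro i hi
      rw [map_add, map_smul, smul_eq_mul]
      by_cases hiq : g i q < 0
      · have h1 := hmin i (Finset.mem_filter.2 ⟨hi, hiq⟩)
        have hip : 0 < -(g i q) := by linarith
        have h2 : g j z / (-(g j q)) * (-(g i q)) ≤ g i z := by
          calc g j z / (-(g j q)) * (-(g i q)) ≤ g i z / (-(g i q)) * (-(g i q)) :=
                mul_le_mul_of_nonneg_right h1 hip.le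
            _ = g i z := div_mul_cancel₀ _ hip.ne'
        linarith
      · have h1 : 0 ≤ g j z / (-(g j q)) := div_nonneg (hz j hj.1) hjp.le
        have h2 : 0 ≤ g j z / (-(g j q)) * g i q := mul_nonneg h1 (not_lt.1 hiq)
        linarith [hz i hi]
    · intro _
      refine ⟨j, hj.1, hj.2, ?_⟩
      rw [map_add, map_smul, smul_eq_mul]
      have h1 : g j z / (-(g j q)) * (-(g j q)) = g j z := div_mul_cancel₀ _ hjp.ne'
      linarith
  · refine ⟨1, one_pos, ?_, fun h' => absurd h' h⟩
    intro i hi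
    have h1 : 0 ≤ g i q := by
      by_contra h2
      exact h ⟨i, hi, not_le.1 h2⟩
    rw [map_add, map_smul, smul_eq_mul]
    linarith [hz i hi]

private theorem pick_geo {V : Type*} [AddCommGroup V] [Module ℝ V] (I : Finset ℕ)
    (g : ℕ → V →ₗ[ℝ] ℝ) (s c : V →ₗ[ℝ] ℝ) (β : ℝ) (hβ : 0 < β)
    (hmax : ∀ z, (∀ i ∈ I, 0 ≤ g i z) → s z ≤ 1 → c z ≤ β)
    (hv : ∀ q, (∀ i ∈ I, g i q = 0) → q = 0) (K : List ℕ)
    (hne : ∃ z, (∀ i ∈ I, 0 ≤ g i z) ∧ s z ≤ 1 ∧ c z = β ∧ ∀ i ∈ K, g i z = 0)
    (hK : ∀ i ∈ I, i ∉ K → ¬ ∃ z, (∀ j ∈ I, 0 ≤ g j z) ∧ s z ≤ 1 ∧ c z = β ∧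
      (∀ j ∈ K, g j z = 0) ∧ g i z = 0) :
    ∃ z, (∀ i ∈ I, 0 ≤ g i z) ∧ s z = 1 ∧ c z = β ∧
      (∀ z', (∀ i ∈ I, 0 ≤ g i z') → c z' ≤ β * s z') ∧ (∀ i ∈ K, g i z = 0) ∧
      (∀ i ∈ I, g i z = 0 → i ∈ K) ∧
      ∀ q, (∀ i ∈ K, g i q = 0) → ∃ t : ℝ, q = t • z := by
  obtain ⟨z, hz, hs, hc, hKz⟩ := hne
  -- (1)
  have hs1 : s z = 1 := by
    by_contra hne1
    have hlt : s z < 1 := lt_of_le_of_ne hs hne1
    by_cases h0 : 0 < s z
    · have h1 := hmax ((s z)⁻¹ • z) (fun i hi => by
        rw [map_smul, smul_eq_mul]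
        exact mul_nonneg (inv_nonneg.2 h0.le) (hz i hi)) (by
        rw [map_smul, smul_eq_mul, inv_mul_cancel₀ h0.ne'])
      rw [map_smul, smul_eq_mul, hc] at h1
      have h2 : 1 < (s z)⁻¹ := (one_lt_inv₀ h0).2 hlt
      nlinarith
    · have h1 := hmax ((2 : ℝ) • z) (fun i hi => by
        rw [map_smul, smul_eq_mul]
        exact mul_nonneg (by norm_num) (hz i hi)) (by
        rw [map_smul, smul_eq_mul]
        linarith [not_lt.1 h0])
      rw [map_smul, smul_eq_mul, hc] at h1
      linarith
  -- (2)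
  have h2 : ∀ z', (∀ i ∈ I, 0 ≤ g i z') → c z' ≤ β * s z' := by
    intro z' hz'
    have hm : 0 < (1 + |s z'|)⁻¹ := inv_pos.2 (by positivity)
    set m := (1 + |s z'|)⁻¹ with hmdef
    have hm1 : m * (1 + |s z'|) = 1 := inv_mul_cancel₀ (by positivity)
    have hp : 0 < 1 + m * s z' := by
      have : -|s z'| ≤ s z' := neg_abs_le _
      nlinarith
    have h1 := hmax ((1 + m * s z')⁻¹ • (z + m • z')) (fun i hi => by
      rw [map_smul, smul_eq_mul, map_add, map_smul, smul_eq_mul]
      exact mul_nonneg (inv_nonneg.2 hp.le)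
        (add_nonneg (hz i hi) (mul_nonneg hm.le (hz' i hi)))) (by
      rw [map_smul, smul_eq_mul, map_add, map_smul, smul_eq_mul, hs1,
        inv_mul_cancel₀ hp.ne'])
    rw [map_smul, smul_eq_mul, map_add, map_smul, smul_eq_mul, hc,
      inv_mul_le_iff₀ hp] at h1
    have h3 : m * c z' ≤ m * (β * s z') := by linarith
    exact le_of_mul_le_mul_left h3 hm
  -- (3)
  have h3 : ∀ i ∈ I, g i z = 0 → i ∈ K := by
    intro i hi h0
    by_contra hiK
    exact hK i hi hiK ⟨z, hz, hs, hc, hKz, h0⟩
  refine ⟨z, hz, hs1, hc, h2, hKz, h3, ?_⟩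
  -- directions
  have hdir : ∀ q, (∀ i ∈ K, g i q = 0) → ∀ i ∈ I, g i q < 0 → 0 < g i z := by
    intro q hq i hi hlt
    rcases (hz i hi).lt_or_eq with h | h
    · exact h
    · exfalso
      have := hq i (h3 i hi h.symm)
      linarith
  have hcle : ∀ q, (∀ i ∈ K, g i q = 0) → s q = 0 → c q ≤ 0 := by
    intro q hq hsq
    obtain ⟨t, ht, h4, -⟩ := pick_step I g z q hz (hdir q hq)
    have h5 := h2 _ h4
    rw [map_add, map_smul, map_add, map_smul, smul_eq_mul, smul_eq_mul, hsq, hs1, hc] at h5
    have h6 : t * c q ≤ 0 := by linarith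
    by_contra h7
    exact absurd h6 (not_le.2 (mul_pos ht (not_le.1 h7)))
  have hneg : ∀ q, (∀ i ∈ K, g i q = 0) → ∀ i ∈ K, g i (-q) = 0 := by
    intro q hq i hi
    rw [map_neg, hq i hi, neg_zero]
  have hczero : ∀ q, (∀ i ∈ K, g i q = 0) → s q = 0 → c q = 0 := by
    intro q hq hsq
    have h4 := hcle q hq hsq
    have h5 := hcle (-q) (hneg q hq) (by rw [map_neg, hsq, neg_zero])
    rw [map_neg] at h5
    linarith
  have hge : ∀ q, (∀ i ∈ K, g i q = 0) → s q = 0 → ∀ i ∈ I, 0 ≤ g i q := by
    intro q hq hsq i hi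
    by_contra hlt
    obtain ⟨t, ht, h4, h5⟩ := pick_step I g z q hz (hdir q hq)
    obtain ⟨j, hj, hjq, hj0⟩ := h5 ⟨i, hi, not_le.1 hlt⟩
    have hjK : j ∉ K := fun h => by
      have := hq j h
      linarith
    refine hK j hj hjK ⟨z + t • q, h4, ?_, ?_, ?_, hj0⟩
    · rw [map_add, map_smul, hsq, smul_zero, add_zero]
      exact hs
    · rw [map_add, map_smul, hczero q hq hsq, smul_zero, add_zero]
      exact hc
    · intro k hk
      rw [map_add, map_smul, hq k hk, hKz k hk, smul_zero, add_zero]
  intro q hq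
  have hq' : ∀ i ∈ K, g i (q - s q • z) = 0 := by
    intro i hi
    rw [map_sub, map_smul, hq i hi, hKz i hi, smul_zero, sub_zero]
  have hsq' : s (q - s q • z) = 0 := by
    rw [map_sub, map_smul, smul_eq_mul, hs1, mul_one, sub_self]
  have h0 : q - s q • z = 0 := by
    apply hv
    intro i hi
    have h4 := hge _ hq' hsq' i hi
    have h5 := hge _ (hneg _ hq') (by rw [map_neg, hsq', neg_zero]) i hi
    rw [map_neg] at h5
    linarith
  exact ⟨s q, sub_eq_zero.1 h0⟩

private theorem pick_fold (P : List ℕ → Prop) (b : List ℕ → ℕ → Bool)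
    (hb : ∀ K i, b K i = true ↔ P (i :: K)) (hP : ∀ K K' : List ℕ, (∀ i ∈ K', i ∈ K) → P K → P K')
    (L : List ℕ) : ∀ K0 : List ℕ, P K0 →
      P (L.foldl (fun K i => if b K i = true then i :: K else K) K0) ∧
      (∀ i ∈ K0, i ∈ L.foldl (fun K i => if b K i = true then i :: K else K) K0) ∧
      (∀ i ∈ L.foldl (fun K i => if b K i = true then i :: K else K) K0, i ∈ K0 ∨ i ∈ L) ∧
      ∀ i ∈ L, i ∉ L.foldl (fun K i => if b K i = true then i :: K else K) K0 →
        ¬ P (i :: L.foldl (fun K i => if b K i = true then i :: K else K) K0) := by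
  induction L with
  | nil =>
    intro K0 h0
    exact ⟨h0, fun i hi => hi, fun i hi => Or.inl hi, fun i hi => absurd hi (by simp)⟩
  | cons a L ih =>
    intro K0 h0
    rw [List.foldl_cons]
    by_cases hba : b K0 a = true
    · rw [if_pos hba]
      obtain ⟨h1, h2, h3, h4⟩ := ih (a :: K0) ((hb K0 a).1 hba)
      refine ⟨h1, fun i hi => h2 i (List.mem_cons_of_mem _ hi), ?_, ?_⟩
      · intro i hi
        rcases h3 i hi with h | h
        · rcases List.mem_cons.1 h with h | h
          · exact Or.inr (by rw [h]; exact List.mem_cons_self)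
          · exact Or.inl h
        · exact Or.inr (List.mem_cons_of_mem _ h)
      · intro i hi hni
        rcases List.mem_cons.1 hi with h | h
        · exact absurd (h2 i (by rw [h]; exact List.mem_cons_self)) hni
        · exact h4 i h hni
    · rw [if_neg hba]
      obtain ⟨h1, h2, h3, h4⟩ := ih K0 h0
      refine ⟨h1, h2, ?_, ?_⟩
      · intro i hi
        rcases h3 i hi with h | h
        · exact Or.inl h
        · exact Or.inr (List.mem_cons_of_mem _ h)
      · intro i hi hni
        rcases List.mem_cons.1 hi with h | h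
        · intro hcon
          apply hba
          rw [hb]
          refine hP _ _ ?_ hcon
          intro k hk
          rcases List.mem_cons.1 hk with h' | h'
          · rw [h', h]; exact List.mem_cons_self
          · exact List.mem_cons_of_mem _ (h2 k h')
        · exact h4 i h hni

private theorem feasB_iff (n : ℕ) (E I : List (List ℤ × ℤ)) (c : List ℤ) :
    feasB (lpsolve n E I c) = true ↔ ∃ x, Sat n E I x := by
  have h := lpsolve_spec n E I c
  cases hr : lpsolve n E I c with
  | infeas =>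
    rw [hr] at h
    simp only [feasB]
    constructor
    · intro h'
      exact absurd h' (by simp)
    · intro h'
      exact absurd h' h
  | unb =>
    rw [hr] at h
    simp only [feasB]
    exact ⟨fun _ => h.1, fun _ => trivial⟩
  | opt x d =>
    rw [hr] at h
    simp only [feasB]
    exact ⟨fun _ => ⟨_, h.2.2.1⟩, fun _ => trivial⟩

private theorem mem_selI {G : List (List ℤ)} {S : List Bool} {i : ℕ} :
    i ∈ selI G S ↔ i < G.length ∧ S.getD i false = true := by
  unfold selI
  rw [List.mem_filter, List.mem_range]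

private theorem satI_iff {n : ℕ} {G : List (List ℤ)} {S : List Bool} {s : List ℤ}
    {z : Fin n → ℝ} : (∀ r ∈ pickI G S s, rdot n r.1 z ≤ (r.2 : ℝ)) ↔
      rdot n s z ≤ 1 ∧ z ∈ Cone n G S := by
  unfold pickI
  constructor
  · intro h
    refine ⟨?_, ?_⟩
    · have := h (s, 1) List.mem_cons_self
      simpa using this
    · intro i hi hS
      have := h (negZ (G.getD i []), 0)
        (List.mem_cons_of_mem _ (List.mem_map.2 ⟨i, mem_selI.2 ⟨hi, hS⟩, rfl⟩))
      rw [rdot_neg'] at this
      simp only [Int.cast_zero] at this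
      linarith
  · rintro ⟨h1, h2⟩ r hr
    rcases List.mem_cons.1 hr with h | h
    · rw [h]
      simpa using h1
    · obtain ⟨i, hi, rfl⟩ := List.mem_map.1 h
      obtain ⟨hi1, hi2⟩ := mem_selI.1 hi
      rw [rdot_neg']
      simp only [Int.cast_zero]
      linarith [h2 i hi1 hi2]

private theorem rdot_map_mul (n : ℕ) (c : List ℤ) (d : ℤ) (z : Fin n → ℝ) :
    rdot n (c.map fun x => d * x) z = (d : ℝ) * rdot n c z := by
  unfold rdot
  rw [Finset.mul_sum]
  refine Finset.sum_congr rfl fun j _ => ?_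
  have h : (c.map fun x => d * x).getD (j : ℕ) 0 = d * c.getD (j : ℕ) 0 := by
    rw [List.getD_eq_getElem?_getD, List.getD_eq_getElem?_getD, List.getElem?_map]
    cases (c)[(j : ℕ)]? with
    | none => simp
    | some v => simp
  rw [h]
  push_cast
  ring

private theorem satE_iff {n : ℕ} {G : List (List ℤ)} {S : List Bool} {s c : List ℤ} {a d : ℤ}
    {K : List ℕ} {z : Fin n → ℝ} : Sat n (pickE G c a d K) (pickI G S s) z ↔
      ((d : ℝ) * rdot n c z = a ∧ ∀ i ∈ K, rdot n (G.getD i []) z = 0) ∧
        (rdot n s z ≤ 1 ∧ z ∈ Cone n G S) := by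
  unfold Sat
  rw [satI_iff]
  refine and_congr_left fun _ => ?_
  unfold pickE
  constructor
  · intro h
    refine ⟨?_, ?_⟩
    · have := h _ List.mem_cons_self
      rw [rdot_map_mul] at this
      exact this
    · intro i hi
      have := h (G.getD i [], 0) (List.mem_cons_of_mem _ (List.mem_map.2 ⟨i, hi, rfl⟩))
      simpa using this
  · rintro ⟨h1, h2⟩ r hr
    rcases List.mem_cons.1 hr with h | h
    · rw [h, rdot_map_mul]
      exact h1
    · obtain ⟨i, hi, rfl⟩ := List.mem_map.1 h
      simpa using h2 i hi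

/-- Specification. `hv`: the cone is pointed; `hb`: the ratio is bounded.

Proof. The program `max c z`, `z` in the cone, `s z ≤ 1` is feasible (`0`) and bounded by
`λ` (`c z ≤ λ s z ≤ λ` if `s z ≥ 0`; if `s z < 0` then `c z ≤ λ s z ≤ 0`), so `lpsolve_spec` gives
an optimum `z₀ = x / d`, `d > 0`, with `c z₀ = a / d =: β`. If `a ≤ 0`: `c z ≤ 0` for all `z` in the
cone (scale `z` such that `s z ≤ 1`). Let `β > 0`.
(1) For all `z` with `c z = β` in the cone and `s z ≤ 1`: `s z = 1` (if `0 < s z < 1`, then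
`z / s z` is better; if `s z ≤ 0`, then `2 z` is better).
(2) `c z' ≤ β s z'` for all `z'` in the cone: consider `(z₀ + μ z') / (1 + μ s z')` for small
`μ > 0`.
(3) Let `F K` be the set of all `z` in the cone with `s z ≤ 1`, `c z = β` and `G_i z = 0` for
`i ∈ K`. Along the fold `F K` stays nonempty, and at the end: if `z ∈ F K`, `i` in `S`,
`G_i z = 0`, then `i ∈ K` (because `i` has been tried with a smaller `K`).
(4) At the end `F K` has exactly one element: if `z₁ ≠ z₂` are in `F K`, put `q = z₂ - z₁`; by `hv`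
some `G_i q ≠ 0`, `i ∈ S`; we may assume `G_i q < 0` (exchange `z₁`, `z₂`); let `t > 0` be the
smallest of the numbers `G_j z₁ / (- G_j q)`, `G_j q < 0`, `j` in `S`; then `z₁ + t q ∈ F K`
(`s q = 0`, `c q = 0`, `G_i q = 0` for `i ∈ K`), and `G_j (z₁ + t q) = 0`, so `j ∈ K` by (3), but
`G_j q = 0` for `j ∈ K`: contradiction.
(5) Let `z` be the element of `F K`. `tight` is (3). `line`: let `G_i q = 0` for all `i ∈ K`. Put
`q' = q - (s q) z`, then `s q' = 0`. For small `ε`, `z ± ε q'` is in the cone, so by (2)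
`c (z ± ε q') ≤ β`, so `c q' = 0`, `z + ε q' ∈ F K`, so `q' = 0`. -/
theorem pickZ_spec {n : ℕ} {G : List (List ℤ)} {S : List Bool} {s c : List ℤ}
    (hv : ∀ q : Fin n → ℝ, (∀ i < G.length, S.getD i false = true →
      rdot n (G.getD i []) q = 0) → q = 0)
    (hb : ∃ lam : ℝ, 0 ≤ lam ∧ ∀ z ∈ Cone n G S, rdot n c z ≤ lam * rdot n s z) :
    (pickZ n G S s c = none → ∀ z ∈ Cone n G S, rdot n c z ≤ 0) ∧
      ∀ T, pickZ n G S s c = some T → ∃ z, Picked n G S s c T z := by
  have hzero : ∀ v : List ℤ, rdot n v 0 = 0 := fun v => (prl n v).map_zero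
  have hspec := lpsolve_spec n [] (pickI G S s) c
  have hsat : ∀ z : Fin n → ℝ, Sat n [] (pickI G S s) z ↔ rdot n s z ≤ 1 ∧ z ∈ Cone n G S := by
    intro z
    unfold Sat
    rw [satI_iff]
    simp
  unfold pickZ
  cases hr : lpsolve n [] (pickI G S s) c with
  | infeas =>
    exfalso
    rw [hr] at hspec
    refine hspec ⟨0, (hsat 0).2 ⟨by rw [hzero]; norm_num, fun i _ _ => (hzero _).ge⟩⟩
  | unb =>
    exfalso
    rw [hr] at hspec
    obtain ⟨lam, hl, hlam⟩ := hb
    obtain ⟨z, hz, hz'⟩ := hspec.2 lam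
    rw [hsat] at hz
    have h1 := hlam z hz.2
    have h2 : lam * rdot n s z ≤ lam * 1 := mul_le_mul_of_nonneg_left hz.1 hl
    linarith
  | opt x d =>
    rw [hr] at hspec
    obtain ⟨hd, hx, hz0, hmax⟩ := hspec
    set z0 : Fin n → ℝ := fun j => ((x.getD j 0 : ℤ) : ℝ) / d with hz0def
    have hd' : (0 : ℝ) < (d : ℝ) := by exact_mod_cast hd
    have hval : (d : ℝ) * rdot n c z0 = ((dotZ (padZ n c) x : ℤ) : ℝ) := by
      rw [dotZ_eq_fin _ _ n (Or.inr hx.le), ← rdot_padZ]
      unfold rdot
      push_cast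
      rw [Finset.mul_sum]
      refine Finset.sum_congr rfl fun j _ => ?_
      rw [hz0def]
      field_simp
    set a := dotZ (padZ n c) x with ha
    rw [hsat] at hz0
    change (pickT n G S s c a d = none → ∀ z ∈ Cone n G S, rdot n c z ≤ 0) ∧
      ∀ T, pickT n G S s c a d = some T → ∃ z, Picked n G S s c T z
    by_cases ha0 : a ≤ 0
    · have hle : rdot n c z0 ≤ 0 := by
        have h1 : (a : ℝ) ≤ 0 := by exact_mod_cast ha0
        by_contra h2
        have := mul_pos hd' (not_le.1 h2)
        linarith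
      have hp : pickT n G S s c a d = none := by
        unfold pickT
        rw [if_pos ha0]
      rw [hp]
      refine ⟨fun _ z hz => ?_, fun T hT => absurd hT (by simp)⟩
      have hm : 0 < (1 + |rdot n s z|)⁻¹ := inv_pos.2 (by positivity)
      have hm1 : (1 + |rdot n s z|)⁻¹ * (1 + |rdot n s z|) = 1 :=
        inv_mul_cancel₀ (by positivity)
      have hsm : ∀ v : List ℤ, rdot n v ((1 + |rdot n s z|)⁻¹ • z) =
          (1 + |rdot n s z|)⁻¹ * rdot n v z := fun v => (prl n v).map_smul _ _
      have h1 := hmax ((1 + |rdot n s z|)⁻¹ • z) ((hsat _).2 ⟨by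
        rw [hsm]
        have : rdot n s z ≤ |rdot n s z| := le_abs_self _
        nlinarith, fun i hi hS => by
        rw [hsm]
        exact mul_nonneg hm.le (hz i hi hS)⟩)
      rw [hsm] at h1
      by_contra h2
      have := mul_pos hm (not_le.1 h2)
      linarith
    · have hp : pickT n G S s c a d = some ((List.range G.length).map fun i =>
          decide (i ∈ pickK n G S s c a d)) := by
        unfold pickT
        rw [if_neg ha0]
      rw [hp]
      refine ⟨fun h => absurd h (by simp), fun T hT => ?_⟩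
      rw [Option.some.injEq] at hT
      have hβ : 0 < rdot n c z0 := by
        have h1 : (0 : ℝ) < (a : ℝ) := by exact_mod_cast (not_le.1 ha0)
        rw [← hval] at h1
        exact (pos_iff_pos_of_mul_pos h1).1 hd'
      have hβeq : ∀ z : Fin n → ℝ, (d : ℝ) * rdot n c z = a ↔ rdot n c z = rdot n c z0 := by
        intro z
        rw [← hval]
        exact mul_right_inj' hd'.ne'
      -- the fold
      have hfold := pick_fold
        (fun K => ∃ z, Sat n (pickE G c a d K) (pickI G S s) z)
        (fun K i => feasB (lpsolve n (pickE G c a d (i :: K)) (pickI G S s) []))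
        (fun K i => feasB_iff n _ _ _)
        (fun K K' hKK' ⟨z, hz⟩ => ⟨z, by
          rw [satE_iff] at hz ⊢
          exact ⟨⟨hz.1.1, fun i hi => hz.1.2 i (hKK' i hi)⟩, hz.2⟩⟩)
        (selI G S) [] ⟨z0, by
          rw [satE_iff]
          exact ⟨⟨hval, fun i hi => absurd hi (by simp)⟩, hz0⟩⟩
      have hKdef : (selI G S).foldl (fun K i => if (fun K i => feasB (lpsolve n
          (pickE G c a d (i :: K)) (pickI G S s) [])) K i = true then i :: K else K) [] =
          pickK n G S s c a d := rfl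
      rw [hKdef] at hfold
      obtain ⟨hf1, -, hf3, hf4⟩ := hfold
      set K := pickK n G S s c a d with hK
      have hKsub : ∀ i ∈ K, i < G.length ∧ S.getD i false = true := by
        intro i hi
        rcases hf3 i hi with h | h
        · exact absurd h (by simp)
        · exact mem_selI.1 h
      have hcone : ∀ z : Fin n → ℝ, (∀ i ∈ (selI G S).toFinset, 0 ≤ prl n (G.getD i []) z) ↔
          z ∈ Cone n G S := by
        intro z
        constructor
        · intro h i hi hS
          exact h i (List.mem_toFinset.2 (mem_selI.2 ⟨hi, hS⟩))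
        · intro h i hi
          obtain ⟨h1, h2⟩ := mem_selI.1 (List.mem_toFinset.1 hi)
          exact h i h1 h2
      obtain ⟨z, h1, h2, h3, h4, h5, h6, h7⟩ := pick_geo (selI G S).toFinset
        (fun i => prl n (G.getD i [])) (prl n s) (prl n c) (rdot n c z0) hβ
        (fun z hz hs => hmax z ((hsat z).2 ⟨hs, (hcone z).1 hz⟩))
        (fun q hq => hv q fun i hi hS => hq i (List.mem_toFinset.2 (mem_selI.2 ⟨hi, hS⟩)))
        K (by
          obtain ⟨z, hz⟩ := hf1
          rw [satE_iff, hβeq] at hz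
          exact ⟨z, (hcone z).2 hz.2.2, hz.2.1, hz.1.1, hz.1.2⟩)
        (by
          rintro i hi hiK ⟨z, hz1, hz2, hz3, hz4, hz5⟩
          refine hf4 i (List.mem_toFinset.1 hi) hiK ⟨z, ?_⟩
          rw [satE_iff, hβeq]
          refine ⟨⟨hz3, ?_⟩, hz2, (hcone z).1 hz1⟩
          intro k hk
          rcases List.mem_cons.1 hk with h | h
          · rw [h]; exact hz5
          · exact hz4 k h)
      have hT' : ∀ i < G.length, T.getD i false = decide (i ∈ K) := by
        intro i hi
        rw [← hT, List.getD_eq_getElem?_getD, List.getElem?_map, List.getElem?_range hi]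
        rfl
      refine ⟨z, ?_, (hcone z).1 h1, h2, ?_, ?_, ?_, ?_⟩
      · rw [← hT]
        simp
      · exact lt_of_lt_of_eq hβ h3.symm
      · intro z' hz'
        have := h4 z' ((hcone z').2 hz')
        have h3' : rdot n c z = rdot n c z0 := h3
        rw [h3']
        exact this
      · intro i hi
        rw [hT' i hi, decide_eq_true_iff]
        constructor
        · intro hiK
          exact ⟨(hKsub i hiK).2, h5 i hiK⟩
        · rintro ⟨hS, h0⟩
          exact h6 i (List.mem_toFinset.2 (mem_selI.2 ⟨hi, hS⟩)) h0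
      · intro q hq
        apply h7 q
        intro i hiK
        obtain ⟨hi, -⟩ := hKsub i hiK
        exact hq i hi (by rw [hT' i hi, decide_eq_true_iff]; exact hiK)

end Pool.Agent.Simplex.EB
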