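import Pool.Agent.Lib.MP_4d246d_lc.CR.LeoVx
import Pool.Agent.Lib.MP_4d246d_lc.CR.Def
import Pool.Agent.Lib.MP_4d246d_lc.CR.Pick

/-!
# The rule for Leontief programs

It acts as if the right hand side were `1`. It chooses a target `u`: an extreme ray of
`A u = 0`, `u ≥ 0` with `c u > 0`, or else an optimal vertex of `A u = 1`, `u ≥ 0`; only the
support of `u` matters. At a vertex `x` the first column of the support of `u` with positive
reduced cost enters.

The optimal vertex is an extreme ray of the cone `A u = s 1`, `(u, s) ≥ 0`, where the ratio of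
`t (c u - s c x₀)` and `s` is largest.
-/

namespace Pool.Agent.Simplex.EB

open Leo Pool.Agent.Lib.PolyTime Pool.Agent.Simplex.QP

/-- the matrix `(A | -1)`, and below `(-A | 1)` -/
def homX (X : Mat) : Mat :=
  (X.1 + 1, (List.range X.2.length).map fun i =>
    X.2.getD i [] ++ [if 2 * i < X.2.length then (-1 : ℚ) else 1])

/-- the vertex `x₀` with name `S₀`, as an integer vector `t (x₀, 1)`, `t > 0` -/
def leoV (X : Mat) (S₀ : List Bool) : List ℤ :=
  dirZ (X.1 + 1) (genM (homX X)) (List.replicate (X.2.length + (X.1 + 1)) true) (S₀ ++ [false])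

/-- the objective `t (c x - s c x₀)` -/
def leoC (X : Mat) (c : List ℤ) (S₀ : List Bool) : List ℤ :=
  (c.map fun y => (leoV X S₀).getD X.1 0 * y) ++ [- dotZ c (leoV X S₀)]

/-- the zeros of the target -/
def leoT (X : Mat) (c : List ℤ) (S₀ : List Bool) : Option (List Bool) :=
  match pickZ X.1 (genM X) (List.replicate (X.2.length + X.1) true) (List.replicate X.1 1) c with
  | some T => some T
  | none => pickZ (X.1 + 1) (genM (homX X)) (List.replicate (X.2.length + (X.1 + 1)) true)
      (unitZ (X.1 + 1) X.1) (leoC X c S₀)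

/-- the name of the edge where column `j` enters -/
def leoE (X : Mat) (S : List Bool) (j : ℕ) : List Bool := S.set (X.2.length + j) false

/-- may the column `j` enter? -/
def leoB (X : Mat) (c : List ℤ) (T S : List Bool) (j : ℕ) : Bool :=
  S.getD (X.2.length + j) false && (!(T.getD (X.2.length + j) false) &&
    decide (0 < dotZ c (dirZ X.1 (genM X) S (leoE X S j))))

/-- the rule for Leontief programs -/
def leoRule : CRule := fun x =>
  match leoT x.1 x.2.1 x.2.2.1 with
  | none => none
  | some T => ((List.range x.1.1).find? (leoB x.1 x.2.1 T x.2.2.2)).map (leoE x.1 x.2.2.2)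

variable {M n : ℕ} {A : Fin M → Fin n → ℚ}

/-- `T` are the zeros of the target `u`; `τ = 0` for a ray, `τ = 1` for a vertex -/
structure Tgt (A : Fin M → Fin n → ℚ) (c : List ℤ) (T : List Bool) (u : Fin n → ℝ) (τ : ℝ) :
    Prop where
  nn : ∀ j, 0 ≤ u j
  tau : 0 ≤ τ
  eq : ∀ i, ap (reA A) u i = τ
  name : ∀ j : Fin n, T.getD (M + M + j) false = true ↔ u j = 0
  line : ∀ q : Fin n → ℝ, (∀ i, ap (reA A) q i = 0) → (∀ j, u j = 0 → q j = 0) →
    ∃ t : ℝ, q = t • u
  best : ∀ x, Bas (reA A) (fun _ => 1) x → rdot n c (u - τ • x) ≤ 0 →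
    ∀ z : Fin n → ℝ, (∀ i, ap (reA A) z i = 0) → (∀ j, x j = 0 → 0 ≤ z j) → rdot n c z ≤ 0

end Pool.Agent.Simplex.EB
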