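import Pool.Agent.Lib.MP_4d246d_lc.CR.LeoLin

/-!
# Edges of Leontief programs

At a basic feasible solution `x` of `a x = b`, `b > 0`, each column `j` with `x j = 0` gives the
direction `z` of an edge: `a z = 0`, `z j = 1`, `z k = 0` for the other `k` with `x k = 0`.
-/

namespace Pool.Agent.Simplex.EB.Leo

open Finset

variable {M n : ℕ} {a : Fin M → Fin n → ℝ} {b v : Fin M → ℝ} {x y u w z : Fin n → ℝ}

/-- The directions of the edges: `z j = 1`, `z k = 0` for the other `k` with `x k = 0`. -/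
structure EDir (a : Fin M → Fin n → ℝ) (x : Fin n → ℝ) (j : Fin n) (z : Fin n → ℝ) : Prop where
  ker : ∀ i, ap a z i = 0
  one : z j = 1
  zero : ∀ k, x k = 0 → k ≠ j → z k = 0

private theorem leoed_single (a : Fin M → Fin n → ℝ) (j : Fin n) (i : Fin M) :
    ap a (Pi.single j 1) i = a i j := by
  unfold ap
  rw [Finset.sum_eq_single j]
  · rw [Pi.single_eq_same, mul_one]
  · intro k _ hk
    rw [Pi.single_eq_of_ne hk, mul_zero]
  · intro h
    exact absurd (Finset.mem_univ j) h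

theorem Bas.exists_dir (hA : LR a) (hb : ∀ i, 0 < b i) (hx : Bas a b x) {j : Fin n}
    (hj : x j = 0) : ∃ z, EDir a x j z := by
  obtain ⟨q, h1, h2⟩ := hx.exists_sol hA hb fun i => - a i j
  refine ⟨q + Pi.single j 1, ⟨fun i => ?_, ?_, fun k hk hkj => ?_⟩⟩
  · rw [ap_add, h1, leoed_single, neg_add_cancel]
  · rw [Pi.add_apply, h2 j hj, Pi.single_eq_same, zero_add]
  · rw [Pi.add_apply, h2 k hk, Pi.single_eq_of_ne hkj, zero_add]

/-- the line of an edge -/
theorem EDir.line (hx : Ind a x) {j : Fin n} (hz : EDir a x j z) {q : Fin n → ℝ}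
    (hq : ∀ i, ap a q i = 0) (hq' : ∀ k, x k = 0 → k ≠ j → q k = 0) : q = q j • z := by
  refine sub_eq_zero.1 (hx _ (fun i => ?_) fun k hk => ?_)
  · rw [ap_sub, ap_smul, hq, hz.ker, mul_zero, sub_zero]
  · rw [Pi.sub_apply, Pi.smul_apply, smul_eq_mul]
    by_cases hkj : k = j
    · rw [hkj, hz.one, mul_one, sub_self]
    · rw [hq' k hk hkj, hz.zero k hk hkj, mul_zero, sub_zero]

/-- If a vector of the kernel is nonnegative outside the support of `x` and `f` is positive on it,
then `f` is positive on the direction of an edge of its support: `q = ∑ q_j z^j`, over the `j` with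
`x j = 0`. -/
theorem Bas.exists_improving (hA : LR a) (hb : ∀ i, 0 < b i) (hx : Bas a b x)
    {q : Fin n → ℝ} (hq : ∀ i, ap a q i = 0) (hq' : ∀ j, x j = 0 → 0 ≤ q j)
    (f : (Fin n → ℝ) →ₗ[ℝ] ℝ) (hf : 0 < f q) :
    ∃ j z, x j = 0 ∧ 0 < q j ∧ EDir a x j z ∧ 0 < f z := by
  classical
  have hd : ∀ j : Fin n, ∃ z : Fin n → ℝ, x j = 0 → EDir a x j z := by
    intro j
    by_cases hj : x j = 0
    · obtain ⟨z, hz⟩ := hx.exists_dir hA hb hj
      exact ⟨z, fun _ => hz⟩
    · exact ⟨0, fun h => absurd h hj⟩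
  choose Z hZ using hd
  set S : Finset (Fin n) := Finset.univ.filter fun j => x j = 0 with hS
  have hq0 : q - ∑ j ∈ S, q j • Z j = 0 := by
    refine hx.ind _ (fun i => ?_) fun k hk => ?_
    · have h1 : ap a (∑ j ∈ S, q j • Z j) i = 0 := by
        have h2 : apL a (∑ j ∈ S, q j • Z j) = ∑ j ∈ S, q j • apL a (Z j) := by
          rw [map_sum]
          exact Finset.sum_congr rfl fun j _ => (apL a).map_smul _ _
        rw [← apL_apply, h2, Finset.sum_apply]
        refine Finset.sum_eq_zero fun j hj => ?_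
        rw [Pi.smul_apply, apL_apply, (hZ j (Finset.mem_filter.1 hj).2).ker, smul_zero]
      rw [ap_sub, hq, h1, sub_zero]
    · rw [Pi.sub_apply, Finset.sum_apply, Finset.sum_eq_single k]
      · rw [Pi.smul_apply, (hZ k hk).one, smul_eq_mul, mul_one, sub_self]
      · intro j hj hjk
        rw [Pi.smul_apply, (hZ j (Finset.mem_filter.1 hj).2).zero k hk (Ne.symm hjk), smul_zero]
      · intro h
        exact absurd (Finset.mem_filter.2 ⟨Finset.mem_univ k, hk⟩) h
  have hfq : f q = ∑ j ∈ S, q j * f (Z j) := by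
    rw [sub_eq_zero.1 hq0, map_sum]
    refine Finset.sum_congr rfl fun j hj => ?_
    rw [← sub_eq_zero.1 hq0, map_smul, smul_eq_mul]
  rw [hfq] at hf
  obtain ⟨j, hj, hpos⟩ : ∃ j ∈ S, 0 < q j * f (Z j) := by
    by_contra hcon
    push Not at hcon
    exact absurd hf (not_lt.2 (Finset.sum_nonpos hcon))
  have hxj : x j = 0 := (Finset.mem_filter.1 hj).2
  have hqj : 0 ≤ q j := hq' j hxj
  have hqj' : 0 < q j := by
    rcases hqj.lt_or_eq with h | h
    · exact h
    · rw [← h, zero_mul] at hpos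
      exact absurd hpos (lt_irrefl _)
  exact ⟨j, Z j, hxj, hqj', hZ j hxj, (mul_pos_iff_of_pos_left hqj').1 hpos⟩

/-- A step: the policy changes in one row, there the new column enters. -/
theorem Pol.step (hA : LR a) {π π' : Fin M → Fin n} (hπ : Pol a x π) (hπ' : Pol a y π')
    {j : Fin n} (hj : x j = 0) (hj' : y j ≠ 0) (hk : ∀ k, x k = 0 → k ≠ j → y k = 0) :
    ∃ i, 0 < a i j ∧ π' i = j ∧ ∀ k, k ≠ i → π' k = π k := by
  obtain ⟨i, hi⟩ := hπ'.surj j hj'
  refine ⟨i, ?_, hi, fun k hki => ?_⟩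
  · rw [← hi]
    exact hπ'.pos i
  · have h1 : π' k ≠ j := fun h => hki (hπ'.inj hA (h.trans hi.symm))
    have h2 : x (π' k) ≠ 0 := fun h => hπ'.ne k (hk _ h h1)
    obtain ⟨i', hi'⟩ := hπ.surj _ h2
    have h3 : 0 < a i' (π' k) := by
      rw [← hi']
      exact hπ.pos i'
    rw [← hi', hA _ _ _ h3 (hπ'.pos k)]

end Pool.Agent.Simplex.EB.Leo
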