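import Pool.Agent.Lib.MP_4d246d_lc.CR.LeoDef
import Pool.Agent.Lib.MP_4d246d_lc.CR.RulesPoly

/-!
# The rule for Leontief programs is computed in polynomial time
-/

namespace Pool.Agent.Simplex.EB

open Pool.Agent.Lib.PolyTime Pool.Agent.Simplex.QP

section

variable {α : Type*} [TEnc α] {X : α → Mat} {c : α → List ℤ} {S S₀ T : α → List Bool} {j : α → ℕ}

private theorem polyF_homX (hX : PolyF X) : PolyF (fun a => homX (X a)) := by
  refine (hX.fst.natAdd (PolyF.const 1)).pair (hX.snd.length.range.map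
    (h := fun a i => (X a).2.getD i [] ++ [if 2 * i < (X a).2.length then (-1 : ℚ) else 1]) ?_)
  have h2 : PolyF (fun p : α × ℕ => (X p.1).2) := (hX.comp PolyF.fst').snd
  refine (h2.getDL PolyF.snd' (PolyF.const [])).append (PolyF.singleton ?_)
  exact PolyF.ite (p := fun p : α × ℕ => 2 * p.2 < (X p.1).2.length)
    (((PolyF.const 2).natMul PolyF.snd').natLt h2.length) (PolyF.const _) (PolyF.const _)

private theorem polyF_leoV (hX : PolyF X) (hS : PolyF S₀) : PolyF (fun a => leoV (X a) (S₀ a)) :=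
  PolyF.dirZ (hX.fst.natAdd (PolyF.const 1)) (polyF_genM (polyF_homX hX))
    (PolyF.replicate (hX.snd.length.natAdd (hX.fst.natAdd (PolyF.const 1))) (PolyF.const true))
    (hS.append (PolyF.const [false]))

private theorem polyF_leoC (hX : PolyF X) (hc : PolyF c) (hS : PolyF S₀) :
    PolyF (fun a => leoC (X a) (c a) (S₀ a)) := by
  have hV := polyF_leoV hX hS
  refine (hc.map (h := fun a y => (leoV (X a) (S₀ a)).getD (X a).1 0 * y) ?_).append
    (PolyF.singleton (PolyF.dotZ hc hV).intNeg)
  exact ((hV.comp PolyF.fst').getDL (hX.comp PolyF.fst').fst (PolyF.const 0)).intMul PolyF.snd'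

private theorem polyF_leoT (hX : PolyF X) (hc : PolyF c) (hS : PolyF S₀) :
    PolyF (fun a => leoT (X a) (c a) (S₀ a)) := by
  refine PolyF.optionCases
    (o := fun a => pickZ (X a).1 (genM (X a)) (List.replicate ((X a).2.length + (X a).1) true)
      (List.replicate (X a).1 1) (c a))
    (g := fun a => pickZ ((X a).1 + 1) (genM (homX (X a)))
      (List.replicate ((X a).2.length + ((X a).1 + 1)) true)
      (unitZ ((X a).1 + 1) (X a).1) (leoC (X a) (c a) (S₀ a)))
    (h := fun p : α × List Bool => some p.2) ?_ ?_ (PolyF.some PolyF.snd') ?_ ?_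
  · exact polyF_pickZ hX.fst (polyF_genM hX)
      (PolyF.replicate (hX.snd.length.natAdd hX.fst) (PolyF.const true))
      (PolyF.replicate hX.fst (PolyF.const 1)) hc
  · exact polyF_pickZ (hX.fst.natAdd (PolyF.const 1)) (polyF_genM (polyF_homX hX))
      (PolyF.replicate (hX.snd.length.natAdd (hX.fst.natAdd (PolyF.const 1))) (PolyF.const true))
      (PolyF.unitZ (hX.fst.natAdd (PolyF.const 1)) hX.fst) (polyF_leoC hX hc hS)
  · intro a h
    unfold leoT
    simp only [h]
  · intro a b h
    unfold leoT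
    simp only [h]

private theorem polyF_leoE (hX : PolyF X) (hS : PolyF S) (hj : PolyF j) :
    PolyF (fun a => leoE (X a) (S a) (j a)) :=
  PolyF.set (hX.snd.length.natAdd hj) hS (PolyF.const false)

private theorem polyF_leoB (hX : PolyF X) (hc : PolyF c) (hT : PolyF T) (hS : PolyF S)
    (hj : PolyF j) : PolyF (fun a => leoB (X a) (c a) (T a) (S a) (j a)) :=
  (hS.getDL (hX.snd.length.natAdd hj) (PolyF.const false)).and
    (((hT.getDL (hX.snd.length.natAdd hj) (PolyF.const false)).not).and
      ((PolyF.const 0).intLt (PolyF.dotZ hc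
        (PolyF.dirZ hX.fst (polyF_genM hX) hS (polyF_leoE hX hS hj)))))

end

theorem polyF_leoRule : PolyF leoRule := by
  refine PolyF.optionCases
    (o := fun x : Mat × List ℤ × List Bool × List Bool => leoT x.1 x.2.1 x.2.2.1)
    (g := fun _ => none)
    (h := fun p : (Mat × List ℤ × List Bool × List Bool) × List Bool =>
      ((List.range p.1.1.1).find? (leoB p.1.1 p.1.2.1 p.2 p.1.2.2.2)).map
        (leoE p.1.1 p.1.2.2.2))
    (polyF_leoT PolyF.fst' PolyF.snd'.fst PolyF.snd'.snd.fst) (PolyF.const _) ?_ ?_ ?_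
  · refine PolyF.optionMap (h := fun (p : (Mat × List ℤ × List Bool × List Bool) × List Bool) j =>
        leoE p.1.1 p.1.2.2.2 j)
      (PolyF.find? (p := fun (p : (Mat × List ℤ × List Bool × List Bool) × List Bool) j =>
        leoB p.1.1 p.1.2.1 p.2 p.1.2.2.2 j) (PolyF.fst'.fst.fst.range) ?_) ?_
    · exact polyF_leoB PolyF.fst'.fst.fst PolyF.fst'.fst.snd.fst PolyF.fst'.snd
        PolyF.fst'.fst.snd.snd.snd PolyF.snd'
    · exact polyF_leoE PolyF.fst'.fst.fst PolyF.fst'.fst.snd.snd.snd PolyF.snd'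
  · intro x h
    unfold leoRule
    simp only [h]
  · intro x b h
    unfold leoRule
    simp only [h]

end Pool.Agent.Simplex.EB
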