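import Pool.Agent.Lib.MP_4d246d_lc.CR.Fin
import Pool.Agent.Lib.MP_4d246d_lc.CR.Fan

/-!
# The optimal blind rule on programs with the vertex names of a 0/1 polytope or of a polytope with
bounded ratio of slacks
-/

namespace Pool.Agent.Simplex.EB

variable {m n : ℕ}

theorem RLP.SameNames.with_c {D D' : RLP m n} (h : D.SameNames D') :
    D.SameNames ⟨D'.A, D'.b, D.c⟩ := h

theorem RLP.SameNames.size_eq {D D' : RLP m n} (h : D.SameNames D') (c : Fin n → ℝ) :
    (⟨D'.A, D'.b, c⟩ : RLP m n).size = D.size := by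
  unfold RLP.size RLP.mat
  rw [h.1]

/-- **The optimal blind rule is polynomial on all polytopes with the vertex names of a 0/1 polytope
or of a polytope with bounded ratio of slacks.** -/
theorem Optimal.shape {U : BlindRule} (hU : Optimal U) : ∃ P : Polynomial ℕ,
    ∀ (m n : ℕ) (D D' : RLP m n), D.SameNames D' →
      (D'.ZeroOne → Solves U D (P.eval D.size)) ∧
      ∀ k, D'.Ratio k → Solves U D (P.eval (D.size + k)) := by
  obtain ⟨P, hP⟩ := hU.zeroOne
  obtain ⟨R, hR⟩ := hU.ratio
  refine ⟨P + R, fun m n D D' h => ⟨fun h0 => ?_, fun k hk => ?_⟩⟩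
  · have h1 := hP m n ⟨D'.A, D'.b, D.c⟩ h0
    rw [h.size_eq] at h1
    refine (solves_transfer h.with_c rfl h1).mono ?_
    rw [Polynomial.eval_add]
    exact Nat.le_add_right _ _
  · have h1 := hR m n ⟨D'.A, D'.b, D.c⟩ k hk
    rw [h.size_eq] at h1
    refine (solves_transfer h.with_c rfl h1).mono ?_
    rw [Polynomial.eval_add]
    exact Nat.le_add_left _ _

end Pool.Agent.Simplex.EB
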