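import Pool.Agent.Lib.MP_4d246d_lc.CR.Leo
import Pool.Agent.Lib.MP_4d246d_lc.CR.LeoPoly
import Pool.Agent.Lib.MP_4d246d_lc.CR.Shape

/-!
# The optimal blind rule on Leontief programs
-/

namespace Pool.Agent.Simplex.EB

open Leo Pool.Agent.Lib.PolyTime Pool.Agent.Simplex.QP

variable {M n : ℕ} {A : Fin M → Fin n → ℚ} {b b' : Fin M → ℝ} {c c' : Fin n → ℝ}

private theorem leo_names (hA : Leontief A) (hb : ∀ i, 0 < b i) (hb' : ∀ i, 0 < b' i)
    {S : List Bool} (h : ∃ x, (eqProg A b c).Vertex x ∧ (eqProg A b c).name x = S) :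
    ∃ x, (eqProg A b' c').Vertex x ∧ (eqProg A b' c').name x = S := by
  obtain ⟨x, hx, rfl⟩ := h
  rw [eqProg_vertex] at hx
  obtain ⟨w, hw, hwx⟩ := hx.transfer hA.lr hb hb'
  exact ⟨w, eqProg_vertex.2 hw, (eqProg_name hw.eq hx.eq).2 hwx⟩

/-- The vertices of a Leontief program have the same names for all positive right hand sides. -/
theorem leo_sameNames (hA : Leontief A) (hb : ∀ i, 0 < b i) (hb' : ∀ i, 0 < b' i) :
    (eqProg A b c).SameNames (eqProg A b' c') :=
  ⟨rfl, fun _ => ⟨leo_names hA hb hb', leo_names hA hb' hb⟩⟩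

/-- **The optimal blind rule is polynomial on all Leontief programs.** -/
theorem Optimal.leontief {U : BlindRule} (hU : Optimal U) : ∃ P : Polynomial ℕ,
    ∀ (M n : ℕ) (A : Fin M → Fin n → ℚ) (b : Fin M → ℝ) (c : Fin n → ℝ), Leontief A →
      (∀ i, 0 < b i) → Solves U (eqProg A b c) (P.eval (eqProg A b c).size) := by
  obtain ⟨ρ, P, hρ, hP⟩ := blind_of_crule polyF_leoRule
  obtain ⟨Q, hQ⟩ := hU ρ hρ.tm2_word
  refine ⟨Q.comp (Polynomial.X + P * (2 * Polynomial.X + 2)), fun M n A b c hA hb => ?_⟩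
  have h1 := solves_transfer (leo_sameNames (c := c) hA hb (fun _ => one_pos)) rfl
    (hP _ _ _ _ (leo_good hA c))
  refine (hQ _ _ _ _ h1).mono ?_
  rw [Polynomial.eval_comp]
  refine peval_mono Q ?_
  have h2 := dims_le_size (eqProg A b c)
  have h3 : (eqProg A (fun _ => 1) c).size = (eqProg A b c).size := rfl
  simp only [Polynomial.eval_add, Polynomial.eval_mul, Polynomial.eval_X, Polynomial.eval_ofNat]
  rw [h3]
  exact Nat.add_le_add_left (Nat.mul_le_mul_left _ (by omega)) _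

end Pool.Agent.Simplex.EB
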