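import Mathlib

/-!
# Linear algebra of Leontief matrices

A matrix `a` with at most one positive entry in each column (`LR a`). `Bas a b x`: `x ≥ 0`,
`a x = b`, and the columns in the support of `x` are linearly independent. If `b > 0`, then the
support of `x` has exactly one column `π i` with `0 < a i (π i)` for each row `i`.
-/

namespace Pool.Agent.Simplex.EB.Leo

open Finset

variable {M n : ℕ} {a : Fin M → Fin n → ℝ} {b v : Fin M → ℝ} {x y u w z : Fin n → ℝ}

/-- at most one positive entry in each column -/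
def LR (a : Fin M → Fin n → ℝ) : Prop := ∀ j i i', 0 < a i j → 0 < a i' j → i = i'

/-- the product `a x` -/
def ap (a : Fin M → Fin n → ℝ) (x : Fin n → ℝ) (i : Fin M) : ℝ := ∑ j, a i j * x j

/-- the product as a linear map -/
def apL (a : Fin M → Fin n → ℝ) : (Fin n → ℝ) →ₗ[ℝ] (Fin M → ℝ) where
  toFun := ap a
  map_add' x y := by
    funext i
    simp only [ap, Pi.add_apply, mul_add, Finset.sum_add_distrib]
  map_smul' t x := by
    funext i
    simp only [ap, Pi.smul_apply, smul_eq_mul, RingHom.id_apply, Finset.mul_sum]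
    exact Finset.sum_congr rfl fun j _ => by ring

theorem apL_apply (a : Fin M → Fin n → ℝ) (x : Fin n → ℝ) : apL a x = ap a x := rfl

theorem ap_add (a : Fin M → Fin n → ℝ) (x y : Fin n → ℝ) (i : Fin M) :
    ap a (x + y) i = ap a x i + ap a y i := congrFun ((apL a).map_add x y) i

theorem ap_sub (a : Fin M → Fin n → ℝ) (x y : Fin n → ℝ) (i : Fin M) :
    ap a (x - y) i = ap a x i - ap a y i := congrFun ((apL a).map_sub x y) i

theorem ap_smul (a : Fin M → Fin n → ℝ) (t : ℝ) (x : Fin n → ℝ) (i : Fin M) :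
    ap a (t • x) i = t * ap a x i := congrFun ((apL a).map_smul t x) i

/-- the columns in the support of `x` are linearly independent -/
def Ind (a : Fin M → Fin n → ℝ) (x : Fin n → ℝ) : Prop :=
  ∀ q : Fin n → ℝ, (∀ i, ap a q i = 0) → (∀ j, x j = 0 → q j = 0) → q = 0

/-- basic feasible solutions of `a x = b`, `x ≥ 0` -/
structure Bas (a : Fin M → Fin n → ℝ) (b : Fin M → ℝ) (x : Fin n → ℝ) : Prop where
  nn : ∀ j, 0 ≤ x j
  eq : ∀ i, ap a x i = b i
  ind : Ind a x

/-- `π i` is the column of row `i` in the support of `x` -/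
structure Pol (a : Fin M → Fin n → ℝ) (x : Fin n → ℝ) (π : Fin M → Fin n) : Prop where
  pos : ∀ i, 0 < a i (π i)
  ne : ∀ i, x (π i) ≠ 0
  surj : ∀ j, x j ≠ 0 → ∃ i, π i = j

/-- Columns in the support of a nonnegative vector that makes row `i` positive. -/
theorem exists_pos_col (hx : ∀ j, 0 ≤ x j) {i : Fin M} (hi : 0 < ap a x i) :
    ∃ j, 0 < a i j ∧ x j ≠ 0 := by
  by_contra h
  push Not at h
  refine absurd hi (not_lt.2 (Finset.sum_nonpos fun j _ => ?_))
  by_cases hj : 0 < a i j
  · rw [h j hj, mul_zero]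
  · exact mul_nonpos_of_nonpos_of_nonneg (not_lt.1 hj) (hx j)

/-- The number of columns in the support is at most the number of rows (`Ind`), and each row has a
column: so the support is given by a policy. -/
theorem Bas.exists_pol (hA : LR a) (hb : ∀ i, 0 < b i) (hx : Bas a b x) : ∃ π, Pol a x π := by
  classical
  have h1 : ∀ i, ∃ j, 0 < a i j ∧ x j ≠ 0 := fun i =>
    exists_pos_col hx.nn (by rw [hx.eq]; exact hb i)
  choose π hπ1 hπ2 using h1
  have hinj : Function.Injective fun i => (⟨π i, hπ2 i⟩ : {j // x j ≠ 0}) := by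
    intro i i' hii
    have h2 : π i = π i' := congrArg Subtype.val hii
    exact hA (π i) i i' (hπ1 i) (by rw [h2]; exact hπ1 i')
  let X0 : ({j // x j ≠ 0} → ℝ) →ₗ[ℝ] (Fin n → ℝ) :=
    { toFun := fun r j => if h : x j ≠ 0 then r ⟨j, h⟩ else 0
      map_add' := by
        intro r r'
        funext j
        simp only [Pi.add_apply]
        split_ifs
        · rfl
        · rw [add_zero]
      map_smul' := by
        intro t r
        funext j
        simp only [Pi.smul_apply, smul_eq_mul, RingHom.id_apply]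
        split_ifs
        · rfl
        · rw [mul_zero] }
  let E : ({j // x j ≠ 0} → ℝ) →ₗ[ℝ] (Fin M → ℝ) := (apL a).comp X0
  have hE : Function.Injective E := by
    rw [← LinearMap.ker_eq_bot, LinearMap.ker_eq_bot']
    intro r hr
    have h2 : X0 r = 0 := by
      refine hx.ind _ (fun i => congrFun hr i) fun j hj => ?_
      show (if h : x j ≠ 0 then r ⟨j, h⟩ else 0) = 0
      rw [dif_neg (fun h => h hj)]
    funext j
    have h3 : (if h : x j.1 ≠ 0 then r ⟨j.1, h⟩ else 0) = 0 := congrFun h2 j.1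
    rw [dif_pos j.2] at h3
    exact h3
  have hcard := LinearMap.finrank_le_finrank_of_injective hE
  rw [Module.finrank_fintype_fun_eq_card, Module.finrank_fintype_fun_eq_card] at hcard
  have hbij : Function.Bijective fun i => (⟨π i, hπ2 i⟩ : {j // x j ≠ 0}) :=
    (Fintype.bijective_iff_injective_and_card _).2
      ⟨hinj, le_antisymm (Fintype.card_le_of_injective _ hinj) hcard⟩
  refine ⟨π, hπ1, hπ2, fun j hj => ?_⟩
  obtain ⟨i, hi⟩ := hbij.2 ⟨j, hj⟩
  exact ⟨i, congrArg Subtype.val hi⟩

theorem Pol.inj (hA : LR a) {π : Fin M → Fin n} (h : Pol a x π) : Function.Injective π := by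
  intro i i' hii
  exact hA (π i) i i' (h.pos i) (by rw [hii]; exact h.pos i')

/-- `M` independent columns in `ℝ^M` span. -/
theorem Bas.exists_sol (hA : LR a) (hb : ∀ i, 0 < b i) (hx : Bas a b x) (v : Fin M → ℝ) :
    ∃ q : Fin n → ℝ, (∀ i, ap a q i = v i) ∧ ∀ j, x j = 0 → q j = 0 := by
  classical
  obtain ⟨π, hπ⟩ := hx.exists_pol hA hb
  have hinj := hπ.inj hA
  let X : (Fin M → ℝ) →ₗ[ℝ] (Fin n → ℝ) :=
    { toFun := fun r j => ∑ i, if π i = j then r i else 0
      map_add' := by
        intro r r'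
        funext j
        simp only [Pi.add_apply]
        rw [← Finset.sum_add_distrib]
        refine Finset.sum_congr rfl fun i _ => ?_
        split_ifs
        · rfl
        · rw [add_zero]
      map_smul' := by
        intro t r
        funext j
        simp only [Pi.smul_apply, smul_eq_mul, RingHom.id_apply]
        rw [Finset.mul_sum]
        refine Finset.sum_congr rfl fun i _ => ?_
        split_ifs
        · rfl
        · rw [mul_zero] }
  have hX0 : ∀ r j, x j = 0 → X r j = 0 := by
    intro r j hj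
    show (∑ i : Fin M, if π i = j then r i else (0 : ℝ)) = 0
    refine Finset.sum_eq_zero fun i _ => ?_
    rw [if_neg]
    rintro rfl
    exact hπ.ne i hj
  have hXπ : ∀ r i, X r (π i) = r i := by
    intro r i
    show (∑ i' : Fin M, if π i' = π i then r i' else (0 : ℝ)) = r i
    rw [Finset.sum_eq_single i]
    · rw [if_pos rfl]
    · intro i' _ hne
      rw [if_neg]
      exact fun h => hne (hinj h)
    · intro h
      exact absurd (Finset.mem_univ i) h
  let T : (Fin M → ℝ) →ₗ[ℝ] (Fin M → ℝ) := (apL a).comp X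
  have hT : Function.Injective T := by
    rw [← LinearMap.ker_eq_bot, LinearMap.ker_eq_bot']
    intro r hr
    have h2 : X r = 0 := hx.ind _ (fun i => congrFun hr i) (hX0 r)
    funext i
    rw [← hXπ r i, h2]
    rfl
  obtain ⟨r, hr⟩ := LinearMap.injective_iff_surjective.1 hT v
  exact ⟨X r, fun i => congrFun hr i, hX0 r⟩

/-- The lemma on M-matrices. Suppose `w (π i) ≤ 0` for some `i`, and let `t ≥ 0` be the largest
number `- w (π i) / x (π i)`, attained for `i₀`. Then `w + t x ≥ 0` on the support, and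
`(w + t x) (π i₀) = 0`, so row `i₀` of `a (w + t x)` is `≤ 0`, but it is `(a w) i₀ + t b i₀ > 0`. -/
theorem Bas.pos (hA : LR a) (hb : ∀ i, 0 < b i) (hx : Bas a b x)
    (hw : ∀ j, x j = 0 → w j = 0) (hw' : ∀ i, 0 < ap a w i) : ∀ j, x j ≠ 0 → 0 < w j := by
  classical
  obtain ⟨π, hπ⟩ := hx.exists_pol hA hb
  intro j0 hj0
  by_contra hcon
  push Not at hcon
  obtain ⟨k, rfl⟩ := hπ.surj j0 hj0
  have hxp : ∀ i, 0 < x (π i) := fun i => lt_of_le_of_ne (hx.nn _) (hπ.ne i).symm
  obtain ⟨i0, -, hmax⟩ := Finset.exists_max_image (Finset.univ : Finset (Fin M))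
    (fun i => -w (π i) / x (π i)) ⟨k, Finset.mem_univ k⟩
  set t : ℝ := -w (π i0) / x (π i0) with ht
  have ht0 : 0 ≤ t := le_trans (div_nonneg (by linarith) (hxp k).le) (hmax k (Finset.mem_univ k))
  have hz0 : w (π i0) + t * x (π i0) = 0 := by
    rw [ht, div_mul_cancel₀ _ (hxp i0).ne']
    ring
  have hzn : ∀ i, 0 ≤ w (π i) + t * x (π i) := by
    intro i
    have h1 := hmax i (Finset.mem_univ i)
    rw [div_le_iff₀ (hxp i)] at h1
    linarith
  have hneg : ap a (w + t • x) i0 ≤ 0 := by
    refine Finset.sum_nonpos fun j _ => ?_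
    by_cases hj : x j = 0
    · simp only [Pi.add_apply, Pi.smul_apply, smul_eq_mul, hw j hj, hj, mul_zero, add_zero, le_refl]
    · obtain ⟨i, rfl⟩ := hπ.surj j hj
      by_cases hi : i = i0
      · subst hi
        simp only [Pi.add_apply, Pi.smul_apply, smul_eq_mul, hz0, mul_zero, le_refl]
      · have ha : a i0 (π i) ≤ 0 := by
          by_contra hpos
          push Not at hpos
          exact hi (hA (π i) i i0 (hπ.pos i) hpos)
        refine mul_nonpos_of_nonpos_of_nonneg ha ?_
        simp only [Pi.add_apply, Pi.smul_apply, smul_eq_mul]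
        exact hzn i
  rw [ap_add, ap_smul, hx.eq] at hneg
  have h2 := hw' i0
  have h3 := mul_nonneg ht0 (hb i0).le
  linarith

/-- The same supports for all positive right hand sides. -/
theorem Bas.transfer (hA : LR a) (hb : ∀ i, 0 < b i) (hx : Bas a b x) (hv : ∀ i, 0 < v i) :
    ∃ w, Bas a v w ∧ ∀ j, w j = 0 ↔ x j = 0 := by
  obtain ⟨w, hw1, hw2⟩ := hx.exists_sol hA hb v
  have hw3 := hx.pos hA hb hw2 fun i => by rw [hw1]; exact hv i
  have hiff : ∀ j, w j = 0 ↔ x j = 0 := by
    intro j
    refine ⟨fun h => ?_, hw2 j⟩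
    by_contra hne
    exact (hw3 j hne).ne' h
  refine ⟨w, ⟨fun j => ?_, hw1, fun q hq hq' => hx.ind q hq fun j hj => hq' j ((hiff j).2 hj)⟩,
    hiff⟩
  by_cases h : x j = 0
  · rw [hw2 j h]
  · exact (hw3 j h).le

end Pool.Agent.Simplex.EB.Leo
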