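import Pool.Agent.Lib.MP_4d246d_lc.CR.LeoVx

/-!
# Edges of the programs `A x = b`, `x ≥ 0`, bounded objectives
-/

namespace Pool.Agent.Simplex.EB

open Leo Pool.Agent.Lib.PolyTime Pool.Agent.Simplex.QP

variable {M n : ℕ} {A : Fin M → Fin n → ℚ} {b b' : Fin M → ℝ} {c c' : Fin n → ℝ}
  {x x' z : Fin n → ℝ}

/-- the direction of an edge: column `j` enters -/
theorem eqProg_dir (hx : Bas (reA A) b x) {j : Fin n} (hj : x j = 0)
    (hz : EDir (reA A) x j z) : (eqProg A b c).sys.Dir (M + M + n) x z ∧
      (eqProg A b c).edgeName x z = ((eqProg A b c).name x).set (M + M + j) false := by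
  classical
  have hrow : ∀ i < M + M, (eqProg A b c).sys.ln i z = 0 := eqProg_ln.2 hz.ker
  have hvar : ∀ (w : Fin n → ℝ) (k : Fin n), (eqProg A b c).sys.ln (M + M + (k : ℕ)) w = w k := by
    intro w k
    rw [RLP.sys_ln]
    exact lnA_var _ k w
  have hslv : ∀ k : Fin n, (eqProg A b c).sys.sl (M + M + (k : ℕ)) x = x k := fun k =>
    RLP.sl_var _ k x
  have hz0 : z ≠ 0 := by
    intro h
    have h1 := hz.one
    rw [h] at h1
    exact zero_ne_one h1
  constructor
  · refine ⟨?_, hz0, ?_, ?_⟩
    · rw [RLP.forall_lt (m := M + M) (n := n)]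
      refine ⟨fun i _ => (hrow i i.2).ge, fun k hk => ?_⟩
      rw [hslv] at hk
      rw [hvar]
      by_cases hkj : k = j
      · rw [hkj, hz.one]
        exact zero_le_one
      · rw [hz.zero k hk hkj]
    · intro i hi
      exact (Sys.mem_T _ |>.1 hi).2.2
    · intro q hq
      refine ⟨q j, ?_⟩
      refine hz.line hx.ind ?_ ?_
      · rw [← eqProg_ln (b := b) (c := c)]
        intro i hi
        exact hq i (Sys.mem_T _ |>.2 ⟨by omega, eqProg_tight hx.eq hi, hrow i hi⟩)
      · intro k hk hkj
        have h1 := hq (M + M + (k : ℕ)) (Sys.mem_T _ |>.2 ⟨by omega, by rw [hslv]; exact hk,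
          by rw [hvar]; exact hz.zero k hk hkj⟩)
        rwa [hvar] at h1
  · have hlen1 := RLP.length_edgeName (eqProg A b c) x z
    have hlen2 := RLP.length_name (eqProg A b c) x
    have key : ∀ i < M + M + n, (((eqProg A b c).edgeName x z).getD i false = true ↔
        (((eqProg A b c).name x).set (M + M + j) false).getD i false = true) := by
      rw [RLP.forall_lt (m := M + M) (n := n)]
      constructor
      · intro i
        rw [RLP.getD_edgeName _ _ _ (by omega)]
        have h1 : (((eqProg A b c).name x).set (M + M + j) false).getD (i : ℕ) false =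
            ((eqProg A b c).name x).getD (i : ℕ) false := by
          rw [List.getD_eq_getElem?_getD, List.getD_eq_getElem?_getD,
            List.getElem?_set_ne (by omega)]
        rw [h1, RLP.getD_name _ _ (by omega)]
        exact ⟨fun h => h.1, fun h => ⟨h, hrow i i.2⟩⟩
      · intro k
        rw [RLP.getD_edgeName _ _ _ (by omega), hslv, hvar]
        by_cases hkj : k = j
        · subst hkj
          have h1 : (((eqProg A b c).name x).set (M + M + (k : ℕ)) false).getD
              (M + M + (k : ℕ)) false = false := by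
            rw [List.getD_eq_getElem?_getD, List.getElem?_set_self (by rw [hlen2]; omega)]
            rfl
          rw [h1, hz.one]
          simp
        · have h1 : (((eqProg A b c).name x).set (M + M + (j : ℕ)) false).getD
              (M + M + (k : ℕ)) false = ((eqProg A b c).name x).getD (M + M + (k : ℕ)) false := by
            rw [List.getD_eq_getElem?_getD, List.getD_eq_getElem?_getD,
              List.getElem?_set_ne]
            intro h
            apply hkj
            apply Fin.ext
            omega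
          rw [h1, eqProg_getD]
          exact ⟨fun h => h.1, fun h => ⟨h, hz.zero k h hkj⟩⟩
    apply List.ext_getElem
    · rw [List.length_set, hlen1, hlen2]
    · intro i h1 h2
      have h3 : i < M + M + n := by rwa [hlen1] at h1
      have h4 := key i h3
      rw [List.getD_eq_getElem _ _ h1, List.getD_eq_getElem _ _ h2] at h4
      exact Bool.eq_iff_iff.2 h4

/-- the point moves a bit along a direction of the cone -/
theorem bas_pert (hx : Bas (reA A) b x) (hz : ∀ i, ap (reA A) z i = 0)
    (hz' : ∀ j, x j = 0 → 0 ≤ z j) : ∃ ε : ℝ, 0 < ε ∧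
      (∀ i, ap (reA A) (x + ε • z) i = b i) ∧ ∀ j, 0 ≤ (x + ε • z) j := by
  have hP : x ∈ (eqProg A b (fun _ => 0)).sys.P (M + M + n) := by
    rw [RLP.mem_P, eqProg_feasible]
    exact ⟨hx.eq, hx.nn⟩
  obtain ⟨ε, hε, h1⟩ := (eqProg A b (fun _ => 0)).sys.pert_P (q := z) hP (by
    rw [RLP.forall_lt (m := M + M) (n := n)]
    refine ⟨fun i _ => (eqProg_ln.2 hz i i.2).ge, fun k hk => ?_⟩
    have h2 : (eqProg A b (fun _ => 0)).sys.sl (M + M + (k : ℕ)) x = x k := RLP.sl_var _ k x
    rw [h2] at hk
    have h3 : (eqProg A b (fun _ => 0)).sys.ln (M + M + (k : ℕ)) z = z k := by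
      rw [RLP.sys_ln]
      exact lnA_var _ k z
    rw [h3]
    exact hz' k hk)
  refine ⟨ε, hε, ?_⟩
  have h4 := h1 ε hε.le le_rfl
  rw [RLP.mem_P, eqProg_feasible] at h4
  exact h4

/-- The objective is bounded if it does not increase along the rays. (By `Vertex.optimal_or_dir`
and `Vertex.dir_cases` each vertex is optimal or has an edge to a better vertex; the number of
vertices is finite, because a vertex is determined by its name.) -/
theorem eqProg_bdd (hx : Bas (reA A) b x)
    (hr : ∀ z : Fin n → ℝ, (∀ i, ap (reA A) z i = 0) → (∀ j, 0 ≤ z j) → ∑ j, c j * z j ≤ 0) :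
    ∃ V : ℝ, ∀ y : Fin n → ℝ, (∀ i, ap (reA A) y i = b i) → (∀ j, 0 ≤ y j) →
      ∑ j, c j * y j ≤ V := by
  classical
  have hfin : {y : Fin n → ℝ | (eqProg A b c).Vertex y}.Finite := by
    refine Set.Finite.of_injOn (f := (eqProg A b c).name)
      (t := {l : List Bool | l.length = M + M + n}) ?_ ?_ (List.finite_length_eq Bool _)
    · intro y _
      exact RLP.length_name _ y
    · intro y hy w _ h
      exact RLP.Vertex.eq_of_name hy h
  obtain ⟨y, hy, hmax⟩ := Set.exists_max_image _ (fun y => (eqProg A b c).obj y) hfin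
    ⟨x, eqProg_vertex.2 hx⟩
  have hy' : (eqProg A b c).Vertex y := hy
  refine ⟨(eqProg A b c).obj y, fun w hw1 hw2 => ?_⟩
  have hobj : ∀ w : Fin n → ℝ, (eqProg A b c).obj w = ∑ j, c j * w j := fun w => rfl
  rw [← hobj w]
  rcases hy'.optimal_or_dir with h | ⟨z, hz, hc⟩
  · exact h.2 w (eqProg_feasible.2 ⟨hw1, hw2⟩)
  · exfalso
    rcases hy'.dir_cases hz with h | ⟨t, ht, h⟩
    · have h1 := ((RLP.ray_iff _ hz.2.1).1 h).2.2
      rw [RLP.forall_lt (m := M + M) (n := n)] at h1
      have h2 : ∀ i, ap (reA A) z i = 0 := by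
        rw [← eqProg_ln_nonneg (b := b) (c := c)]
        intro i hi
        exact h1.1 ⟨i, hi⟩
      have h3 : ∀ j, 0 ≤ z j := by
        intro j
        have h4 := h1.2 j
        rw [RLP.sys_ln] at h4
        have h5 : lnA (eqProg A b c).A (M + M + (j : ℕ)) z = z j := lnA_var _ j z
        rwa [h5] at h4
      have h4 := hr z h2 h3
      rw [hobj] at hc
      exact absurd hc (not_lt.2 h4)
    · have h1 := hmax _ h.2.1
      rw [RLP.obj_add, RLP.obj_smul] at h1
      have := mul_pos ht hc
      linarith

end Pool.Agent.Simplex.EB
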