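import Pool.Agent.Lib.MP_4d246d_lc.CR.LeoDef
import Pool.Agent.Lib.MP_4d246d_lc.CR.LeoVy

/-!
# The target
-/

namespace Pool.Agent.Simplex.EB

open Leo Pool.Agent.Lib.PolyTime Pool.Agent.Simplex.QP

variable {M n : ℕ} {A : Fin M → Fin n → ℚ} {x₀ : Fin n → ℝ} {c : List ℤ} {c' : Fin n → ℝ}

/-- the matrix `(A | -1)` -/
def homA (A : Fin M → Fin n → ℚ) : Fin M → Fin (n + 1) → ℚ := fun i => Fin.snoc (A i) (-1)

/-! ### Auxiliary facts -/

private theorem ltg_ofFn_snoc (f : Fin n → ℚ) (a : ℚ) :
    List.ofFn (Fin.snoc f a : Fin (n + 1) → ℚ) = List.ofFn f ++ [a] := by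
  rw [List.ofFn_succ', List.concat_eq_append]
  congr 1
  · congr 1
    funext i
    exact Fin.snoc_castSucc (α := fun _ => ℚ) a f i
  · congr 1
    exact Fin.snoc_last (α := fun _ => ℚ) a f

private theorem ltg_rows : (eqProg A (fun _ => 1) c').mat.2 =
    List.ofFn fun i => List.ofFn ((eqProg A (fun _ => 1) c').A i) := rfl

theorem mat_homA : homX (eqProg A (fun _ => 1) c').mat =
    (eqProg (homA A) (fun _ => 0) (fun _ => 0)).mat := by
  have h0 : (eqProg A (fun _ => 1) c').mat.2.length = M + M := by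
    rw [ltg_rows, List.length_ofFn]
  unfold homX
  rw [h0]
  refine Prod.ext rfl ?_
  show (List.range (M + M)).map (fun i => (eqProg A (fun _ => 1) c').mat.2.getD i [] ++
    [if 2 * i < M + M then (-1 : ℚ) else 1]) =
    List.ofFn fun i => List.ofFn ((eqProg (homA A) (fun _ => 0) (fun _ => 0)).A i)
  apply List.ext_getElem
  · simp
  · intro i h1 h2
    rw [List.getElem_map, List.getElem_range, List.getElem_ofFn]
    have hi : i < M + M := by simpa using h1
    rw [ltg_rows, List.getD_eq_getElem _ _ (by rw [List.length_ofFn]; exact hi),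
      List.getElem_ofFn]
    by_cases him : i < M
    · rw [if_pos (by omega)]
      have e1 : (⟨i, hi⟩ : Fin (M + M)) = Fin.castAdd M ⟨i, him⟩ := rfl
      have e2 : (eqProg A (fun _ => 1) c').A ⟨i, hi⟩ = A ⟨i, him⟩ := by
        rw [e1]
        show (Fin.addCases A (fun i j => -A i j) (Fin.castAdd M ⟨i, him⟩) : Fin n → ℚ) = _
        rw [Fin.addCases_left]
      have e3 : (eqProg (homA A) (fun _ => 0) (fun _ => 0)).A ⟨i, by simpa using h2⟩ =
          Fin.snoc (A ⟨i, him⟩) (-1) := by
        have e4 : (⟨i, by simpa using h2⟩ : Fin (M + M)) = Fin.castAdd M ⟨i, him⟩ := rfl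
        rw [e4]
        show (Fin.addCases (homA A) (fun i j => -homA A i j) (Fin.castAdd M ⟨i, him⟩) :
          Fin (n + 1) → ℚ) = _
        rw [Fin.addCases_left]
        rfl
      rw [e2, e3, ltg_ofFn_snoc]
    · rw [if_neg (by omega)]
      obtain ⟨k, rfl⟩ := Nat.exists_eq_add_of_le (not_lt.1 him)
      have hk : k < M := by omega
      have e1 : (⟨M + k, hi⟩ : Fin (M + M)) = Fin.natAdd M ⟨k, hk⟩ := rfl
      have e2 : (eqProg A (fun _ => 1) c').A ⟨M + k, hi⟩ = fun j => -A ⟨k, hk⟩ j := by
        rw [e1]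
        show (Fin.addCases A (fun i j => -A i j) (Fin.natAdd M ⟨k, hk⟩) : Fin n → ℚ) = _
        rw [Fin.addCases_right]
      have e3 : (eqProg (homA A) (fun _ => 0) (fun _ => 0)).A ⟨M + k, by simpa using h2⟩ =
          Fin.snoc (fun j => -A ⟨k, hk⟩ j) 1 := by
        have e4 : (⟨M + k, by simpa using h2⟩ : Fin (M + M)) = Fin.natAdd M ⟨k, hk⟩ := rfl
        rw [e4]
        have e5 : (eqProg (homA A) (fun _ => 0) (fun _ => 0)).A (Fin.natAdd M ⟨k, hk⟩) =
            fun j => -homA A ⟨k, hk⟩ j := by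
          show (Fin.addCases (homA A) (fun i j => -homA A i j) (Fin.natAdd M ⟨k, hk⟩) :
            Fin (n + 1) → ℚ) = _
          rw [Fin.addCases_right]
        rw [e5]
        funext j
        refine Fin.lastCases ?_ (fun j => ?_) j
        · rw [Fin.snoc_last]
          show -(Fin.snoc (A ⟨k, hk⟩) (-1) : Fin (n + 1) → ℚ) (Fin.last n) = 1
          rw [Fin.snoc_last]
          norm_num
        · rw [Fin.snoc_castSucc]
          show -(Fin.snoc (A ⟨k, hk⟩) (-1) : Fin (n + 1) → ℚ) (Fin.castSucc j) = _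
          rw [Fin.snoc_castSucc]
      rw [e2, e3, ltg_ofFn_snoc]

theorem ap_homA (z : Fin (n + 1) → ℝ) (i : Fin M) :
    ap (reA (homA A)) z i = ap (reA A) (Fin.init z) i - z (Fin.last n) := by
  unfold ap
  rw [Fin.sum_univ_castSucc]
  have h1 : reA (homA A) i (Fin.last n) = -1 := by
    show (((Fin.snoc (A i) (-1) : Fin (n + 1) → ℚ) (Fin.last n) : ℚ) : ℝ) = -1
    rw [Fin.snoc_last]
    norm_num
  have h2 : ∀ j : Fin n, reA (homA A) i (Fin.castSucc j) = reA A i j := by
    intro j
    show (((Fin.snoc (A i) (-1) : Fin (n + 1) → ℚ) (Fin.castSucc j) : ℚ) : ℝ) = (A i j : ℝ)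
    rw [Fin.snoc_castSucc]
  rw [h1]
  simp only [h2]
  have h3 : ∀ j : Fin n, Fin.init z j = z (Fin.castSucc j) := fun _ => rfl
  simp only [h3]
  ring

/-- `rdot` as a linear map -/
private def lrd (n : ℕ) (a : List ℤ) : (Fin n → ℝ) →ₗ[ℝ] ℝ where
  toFun := rdot n a
  map_add' x y := by
    unfold rdot
    rw [← Finset.sum_add_distrib]
    exact Finset.sum_congr rfl fun j _ => by rw [Pi.add_apply]; ring
  map_smul' t x := by
    unfold rdot
    rw [RingHom.id_apply, smul_eq_mul, Finset.mul_sum]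
    exact Finset.sum_congr rfl fun j _ => by rw [Pi.smul_apply, smul_eq_mul]; ring

private theorem lrd_add (n : ℕ) (a : List ℤ) (x y : Fin n → ℝ) :
    rdot n a (x + y) = rdot n a x + rdot n a y := (lrd n a).map_add x y

private theorem lrd_sub (n : ℕ) (a : List ℤ) (x y : Fin n → ℝ) :
    rdot n a (x - y) = rdot n a x - rdot n a y := (lrd n a).map_sub x y

private theorem lrd_smul (n : ℕ) (a : List ℤ) (t : ℝ) (x : Fin n → ℝ) :
    rdot n a (t • x) = t * rdot n a x := (lrd n a).map_smul t x

private theorem lrd_rep {k i : ℕ} (h : i < k) : (List.replicate k true).getD i false = true := by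
  rw [List.getD_eq_getElem _ _ (by simpa using h)]
  simp

/-- the constraints of the columns -/
private theorem ltg_var {m k : ℕ} (D : RLP m k) (j : Fin k) (z : Fin k → ℝ) :
    rdot k (D.gen.getD (m + j) []) z = z j := by
  rw [D.rdot_gen (by omega), D.sys_ln, lnA_var D.A j]
  unfold sc
  rw [dif_neg (by omega), one_mul]

private theorem ltg_row {k : ℕ} (B : Fin M → Fin k → ℚ) (b : Fin M → ℝ) (d : Fin k → ℝ)
    {z : Fin k → ℝ} (hz : ∀ i, ap (reA B) z i = 0) {i : ℕ} (hi : i < M + M) :
    rdot k ((eqProg B b d).gen.getD i []) z = 0 := by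
  rw [(eqProg B b d).rdot_gen (by omega), (eqProg_ln (A := B) (b := b) (c := d)).2 hz i hi,
    mul_zero]

private theorem ltg_row' {k : ℕ} (B : Fin M → Fin k → ℚ) (b : Fin M → ℝ) (d : Fin k → ℝ)
    {z : Fin k → ℝ} (hz : ∀ i < M + M, rdot k ((eqProg B b d).gen.getD i []) z = 0) :
    ∀ i, ap (reA B) z i = 0 := by
  refine (eqProg_ln (A := B) (b := b) (c := d)).1 fun i hi => ?_
  have h1 := hz i hi
  rw [(eqProg B b d).rdot_gen (by omega)] at h1
  exact (mul_eq_zero.1 h1).resolve_left (sc_pos _ _).ne'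

/-- the cone of all constraints is pointed -/
private theorem ltg_pointed {m k : ℕ} (D : RLP m k) (q : Fin k → ℝ)
    (h : ∀ i < D.gen.length, (List.replicate (m + k) true).getD i false = true →
      rdot k (D.gen.getD i []) q = 0) : q = 0 := by
  funext j
  have h1 := h (m + j) (by rw [D.gen_len]; omega) (lrd_rep (by omega))
  rw [ltg_var] at h1
  exact h1

private theorem ltg_genM : genM (homX (eqProg A (fun _ => 1) c').mat) =
    (eqProg (homA A) (fun _ => 0) (fun _ => 0)).gen := by
  rw [mat_homA]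
  rfl

private theorem ltg_len : (eqProg A (fun _ => 1) c').mat.2.length = M + M := by
  rw [ltg_rows, List.length_ofFn]

private theorem ltg_T1 {i : ℕ} (hi : i < M + M + n) :
    (((eqProg A (fun _ => 1) c').name x₀) ++ [false]).getD i false =
      ((eqProg A (fun _ => 1) c').name x₀).getD i false := by
  rw [List.getD_append _ _ _ _ (by rw [RLP.length_name]; exact hi)]

private theorem ltg_T2 :
    (((eqProg A (fun _ => 1) c').name x₀) ++ [false]).getD (M + M + n) false = false := by
  rw [List.getD_append_right _ _ _ _ (by rw [RLP.length_name]), RLP.length_name]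
  simp

/-- `leoV` is a positive multiple of `(x₀, 1)` (`dirZ_spec`) -/
theorem leoV_spec (hx₀ : Bas (reA A) (fun _ => 1) x₀) : ∃ t : ℝ, 0 < t ∧
    realZ (n + 1) (leoV (eqProg A (fun _ => 1) c').mat ((eqProg A (fun _ => 1) c').name x₀)) =
      t • (Fin.snoc x₀ 1 : Fin (n + 1) → ℝ) := by
  obtain ⟨z, hz⟩ : ∃ z : Fin (n + 1) → ℝ, z = Fin.snoc x₀ 1 := ⟨_, rfl⟩
  have hinit : Fin.init z = x₀ := by rw [hz]; exact Fin.init_snoc (α := fun _ => ℝ) _ _
  have hlast : z (Fin.last n) = 1 := by rw [hz]; exact Fin.snoc_last (α := fun _ => ℝ) _ _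
  have hcs : ∀ j : Fin n, z (Fin.castSucc j) = x₀ j := fun j => by
    rw [hz]; exact Fin.snoc_castSucc (α := fun _ => ℝ) _ _ j
  have hker : ∀ i, ap (reA (homA A)) z i = 0 := by
    intro i
    rw [ap_homA, hinit, hlast, hx₀.eq, sub_self]
  have hV : leoV (eqProg A (fun _ => 1) c').mat ((eqProg A (fun _ => 1) c').name x₀) =
      dirZ (n + 1) (eqProg (homA A) (fun _ => 0) (fun _ => 0)).gen
        (List.replicate (M + M + (n + 1)) true)
        (((eqProg A (fun _ => 1) c').name x₀) ++ [false]) := by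
    unfold leoV
    rw [ltg_genM, ltg_len]
    rfl
  rw [hV, ← hz]
  have hgl : (eqProg (homA A) (fun _ => 0) (fun _ => 0)).gen.length = M + M + (n + 1) :=
    RLP.gen_len _
  have hcase : ∀ p : ℕ → Prop, (∀ i < M + M, p i) → (∀ j : Fin n, p (M + M + j)) →
      p (M + M + n) → ∀ i < (eqProg (homA A) (fun _ => 0) (fun _ => 0)).gen.length, p i := by
    intro p h1 h2 h3 i hi
    rw [hgl] at hi
    by_cases h4 : i < M + M
    · exact h1 i h4
    · obtain ⟨k, rfl⟩ := Nat.exists_eq_add_of_le (not_lt.1 h4)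
      by_cases h5 : k < n
      · exact h2 ⟨k, h5⟩
      · have : k = n := by omega
        rw [this]
        exact h3
  have hTc : ∀ j : Fin n, (((eqProg A (fun _ => 1) c').name x₀) ++ [false]).getD (M + M + j)
      false = true ↔ x₀ j = 0 := by
    intro j
    rw [ltg_T1 (by omega), eqProg_getD]
  have hTr : ∀ i < M + M, (((eqProg A (fun _ => 1) c').name x₀) ++ [false]).getD i false =
      true := by
    intro i hi
    rw [ltg_T1 (by omega), RLP.getD_name _ _ (by omega)]
    exact eqProg_tight hx₀.eq hi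
  have hvc : ∀ (j : Fin n) (q : Fin (n + 1) → ℝ),
      rdot (n + 1) ((eqProg (homA A) (fun _ => 0) (fun _ => 0)).gen.getD (M + M + j) []) q =
        q (Fin.castSucc j) := fun j q => ltg_var _ (Fin.castSucc j) q
  have hvl : ∀ q : Fin (n + 1) → ℝ,
      rdot (n + 1) ((eqProg (homA A) (fun _ => 0) (fun _ => 0)).gen.getD (M + M + n) []) q =
        q (Fin.last n) := fun q => ltg_var _ (Fin.last n) q
  apply dirZ_spec
  · refine hcase _ (fun i hi _ => ltg_row _ _ _ hker hi) (fun j hj => ?_) (fun h => ?_)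
    · rw [hvc, hcs]
      exact (hTc j).1 hj
    · rw [ltg_T2] at h
      exact absurd h (by simp)
  · intro q hq
    refine ⟨q (Fin.last n), ?_⟩
    have hk : ∀ i, ap (reA (homA A)) q i = 0 := ltg_row' _ _ _ fun i hi =>
      hq i (by rw [hgl]; omega) (hTr i hi)
    have hr : Fin.init q - q (Fin.last n) • x₀ = 0 := by
      refine hx₀.ind _ (fun i => ?_) (fun j hj => ?_)
      · have h1 := hk i
        rw [ap_homA] at h1
        rw [ap_sub, ap_smul, hx₀.eq]
        linarith
      · have h1 := hq (M + M + j) (by rw [hgl]; omega) ((hTc j).2 hj)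
        rw [hvc] at h1
        show Fin.init q j - q (Fin.last n) * x₀ j = 0
        rw [hj, mul_zero, sub_zero]
        exact h1
    funext j
    refine Fin.lastCases ?_ (fun j => ?_) j
    · rw [Pi.smul_apply, hlast, smul_eq_mul, mul_one]
    · rw [Pi.smul_apply, hcs, smul_eq_mul]
      have h1 := congrFun hr j
      have h2 : Fin.init q j - q (Fin.last n) * x₀ j = 0 := h1
      have h3 : Fin.init q j = q (Fin.castSucc j) := rfl
      rw [h3] at h2
      linarith
  · refine hcase _ (fun i hi _ h => ?_) (fun j _ hj => ?_) (fun _ _ => ?_)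
    · rw [hTr i hi] at h
      exact absurd h (by simp)
    · rw [hvc, hcs]
      refine lt_of_le_of_ne (hx₀.nn j) fun h => ?_
      rw [(hTc j).2 h.symm] at hj
      exact absurd hj (by simp)
    · rw [hvl, hlast]
      exact one_pos
  · exact ⟨M + M + n, by rw [hgl]; omega, lrd_rep (by omega), ltg_T2⟩

theorem rdot_leoC (hc : c.length = n) (hx₀ : Bas (reA A) (fun _ => 1) x₀) :
    ∃ t : ℝ, 0 < t ∧ ∀ z : Fin (n + 1) → ℝ,
      rdot (n + 1) (leoC (eqProg A (fun _ => 1) c').mat c ((eqProg A (fun _ => 1) c').name x₀)) z =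
        t * (rdot n c (Fin.init z) - z (Fin.last n) * rdot n c x₀) := by
  obtain ⟨t, ht, hV⟩ := leoV_spec (c' := c') hx₀
  refine ⟨t, ht, fun z => ?_⟩
  obtain ⟨v, hv⟩ : ∃ v, v = leoV (eqProg A (fun _ => 1) c').mat
    ((eqProg A (fun _ => 1) c').name x₀) := ⟨_, rfl⟩
  rw [← hv] at hV
  have hC : leoC (eqProg A (fun _ => 1) c').mat c ((eqProg A (fun _ => 1) c').name x₀) =
      (c.map fun y => v.getD n 0 * y) ++ [- dotZ c v] := by
    rw [hv]
    rfl
  have hvn : ((v.getD n 0 : ℤ) : ℝ) = t := by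
    have h1 := congrFun hV (Fin.last n)
    rw [Pi.smul_apply, Fin.snoc_last, smul_eq_mul, mul_one] at h1
    exact h1
  have hvj : ∀ j : Fin n, ((v.getD j 0 : ℤ) : ℝ) = t * x₀ j := by
    intro j
    have h1 := congrFun hV (Fin.castSucc j)
    rw [Pi.smul_apply, Fin.snoc_castSucc, smul_eq_mul] at h1
    exact h1
  have hdot : ((dotZ c v : ℤ) : ℝ) = t * rdot n c x₀ := by
    rw [dotZ_eq_fin _ _ n (Or.inl hc.le)]
    unfold rdot
    push_cast
    rw [Finset.mul_sum]
    refine Finset.sum_congr rfl fun j _ => ?_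
    rw [hvj j]
    ring
  rw [hC]
  unfold rdot
  rw [Fin.sum_univ_castSucc]
  have e1 : ∀ j : Fin n, (((c.map fun y => v.getD n 0 * y) ++ [- dotZ c v]).getD
      ((Fin.castSucc j : Fin (n + 1)) : ℕ) 0 : ℤ) = v.getD n 0 * c.getD j 0 := by
    intro j
    obtain ⟨d, hd⟩ : ∃ d, d = v.getD n 0 := ⟨_, rfl⟩
    rw [← hd]
    rw [Fin.val_castSucc, List.getD_append _ _ _ _ (by rw [List.length_map, hc]; exact j.2),
      List.getD_eq_getElem _ _ (by rw [List.length_map, hc]; exact j.2), List.getElem_map,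
      List.getD_eq_getElem _ _ (by rw [hc]; exact j.2)]
  have e2 : (((c.map fun y => v.getD n 0 * y) ++ [- dotZ c v]).getD
      ((Fin.last n : Fin (n + 1)) : ℕ) 0 : ℤ) = - dotZ c v := by
    rw [Fin.val_last, List.getD_append_right _ _ _ _ (by rw [List.length_map, hc]),
      List.length_map, hc, Nat.sub_self]
    rfl
  rw [e2]
  simp only [e1]
  push_cast
  rw [hvn, hdot]
  have e3 : ∑ j : Fin n, t * ((c.getD j 0 : ℤ) : ℝ) * z (Fin.castSucc j) =
      t * ∑ j : Fin n, ((c.getD j 0 : ℤ) : ℝ) * Fin.init z j := by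
    rw [Finset.mul_sum]
    refine Finset.sum_congr rfl fun j _ => ?_
    have : Fin.init z j = z (Fin.castSucc j) := rfl
    rw [this]
    ring
  rw [e3]
  unfold rdot
  ring

private theorem ltg_ones (z : Fin n → ℝ) : rdot n (List.replicate n 1) z = ∑ j, z j := by
  unfold rdot
  refine Finset.sum_congr rfl fun j _ => ?_
  rw [List.getD_eq_getElem _ _ (by rw [List.length_replicate]; exact j.2)]
  simp

private theorem ltg_unit (z : Fin (n + 1) → ℝ) :
    rdot (n + 1) (unitZ (n + 1) n) z = z (Fin.last n) := by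
  unfold rdot
  rw [Finset.sum_eq_single (Fin.last n)]
  · rw [getD_unitZ, Fin.val_last, if_pos ⟨by omega, rfl⟩]
    simp
  · intro j _ hj
    rw [getD_unitZ, if_neg (fun h => hj (Fin.ext (by rw [Fin.val_last]; exact h.2)))]
    simp
  · intro h
    exact absurd (Finset.mem_univ _) h

/-- the vertex `x` is optimal, so the objective does not increase in its cone -/
private theorem ltg_opt {x : Fin n → ℝ} (hx : Bas (reA A) (fun _ => 1) x)
    (h : ∀ y : Fin n → ℝ, (∀ i, ap (reA A) y i = 1) → (∀ j, 0 ≤ y j) →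
      rdot n c y ≤ rdot n c x) :
    ∀ z : Fin n → ℝ, (∀ i, ap (reA A) z i = 0) → (∀ j, x j = 0 → 0 ≤ z j) →
      rdot n c z ≤ 0 := by
  intro z hz hz'
  obtain ⟨e, he, h1, h2⟩ := bas_pert hx hz hz'
  have h3 := h _ h1 h2
  rw [lrd_add, lrd_smul] at h3
  by_contra h4
  have := mul_pos he (not_le.1 h4)
  linarith

private theorem ltg_snoc_cone {y : Fin n → ℝ} (h1 : ∀ i, ap (reA A) y i = 1)
    (h2 : ∀ j, 0 ≤ y j) : (Fin.snoc y 1 : Fin (n + 1) → ℝ) ∈
      Cone (n + 1) (eqProg (homA A) (fun _ => 0) (fun _ => 0)).gen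
        (List.replicate (M + M + (n + 1)) true) := by
  rw [eqProg_cone_all]
  refine ⟨fun i => ?_, fun j => ?_⟩
  · rw [ap_homA, Fin.init_snoc, Fin.snoc_last, h1, sub_self]
  · refine Fin.lastCases ?_ (fun j => ?_) j
    · rw [Fin.snoc_last]
      exact zero_le_one
    · rw [Fin.snoc_castSucc]
      exact h2 j

/-- Specification of the target. First case: `pickZ_spec` with the weights `∑ z_j`. Second case:
`eqProg_bdd` bounds the ratio. -/
theorem leoT_spec (hc : c.length = n) (hx₀ : Bas (reA A) (fun _ => 1) x₀) :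
    (∀ T, leoT (eqProg A (fun _ => 1) c').mat c ((eqProg A (fun _ => 1) c').name x₀) = some T →
      ∃ u τ, Tgt A c T u τ) ∧
    (leoT (eqProg A (fun _ => 1) c').mat c ((eqProg A (fun _ => 1) c').name x₀) = none →
      ∀ z : Fin n → ℝ, (∀ i, ap (reA A) z i = 0) → (∀ j, x₀ j = 0 → 0 ≤ z j) →
        rdot n c z ≤ 0) := by
  obtain ⟨D, hD⟩ : ∃ D : RLP (M + M) n, D = eqProg A (fun _ => 1) c' := ⟨_, rfl⟩
  obtain ⟨E, hE⟩ : ∃ E : RLP (M + M) (n + 1), E = eqProg (homA A) (fun _ => 0) (fun _ => 0) :=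
    ⟨_, rfl⟩
  obtain ⟨lc, hlc⟩ : ∃ lc, lc = leoC (eqProg A (fun _ => 1) c').mat c
    ((eqProg A (fun _ => 1) c').name x₀) := ⟨_, rfl⟩
  have hT : leoT (eqProg A (fun _ => 1) c').mat c ((eqProg A (fun _ => 1) c').name x₀) =
      match pickZ n D.gen (List.replicate (M + M + n) true) (List.replicate n 1) c with
      | some T => some T
      | none => pickZ (n + 1) E.gen (List.replicate (M + M + (n + 1)) true)
          (unitZ (n + 1) n) lc := by
    unfold leoT
    rw [ltg_genM, ltg_len, ← hlc, ← hE]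
    rw [hD]
    rfl
  rw [hT]
  have hDl : D.gen.length = M + M + n := D.gen_len
  have hEl : E.gen.length = M + M + (n + 1) := E.gen_len
  obtain ⟨t, ht, hrc⟩ := rdot_leoC (c' := c') hc hx₀
  rw [← hlc] at hrc
  -- the rays
  obtain ⟨hp1, hp2⟩ := pickZ_spec (n := n) (G := D.gen) (S := List.replicate (M + M + n) true)
    (s := List.replicate n 1) (c := c) (ltg_pointed D)
    ⟨∑ j : Fin n, |((c.getD j 0 : ℤ) : ℝ)|, Finset.sum_nonneg fun _ _ => abs_nonneg _,
      fun z hz => by
        rw [hD, eqProg_cone_all] at hz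
        rw [ltg_ones]
        unfold rdot
        rw [Finset.sum_mul]
        refine Finset.sum_le_sum fun j _ => ?_
        calc ((c.getD j 0 : ℤ) : ℝ) * z j ≤ |((c.getD j 0 : ℤ) : ℝ)| * z j :=
              mul_le_mul_of_nonneg_right (le_abs_self _) (hz.2 j)
          _ ≤ |((c.getD j 0 : ℤ) : ℝ)| * ∑ j, z j := by
              refine mul_le_mul_of_nonneg_left ?_ (abs_nonneg _)
              exact Finset.single_le_sum (f := fun j => z j) (fun j _ => hz.2 j)
                (Finset.mem_univ j)⟩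
  cases hpk : pickZ n D.gen (List.replicate (M + M + n) true) (List.replicate n 1) c with
  | some T =>
    refine ⟨fun T' hT' => ?_, fun h => absurd h (by simp)⟩
    simp only [Option.some.injEq] at hT'
    subst hT'
    obtain ⟨z, hz⟩ := hp2 _ hpk
    have hzc := hz.cone
    rw [hD, eqProg_cone_all] at hzc
    have htj : ∀ j : Fin n, T.getD (M + M + j) false = true ↔ z j = 0 := by
      intro j
      rw [hz.tight (M + M + j) (by rw [hDl]; omega), ltg_var,
        and_iff_right (lrd_rep (by omega))]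
    refine ⟨z, 0, ⟨hzc.2, le_rfl, hzc.1, htj, ?_, ?_⟩⟩
    · intro q hq hq'
      refine hz.line q fun i hi hTi => ?_
      rw [hDl] at hi
      by_cases h4 : i < M + M
      · rw [hD]
        exact ltg_row _ _ _ hq h4
      · obtain ⟨k, rfl⟩ := Nat.exists_eq_add_of_le (not_lt.1 h4)
        have hk : k < n := by omega
        have h5 := (htj ⟨k, hk⟩).1 hTi
        have h6 := ltg_var D ⟨k, hk⟩ q
        rw [h6]
        exact hq' _ h5
    · intro x _ hle
      exfalso
      rw [zero_smul, sub_zero] at hle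
      exact absurd hz.pos (not_lt.2 hle)
  | none =>
    have hray := hp1 hpk
    have hray' : ∀ z : Fin n → ℝ, (∀ i, ap (reA A) z i = 0) → (∀ j, 0 ≤ z j) →
        rdot n c z ≤ 0 := by
      intro z h1 h2
      refine hray z ?_
      rw [hD, eqProg_cone_all]
      exact ⟨h1, h2⟩
    obtain ⟨V, hV⟩ := eqProg_bdd (c := fun j : Fin n => ((c.getD j 0 : ℤ) : ℝ)) hx₀ hray'
    have hV' : ∀ y : Fin n → ℝ, (∀ i, ap (reA A) y i = 1) → (∀ j, 0 ≤ y j) →
        rdot n c y ≤ V := hV
    have hVx : rdot n c x₀ ≤ V := hV' x₀ hx₀.eq hx₀.nn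
    obtain ⟨hr1, hr2⟩ := pickZ_spec (n := n + 1) (G := E.gen)
      (S := List.replicate (M + M + (n + 1)) true) (s := unitZ (n + 1) n) (c := lc)
      (ltg_pointed E)
      ⟨t * (V - rdot n c x₀), mul_nonneg ht.le (by linarith), fun z hz => by
        rw [hE, eqProg_cone_all] at hz
        rw [hrc, ltg_unit]
        have hz1 : ∀ i, ap (reA A) (Fin.init z) i = z (Fin.last n) := by
          intro i
          have := hz.1 i
          rw [ap_homA] at this
          linarith
        have hz2 : ∀ j, 0 ≤ Fin.init z j := fun j => hz.2 (Fin.castSucc j)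
        rcases (hz.2 (Fin.last n)).eq_or_lt with h0 | h0
        · have h1 := hray' (Fin.init z) (fun i => by rw [hz1, ← h0]) hz2
          rw [← h0, zero_mul, sub_zero, mul_zero]
          exact mul_nonpos_of_nonneg_of_nonpos ht.le h1
        · have h1 := hV' ((z (Fin.last n))⁻¹ • Fin.init z)
            (fun i => by rw [ap_smul, hz1, inv_mul_cancel₀ h0.ne'])
            (fun j => mul_nonneg (inv_nonneg.2 h0.le) (hz2 j))
          rw [lrd_smul, inv_mul_le_iff₀ h0] at h1
          have h2 : t * (rdot n c (Fin.init z) - z (Fin.last n) * rdot n c x₀) ≤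
              t * (z (Fin.last n) * V - z (Fin.last n) * rdot n c x₀) :=
            mul_le_mul_of_nonneg_left (by linarith) ht.le
          refine h2.trans (le_of_eq ?_)
          ring⟩
    constructor
    · intro T hT'
      obtain ⟨z, hz⟩ := hr2 T hT'
      have hzc := hz.cone
      rw [hE, eqProg_cone_all] at hzc
      have hone := hz.one
      rw [ltg_unit] at hone
      have hz1 : ∀ i, ap (reA A) (Fin.init z) i = 1 := by
        intro i
        have := hzc.1 i
        rw [ap_homA, hone] at this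
        linarith
      have htj : ∀ j : Fin n, T.getD (M + M + j) false = true ↔ Fin.init z j = 0 := by
        intro j
        have h1 := ltg_var E (Fin.castSucc j) z
        rw [Fin.val_castSucc] at h1
        rw [hz.tight (M + M + j) (by rw [hEl]; omega), h1,
          and_iff_right (lrd_rep (by omega))]
        rfl
      refine ⟨Fin.init z, 1, ⟨fun j => hzc.2 (Fin.castSucc j), zero_le_one, hz1, htj, ?_, ?_⟩⟩
      · intro q hq hq'
        obtain ⟨r, hr⟩ := hz.line (Fin.snoc q 0) fun i hi hTi => by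
          rw [hEl] at hi
          by_cases h4 : i < M + M
          · rw [hE]
            refine ltg_row _ _ _ (fun i => ?_) h4
            rw [ap_homA, Fin.init_snoc, Fin.snoc_last, hq, sub_zero]
          · obtain ⟨k, rfl⟩ := Nat.exists_eq_add_of_le (not_lt.1 h4)
            by_cases hk : k < n
            · have h5 := (htj ⟨k, hk⟩).1 hTi
              have h6 := ltg_var E (Fin.castSucc ⟨k, hk⟩) (Fin.snoc q 0)
              rw [Fin.val_castSucc, Fin.snoc_castSucc] at h6
              exact h6.trans (hq' _ h5)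
            · have hk' : k = n := by omega
              have h6 := ltg_var E (Fin.last n) (Fin.snoc q 0)
              rw [Fin.val_last, Fin.snoc_last] at h6
              rw [hk']
              exact h6
        refine ⟨r, ?_⟩
        funext j
        have h7 := congrFun hr (Fin.castSucc j)
        rw [Fin.snoc_castSucc] at h7
        rw [h7]
        rfl
      · intro x hx hle
        refine ltg_opt hx fun y hy hy' => ?_
        have h1 := hz.max _ (by rw [hE]; exact ltg_snoc_cone hy hy')
        rw [ltg_unit, Fin.snoc_last, mul_one, hrc, hrc, Fin.init_snoc, Fin.snoc_last,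
          hone] at h1
        have h2 := le_of_mul_le_mul_left h1 ht
        rw [one_smul, lrd_sub] at hle
        linarith
    · intro hN
      have hcone := hr1 hN
      refine ltg_opt hx₀ fun y hy hy' => ?_
      have h1 := hcone _ (by rw [hE]; exact ltg_snoc_cone hy hy')
      rw [hrc, Fin.init_snoc, Fin.snoc_last, one_mul] at h1
      by_contra h2
      have := mul_pos ht (sub_pos.2 (not_le.1 h2))
      linarith

end Pool.Agent.Simplex.EB
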