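import Pool.Agent.Lib.MP_4d246d_lc.CR.StatementL
import Pool.Agent.Lib.MP_4d246d_lc.CR.LeoEd
import Pool.Agent.Lib.MP_4d246d_lc.CR.Step

/-!
# Vertices and edges of the programs `A x = b`, `x ≥ 0`

All rows are tight at a feasible point. Useful: `RLP.sl_row`, `RLP.sl_var`, `RLP.sys_ln`,
`lnA_row`, `lnA_var`, `RLP.forall_lt`, `RLP.vertex_iff`, `RLP.mem_P`, `RLP.getD_name`,
`RLP.getD_edgeName`, `RLP.name_congr`, `Sys.mem_T`, `mem_cone`.
-/

namespace Pool.Agent.Simplex.EB

open Leo Pool.Agent.Lib.PolyTime Pool.Agent.Simplex.QP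

variable {M n : ℕ} {A : Fin M → Fin n → ℚ} {b b' : Fin M → ℝ} {c c' : Fin n → ℝ}
  {x x' z : Fin n → ℝ}

/-- the real matrix -/
def reA (A : Fin M → Fin n → ℚ) : Fin M → Fin n → ℝ := fun i j => (A i j : ℝ)

theorem Leontief.lr (h : Leontief A) : LR (reA A) := by
  intro j i i' h1 h2
  exact h j i i' (by simpa [reA] using h1) (by simpa [reA] using h2)

private theorem vx_sum_l (x : Fin n → ℝ) (i : Fin M) :
    ∑ j, ((eqProg A b c).A (Fin.castAdd M i) j : ℝ) * x j = ap (reA A) x i := by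
  unfold eqProg ap reA
  simp only [Fin.addCases_left]

private theorem vx_sum_r (x : Fin n → ℝ) (i : Fin M) :
    ∑ j, ((eqProg A b c).A (Fin.natAdd M i) j : ℝ) * x j = -ap (reA A) x i := by
  unfold eqProg ap reA
  simp only [Fin.addCases_right]
  rw [← Finset.sum_neg_distrib]
  exact Finset.sum_congr rfl fun j _ => by push_cast; ring

private theorem vx_b_l (i : Fin M) : (eqProg A b c).b (Fin.castAdd M i) = b i := by
  unfold eqProg
  simp only [Fin.addCases_left]

private theorem vx_b_r (i : Fin M) : (eqProg A b c).b (Fin.natAdd M i) = -b i := by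
  unfold eqProg
  simp only [Fin.addCases_right]

private theorem vx_ln_l (z : Fin n → ℝ) (i : Fin M) :
    (eqProg A b c).sys.ln (i : ℕ) z = -ap (reA A) z i := by
  rw [RLP.sys_ln]
  have h := lnA_row (eqProg A b c).A (Fin.castAdd M i) z
  rw [vx_sum_l] at h
  exact h

private theorem vx_ln_r (z : Fin n → ℝ) (i : Fin M) :
    (eqProg A b c).sys.ln (M + (i : ℕ)) z = ap (reA A) z i := by
  rw [RLP.sys_ln]
  have h := lnA_row (eqProg A b c).A (Fin.natAdd M i) z
  rw [vx_sum_r, neg_neg] at h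
  exact h

private theorem vx_ln_v (z : Fin n → ℝ) (j : Fin n) :
    (eqProg A b c).sys.ln (M + M + (j : ℕ)) z = z j := by
  rw [RLP.sys_ln]
  exact lnA_var _ j z

private theorem vx_sl_l (x : Fin n → ℝ) (i : Fin M) :
    (eqProg A b c).sys.sl (i : ℕ) x = b i - ap (reA A) x i := by
  have h := RLP.sl_row (eqProg A b c) (Fin.castAdd M i) x
  rw [vx_sum_l, vx_b_l] at h
  exact h

private theorem vx_sl_r (x : Fin n → ℝ) (i : Fin M) :
    (eqProg A b c).sys.sl (M + (i : ℕ)) x = ap (reA A) x i - b i := by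
  have h := RLP.sl_row (eqProg A b c) (Fin.natAdd M i) x
  rw [vx_sum_r, vx_b_r] at h
  have h' : (eqProg A b c).sys.sl (M + (i : ℕ)) x = -b i - -ap (reA A) x i := h
  rw [h']
  ring

private theorem vx_sl_v (x : Fin n → ℝ) (j : Fin n) :
    (eqProg A b c).sys.sl (M + M + (j : ℕ)) x = x j := RLP.sl_var _ j x

private theorem vx_tight (hx : ∀ i, ap (reA A) x i = b i) {i : ℕ} (hi : i < M + M) :
    (eqProg A b c).sys.sl i x = 0 := by
  revert i
  rw [RLP.forall_lt (m := M) (n := M)]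
  exact ⟨fun i => by rw [vx_sl_l, hx i, sub_self], fun i => by rw [vx_sl_r, hx i, sub_self]⟩

/-- the linear parts of the rows -/
theorem eqProg_ln : (∀ i < M + M, (eqProg A b c).sys.ln i z = 0) ↔
    ∀ i, ap (reA A) z i = 0 := by
  rw [RLP.forall_lt (m := M) (n := M)]
  constructor
  · rintro ⟨-, h⟩ i
    rw [← vx_ln_r (b := b) (c := c) z i]
    exact h i
  · intro h
    exact ⟨fun i => by rw [vx_ln_l, h i, neg_zero], fun i => by rw [vx_ln_r, h i]⟩

/-- a direction that the rows do not forbid -/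
theorem eqProg_ln_nonneg : (∀ i < M + M, 0 ≤ (eqProg A b c).sys.ln i z) ↔
    ∀ i, ap (reA A) z i = 0 := by
  rw [RLP.forall_lt (m := M) (n := M)]
  constructor
  · rintro ⟨h1, h2⟩ i
    have k1 := h1 i
    have k2 := h2 i
    rw [vx_ln_l] at k1
    rw [vx_ln_r] at k2
    linarith
  · intro h
    exact ⟨fun i => by rw [vx_ln_l, h i, neg_zero], fun i => by rw [vx_ln_r, h i]⟩

theorem eqProg_feasible : x ∈ (eqProg A b c).feasible ↔
    (∀ i, ap (reA A) x i = b i) ∧ ∀ j, 0 ≤ x j := by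
  rw [← RLP.mem_P, Sys.mem_P, RLP.forall_lt]
  constructor
  · rintro ⟨h12, h3⟩
    have h12' : ∀ i < M + M, 0 ≤ (eqProg A b c).sys.sl i x := fun i hi => h12 ⟨i, hi⟩
    rw [RLP.forall_lt (m := M) (n := M)] at h12'
    obtain ⟨h1, h2⟩ := h12'
    refine ⟨fun i => ?_, fun j => ?_⟩
    · have k1 := h1 i
      have k2 := h2 i
      rw [vx_sl_l] at k1
      rw [vx_sl_r] at k2
      linarith
    · have k := h3 j
      rwa [vx_sl_v] at k
  · rintro ⟨h1, h2⟩
    refine ⟨fun i => ?_, fun j => ?_⟩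
    · rw [vx_tight h1 i.2]
    · rw [vx_sl_v]
      exact h2 j

/-- all rows are tight -/
theorem eqProg_tight (hx : ∀ i, ap (reA A) x i = b i) {i : ℕ} (hi : i < M + M) :
    (eqProg A b c).sys.sl i x = 0 := by
  revert i
  rw [RLP.forall_lt (m := M) (n := M)]
  exact ⟨fun i => by rw [vx_sl_l, hx i, sub_self], fun i => by rw [vx_sl_r, hx i, sub_self]⟩

theorem eqProg_vertex : (eqProg A b c).Vertex x ↔ Bas (reA A) b x := by
  rw [RLP.vertex_iff, RLP.mem_P, eqProg_feasible]
  constructor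
  · rintro ⟨⟨h1, h2⟩, h3⟩
    refine ⟨h2, h1, fun q hq hq' => h3 q fun i hi h0 => ?_⟩
    revert i
    rw [RLP.forall_lt (m := M + M) (n := n)]
    refine ⟨fun i _ => eqProg_ln.2 hq i i.2, fun j h0 => ?_⟩
    rw [vx_sl_v] at h0
    rw [vx_ln_v]
    exact hq' j h0
  · rintro ⟨h1, h2, h3⟩
    refine ⟨⟨h2, h1⟩, fun q hq => h3 q ?_ fun j hj => ?_⟩
    · rw [← eqProg_ln (b := b) (c := c)]
      intro i hi
      exact hq i (by omega) (eqProg_tight h2 hi)
    · have h := hq (M + M + (j : ℕ)) (by omega) (by rw [vx_sl_v]; exact hj)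
      rwa [vx_ln_v] at h

/-- equal names = equal supports -/
theorem eqProg_name (hx : ∀ i, ap (reA A) x i = b i) (hx' : ∀ i, ap (reA A) x' i = b' i) :
    (eqProg A b c).name x = (eqProg A b' c').name x' ↔ ∀ j, x j = 0 ↔ x' j = 0 := by
  rw [RLP.name_congr, RLP.forall_lt (m := M + M) (n := n)]
  constructor
  · rintro ⟨-, h⟩ j
    have h1 := h j
    rwa [vx_sl_v, vx_sl_v] at h1
  · intro h
    refine ⟨fun i => ?_, fun j => ?_⟩
    · rw [eqProg_tight hx i.2, eqProg_tight hx' i.2]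
    · rw [vx_sl_v, vx_sl_v]
      exact h j

/-- the bits of the columns -/
theorem eqProg_getD (x : Fin n → ℝ) (j : Fin n) :
    ((eqProg A b c).name x).getD (M + M + j) false = true ↔ x j = 0 := by
  rw [RLP.getD_name _ _ (by omega), RLP.sl_var]

/-- the cone of a vertex -/
theorem eqProg_cone (hx : ∀ i, ap (reA A) x i = b i) :
    z ∈ Cone n (eqProg A b c).gen ((eqProg A b c).name x) ↔
      (∀ i, ap (reA A) z i = 0) ∧ ∀ j, x j = 0 → 0 ≤ z j := by
  rw [mem_cone, RLP.forall_lt (m := M + M) (n := n)]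
  constructor
  · rintro ⟨h1, h2⟩
    refine ⟨?_, fun j hj => ?_⟩
    · rw [← eqProg_ln_nonneg (b := b) (c := c)]
      intro i hi
      exact h1 ⟨i, hi⟩ (eqProg_tight hx hi)
    · have h := h2 j (by rw [vx_sl_v]; exact hj)
      rwa [vx_ln_v] at h
  · rintro ⟨h1, h2⟩
    refine ⟨fun i _ => eqProg_ln_nonneg.2 h1 i i.2, fun j hj => ?_⟩
    rw [vx_ln_v]
    rw [vx_sl_v] at hj
    exact h2 j hj

/-- the cone of all constraints -/
theorem eqProg_cone_all : z ∈ Cone n (eqProg A b c).gen (List.replicate (M + M + n) true) ↔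
      (∀ i, ap (reA A) z i = 0) ∧ ∀ j, 0 ≤ z j := by
  have h0 : z ∈ Cone n (eqProg A b c).gen (List.replicate (M + M + n) true) ↔
      ∀ i < M + M + n, 0 ≤ (eqProg A b c).sys.ln i z := by
    unfold Cone
    rw [Set.mem_ofPred_eq, RLP.gen_len]
    refine forall_congr' fun i => forall_congr' fun hi => ?_
    have h1 : (List.replicate (M + M + n) true).getD i false = true := by
      rw [List.getD_eq_getElem _ _ (by simpa using hi)]
      simp
    rw [h1, RLP.rdot_gen _ hi, mul_nonneg_iff_of_pos_left (sc_pos _ i)]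
    exact ⟨fun h => h rfl, fun h _ => h⟩
  rw [h0, RLP.forall_lt (m := M + M) (n := n)]
  constructor
  · rintro ⟨h1, h2⟩
    refine ⟨?_, fun j => ?_⟩
    · rw [← eqProg_ln_nonneg (b := b) (c := c)]
      intro i hi
      exact h1 ⟨i, hi⟩
    · have h := h2 j
      rwa [vx_ln_v] at h
  · rintro ⟨h1, h2⟩
    refine ⟨fun i => eqProg_ln_nonneg.2 h1 i i.2, fun j => ?_⟩
    rw [vx_ln_v]
    exact h2 j

end Pool.Agent.Simplex.EB
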