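import Pool.Agent.Lib.MP_4d246d_lc.CR.Pick
import Pool.Agent.Lib.MP_4d246d_lc.QP.Final

/-!
# The best edge of a cone: polynomial time

`PolyF.lpsolve` (QP/PolySolver), `PolyF.negZ`, `PolyF.padZ`, `PolyF.dotZ` (see
`EB/RulePoly.lean`, `EB/Facts.lean`); `pickK` is a fold (`PolyF.foldl_inv`): all entries of the list
are entries of `selI G S`, its length is at most that of `selI G S`.
-/

namespace Pool.Agent.Simplex.EB

open Pool.Agent.Lib.PolyTime Pool.Agent.Simplex.QP

variable {α : Type*} [TEnc α] {n : α → ℕ} {G : α → List (List ℤ)} {S : α → List Bool}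
  {s c : α → List ℤ}

private theorem polyF_selI {β : Type*} [TEnc β] {G : β → List (List ℤ)} {S : β → List Bool}
    (hG : PolyF G) (hS : PolyF S) : PolyF (fun x => selI (G x) (S x)) :=
  (hG.length.range).filter (p := fun x i => (S x).getD i false)
    ((hS.comp PolyF.fst').getDL PolyF.snd' (PolyF.const false))

private theorem polyF_pickI {β : Type*} [TEnc β] {G : β → List (List ℤ)} {S : β → List Bool}
    {s : β → List ℤ} (hG : PolyF G) (hS : PolyF S) (hs : PolyF s) :
    PolyF (fun x => pickI (G x) (S x) (s x)) :=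
  (hs.pair (PolyF.const 1)).cons ((polyF_selI hG hS).map
    (h := fun x i => (negZ ((G x).getD i []), (0 : ℤ)))
    ((PolyF.negZ ((hG.comp PolyF.fst').getDL PolyF.snd' (PolyF.const []))).pair
      (PolyF.const 0)))

private theorem polyF_pickE {β : Type*} [TEnc β] {G : β → List (List ℤ)} {c : β → List ℤ}
    {a d : β → ℤ} {K : β → List ℕ} (hG : PolyF G) (hc : PolyF c) (ha : PolyF a) (hd : PolyF d)
    (hK : PolyF K) : PolyF (fun x => pickE (G x) (c x) (a x) (d x) (K x)) :=
  ((hc.map (h := fun x (y : ℤ) => d x * y) ((hd.comp PolyF.fst').intMul PolyF.snd')).pair ha).cons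
    (hK.map (h := fun x i => ((G x).getD i [], (0 : ℤ)))
      (((hG.comp PolyF.fst').getDL PolyF.snd' (PolyF.const [])).pair (PolyF.const 0)))

private theorem polyF_feasB {β : Type*} [TEnc β] {r : β → Res} (hr : PolyF r) :
    PolyF (fun x => feasB (r x)) :=
  PolyF.resCases (g1 := fun _ => false) (g2 := fun _ => true) (h := fun _ => true) hr
    (PolyF.const _) (PolyF.const _) (PolyF.const _) (fun x h => by rw [h]; rfl)
    (fun x h => by rw [h]; rfl) (fun x v d h => by rw [h]; rfl)

private theorem polyF_pickStep {β : Type*} [TEnc β] {n : β → ℕ} {G : β → List (List ℤ)}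
    {S : β → List Bool} {s c : β → List ℤ} {a d : β → ℤ} {K : β → List ℕ} {i : β → ℕ}
    (hn : PolyF n) (hG : PolyF G) (hS : PolyF S) (hs : PolyF s) (hc : PolyF c) (ha : PolyF a)
    (hd : PolyF d) (hK : PolyF K) (hi : PolyF i) :
    PolyF (fun x => pickStep (n x) (G x) (S x) (s x) (c x) (a x) (d x) (K x) (i x)) :=
  PolyF.iteBool
    (c := fun x => feasB (lpsolve (n x) (pickE (G x) (c x) (a x) (d x) (i x :: K x))
      (pickI (G x) (S x) (s x)) []))
    (polyF_feasB (PolyF.lpsolve hn (polyF_pickE hG hc ha hd (hi.cons hK))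
      (polyF_pickI hG hS hs) (PolyF.const []))) (hi.cons hK) hK

private theorem polyF_pickK {β : Type*} [TEnc β] {n : β → ℕ} {G : β → List (List ℤ)}
    {S : β → List Bool} {s c : β → List ℤ} {a d : β → ℤ}
    (hn : PolyF n) (hG : PolyF G) (hS : PolyF S) (hs : PolyF s) (hc : PolyF c) (ha : PolyF a)
    (hd : PolyF d) :
    PolyF (fun x => pickK (n x) (G x) (S x) (s x) (c x) (a x) (d x)) := by
  refine PolyF.foldl_add (l := fun x => selI (G x) (S x)) (i := fun _ => ([] : List ℕ))
    (f := fun x => pickStep (n x) (G x) (S x) (s x) (c x) (a x) (d x))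
    (polyF_selI hG hS) (PolyF.const []) ?_ (fun x => sz (selI (G x) (S x)))
    (polyF_selI hG hS).pbd ?_
  · exact polyF_pickStep (hn.comp PolyF.fst') (hG.comp PolyF.fst') (hS.comp PolyF.fst')
      (hs.comp PolyF.fst') (hc.comp PolyF.fst') (ha.comp PolyF.fst') (hd.comp PolyF.fst')
      PolyF.snd'.fst PolyF.snd'.snd
  · intro x K i hi
    have h1 := sz_mem hi
    unfold pickStep
    split_ifs
    · rw [sz_cons]
      omega
    · omega

private theorem polyF_pickT {β : Type*} [TEnc β] {n : β → ℕ} {G : β → List (List ℤ)}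
    {S : β → List Bool} {s c : β → List ℤ} {a d : β → ℤ}
    (hn : PolyF n) (hG : PolyF G) (hS : PolyF S) (hs : PolyF s) (hc : PolyF c) (ha : PolyF a)
    (hd : PolyF d) :
    PolyF (fun x => pickT (n x) (G x) (S x) (s x) (c x) (a x) (d x)) := by
  refine PolyF.ite (ha.intLe (PolyF.const 0)) (PolyF.const none) (PolyF.some ?_)
  exact hG.length.range.map
    (h := fun x i => decide (i ∈ pickK (n x) (G x) (S x) (s x) (c x) (a x) (d x)))
    (PolyF.snd'.mem ((polyF_pickK hn hG hS hs hc ha hd).comp PolyF.fst'))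

theorem polyF_pickZ (hn : PolyF n) (hG : PolyF G) (hS : PolyF S) (hs : PolyF s) (hc : PolyF c) :
    PolyF (fun x => pickZ (n x) (G x) (S x) (s x) (c x)) := by
  refine PolyF.resCases
    (o := fun x => lpsolve (n x) [] (pickI (G x) (S x) (s x)) (c x))
    (g1 := fun _ => none) (g2 := fun _ => none)
    (h := fun p : α × List ℤ × ℤ => pickT (n p.1) (G p.1) (S p.1) (s p.1) (c p.1)
      (dotZ (padZ (n p.1) (c p.1)) p.2.1) p.2.2)
    (PolyF.lpsolve hn (PolyF.const []) (polyF_pickI hG hS hs) hc) (PolyF.const _) (PolyF.const _)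
    ?_ ?_ ?_ ?_
  · exact polyF_pickT (hn.comp PolyF.fst') (hG.comp PolyF.fst') (hS.comp PolyF.fst')
      (hs.comp PolyF.fst') (hc.comp PolyF.fst')
      (PolyF.dotZ (PolyF.padZ (hn.comp PolyF.fst') (hc.comp PolyF.fst')) PolyF.snd'.fst)
      PolyF.snd'.snd
  · intro x h
    unfold pickZ
    rw [h]
  · intro x h
    unfold pickZ
    rw [h]
  · intro x v d h
    unfold pickZ
    rw [h]

end Pool.Agent.Simplex.EB
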