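import Pool.Agent.Lib.MP_4d246d_lc.EB.Statement

/-!
# Leontief programs

`max c x`, `A x = b`, `x ≥ 0`, where `b > 0` and each column of `A` has at most one positive entry;
for example Markov decision processes.
-/

namespace Pool.Agent.Simplex.EB

/-- Each column has at most one positive entry. -/
def Leontief {M n : ℕ} (A : Fin M → Fin n → ℚ) : Prop :=
  ∀ j i i', 0 < A i j → 0 < A i' j → i = i'

/-- The program `max c x`, `A x = b`, `x ≥ 0`; each equation is written as two inequalities. -/
def eqProg {M n : ℕ} (A : Fin M → Fin n → ℚ) (b : Fin M → ℝ) (c : Fin n → ℝ) :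
    RLP (M + M) n where
  A := Fin.addCases A fun i j => -A i j
  b := Fin.addCases b fun i => -b i
  c := c

end Pool.Agent.Simplex.EB
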